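import Pool.Agent.X250.Sph.Bound2

/-!
# The top gamma-number and the links of the edges
-/

set_option autoImplicit false
set_option linter.unusedSectionVars false

namespace Pool.Agent.X250.Sph

open Module Pool.Agent.W907.SG Pool.Agent.W907.SM Pool.Agent.TH652.Above
open Pool.Agent.W497.FS (cl lkF lam fe mem_cl mem_lkF)

variable {V : Type} [Fintype V] [LinearOrder V] {G : SimpleGraph V}

/-- the top gamma-number -/
theorem gam_top {m : ℕ} (hS : HSph (2 * m) G) {γ : ℕ → ℤ} (hγ : IsGam (2 * m) G γ) :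
    4 ^ m * ((-1 : ℚ) ^ m * chiW G) = γ m := by
  classical
  have h1 := taylor (fun σ hσ => card_le_of_hSph hS σ (mem_cl_univ.1 hσ)) hγ m le_rfl
  have h2 : (cl G Finset.univ).filter (fun F => F.card = 2 * m - 2 * m) = {∅} := by
    ext F
    rw [Finset.mem_filter, Finset.mem_singleton, Nat.sub_self, Finset.card_eq_zero]
    refine ⟨fun h => h.2, fun h => ⟨?_, h⟩⟩
    rw [h, mem_cl_univ]
    simp
  rw [h2, Finset.sum_singleton, lam_lk, chiW_congr lk_empty, chiW_univ] at h1
  rw [h1]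
  have h3 : 2 * m / 2 + 1 = m + 1 := by omega
  rw [h3, Finset.sum_range_succ, Finset.sum_eq_zero, zero_add, Nat.choose_self, Nat.sub_self, pow_zero]
  · push_cast
    ring
  · intro i hi
    rw [Finset.mem_range] at hi
    rw [Nat.choose_eq_zero_of_lt hi, Nat.cast_zero, zero_mul, zero_mul]

/-- the three inequalities -/
theorem edge_gamma {m : ℕ} (h : FaceP m 2 G) (hS : HSph (2 * m + 2) G) (D : Set V)
    (hD : LV (G.induce D) (m + 2)) {γ : ℕ → ℤ} (hγ : IsGam (2 * m + 2) G γ) :
    0 ≤ (γ (m + 1) : ℚ) + 2 * ∑ e ∈ facesOff G 2 D, 4 ^ m * chiLk G m e := by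
  have h1 := h.edge hS D hD
  have h2 := gam_top (m := m + 1) hS hγ
  rw [← h2, ← Finset.mul_sum, pow_succ (4 : ℚ) m]
  have h3 : (0 : ℚ) ≤ 4 ^ m * 4 * ((-1) ^ (m + 1) * chiW G + 1 / 2 * ∑ e ∈ facesOff G 2 D, chiLk G m e) :=
    mul_nonneg (by positivity) h1
  linarith

/-- the sum over all edges -/
theorem edge_sum {m : ℕ} (hS : HSph (2 * m + 2) G) {γ : ℕ → ℤ} (hγ : IsGam (2 * m + 2) G γ) :
    ∑ e ∈ facesOff G 2 ∅, 4 ^ m * chiLk G m e = 4 * γ m + (m + 1) * γ (m + 1) := by
  have h1 := sum_gamma (j := m) (k := 1) hS hγ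
  have h3 : (2 * m + (1 + 1)) / 2 + 1 = m + 1 + 1 := by omega
  have h4 : ∑ i ∈ Finset.range m, (i.choose m : ℚ) * γ i / 4 ^ i = 0 := by
    refine Finset.sum_eq_zero fun i hi => ?_
    rw [Finset.mem_range] at hi
    rw [Nat.choose_eq_zero_of_lt hi, Nat.cast_zero, zero_mul, zero_div]
  rw [h3, Finset.sum_range_succ, Finset.sum_range_succ, h4, zero_add, Nat.choose_self,
    Nat.choose_succ_self_right] at h1
  rw [← Finset.mul_sum]
  have e1 : (1 / 2 : ℚ) ^ (1 + 1) = 1 / 4 := by norm_num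
  rw [e1] at h1
  have e2 : ∑ e ∈ facesOff G 2 ∅, chiLk G m e = 4 * (1 / 4 * ∑ T ∈ facesOff G (1 + 1) ∅, chiLk G m T) := by
    ring
  rw [e2, h1]
  push_cast
  field_simp
  ring

theorem mem_facesOff {k : ℕ} {D : Set V} {T : Finset V} :
    T ∈ facesOff G k D ↔ G.IsClique (T : Set V) ∧ T.card = k ∧ ¬ (T : Set V) ⊆ D := by
  classical
  unfold facesOff
  rw [Finset.mem_filter]
  exact and_iff_right (Finset.mem_univ _)

theorem chiW_inst {U : Type} (H : SimpleGraph U) (i1 i2 : Fintype U) : @chiW U i1 H = @chiW U i2 H := by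
  rw [Subsingleton.elim i1 i2]

/-- the top gamma-numbers of the links -/
theorem chiLk_gam {m : ℕ} (hS : HSph (2 * m + 2) G) {T : Finset V} [Fintype ↥(lk G T)]
    (hT : G.IsClique (T : Set V)) (hk : T.card = 2)
    {g : ℕ → ℤ} (hg : IsGam (2 * m) (G.induce (lk G T)) g) : 4 ^ m * chiLk G m T = g m := by
  classical
  have h1 := gam_top (m := m) (G := G.induce (lk G T)) (hSph_congr (by omega) (hSph_lk hS T hT)) hg
  rw [← h1]
  unfold chiLk
  exact congrArg (fun z => (4 : ℚ) ^ m * ((-1) ^ m * z)) (chiW_inst _ _ _)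

/-! ### links of links -/

/-- the link of a face of the link -/
theorem lk_lk (F : Finset V) (T : Finset ↥(lk G F)) :
    (Subtype.val '' lk (G.induce (lk G F)) T : Set V) = lk G (F ∪ T.map (incl (lk G F))) := by
  ext v
  constructor
  · rintro ⟨u, hu, rfl⟩
    intro w hw
    rcases Finset.mem_union.1 hw with hw | hw
    · exact u.2 w hw
    · rw [Finset.mem_map] at hw
      obtain ⟨x, hx, rfl⟩ := hw
      exact hu x hx
  · intro hv
    refine ⟨⟨v, fun w hw => hv w (Finset.mem_union_left _ hw)⟩, ?_, rfl⟩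
    intro x hx
    exact hv x.1 (Finset.mem_union_right _ (Finset.mem_map_of_mem (incl (lk G F)) hx))

theorem disj_lk (F : Finset V) [Fintype ↥(lk G F)] (T : Finset ↥(lk G F)) : Disjoint F (T.map (incl (lk G F))) := by
  rw [Finset.disjoint_left]
  intro t ht htR
  exact G.irrefl ((map_subset (lk G F) T htR) t ht)

theorem clique_union {F : Finset V} (hF : G.IsClique (F : Set V)) [Fintype ↥(lk G F)] {T : Finset ↥(lk G F)}
    (hT : (G.induce (lk G F)).IsClique (T : Set ↥(lk G F))) :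
    G.IsClique ((F ∪ T.map (incl (lk G F)) : Finset V) : Set V) := by
  rw [clique_map] at hT
  intro x hx y hy hxy
  rw [Finset.coe_union] at hx hy
  rcases hx with hx | hx <;> rcases hy with hy | hy
  · exact hF hx hy hxy
  · exact ((map_subset (lk G F) T hy) x hx).symm
  · exact (map_subset (lk G F) T hx) y hy
  · exact hT hx hy hxy

/-- the Euler characteristic of a full subgraph of a full subgraph -/
theorem chiW_image (A : Set V) [Fintype ↥A] (B : Set ↥A) [Fintype ↥B] [Fintype ↥(Subtype.val '' B : Set V)] :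
    chiW ((G.induce A).induce B) = chiW (G.induce (Subtype.val '' B : Set V)) := by
  classical
  rw [chiW_sub, chiW_sub]
  have hmem : ∀ T : Finset ↥A, ((T.map (incl A) : Finset V) : Set V) ⊆ Subtype.val '' B ↔ (T : Set ↥A) ⊆ B := by
    intro T
    constructor
    · intro h u hu
      obtain ⟨x, hx, he⟩ := h (Finset.mem_coe.2 (Finset.mem_map_of_mem (incl A) hu))
      have : x = u := Subtype.ext he
      exact this ▸ hx
    · intro h v hv
      rw [Finset.mem_coe, Finset.mem_map] at hv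
      obtain ⟨u, hu, rfl⟩ := hv
      exact ⟨u, h hu, rfl⟩
  refine Finset.sum_of_injOn (fun S : Finset ↥A => S.map (incl A)) ?_ ?_ ?_ ?_
  · intro S _ S' _ h
    exact Finset.map_injective _ h
  · intro S _
    exact Finset.mem_coe.2 (Finset.mem_univ _)
  · intro T _ hT
    refine if_neg fun h => hT ⟨cut A T, Finset.mem_coe.2 (Finset.mem_univ _), map_cut A ?_⟩
    refine h.2.trans ?_
    rintro _ ⟨u, _, rfl⟩
    exact u.2
  · intro S _
    have h1 := clique_map G A S
    by_cases h : (G.induce A).IsClique (S : Set ↥A) ∧ (S : Set ↥A) ⊆ B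
    · rw [if_pos h, if_pos ⟨h1.1 h.1, (hmem S).2 h.2⟩, Finset.card_map]
    · rw [if_neg h, if_neg fun h3 => h ⟨h1.2 h3.1, (hmem S).1 h3.2⟩]

theorem chiLk_lk (F : Finset V) [Fintype ↥(lk G F)] (j : ℕ) (T : Finset ↥(lk G F)) :
    chiLk (G.induce (lk G F)) j T = chiLk G j (F ∪ T.map (incl (lk G F))) := by
  classical
  have : Fintype ↥(Subtype.val '' lk (G.induce (lk G F)) T : Set V) := Fintype.ofFinite _
  unfold chiLk
  rw [chiW_image, chiW_congr (lk_lk F T)]

/-- the links of the faces satisfy the hypothesis on the links of the faces -/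
theorem FaceP.link {j k r : ℕ} (h : FaceP j (r + k) G) {F : Finset V} (hF : G.IsClique (F : Set V))
    (hr : F.card = r) [Fintype ↥(lk G F)] : FaceP j k (G.induce (lk G F)) := by
  classical
  intro T hT hk
  have h1 := h (F ∪ T.map (incl (lk G F))) (clique_union hF hT) (by
    rw [Finset.card_union_of_disjoint (disj_lk F T), Finset.card_map]; omega)
  have hm : ∀ x : ↥(lk (G.induce (lk G F)) T), x.1.1 ∈ lk G (F ∪ T.map (incl (lk G F))) := by
    intro x
    rw [← lk_lk]
    exact ⟨x.1, x.2, rfl⟩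
  exact P_emb _ _ ⟨⟨fun x => ⟨x.1.1, hm x⟩, fun a b hab =>
    Subtype.ext (Subtype.ext (congrArg (fun z => z.1) hab))⟩, fun {a b} => Iff.rfl⟩ h1

/-- summation over the pairs of a face and an edge of its link -/
theorem sum_pairs (q : Finset V → ℚ) (r : ℕ) [∀ F : Finset V, Fintype ↥(lk G F)] :
    ∑ F ∈ (cl G Finset.univ).filter (fun F => F.card = r),
      ∑ e ∈ facesOff (G.induce (lk G F)) 2 ∅, q (F ∪ e.map (incl (lk G F))) =
    ((r + 2).choose 2 : ℚ) * ∑ F ∈ (cl G Finset.univ).filter (fun F => F.card = r + 2), q F := by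
  classical
  have h1 : ∀ F ∈ (cl G Finset.univ).filter (fun F => F.card = r),
      ∑ e ∈ facesOff (G.induce (lk G F)) 2 ∅, q (F ∪ e.map (incl (lk G F))) =
      ∑ F' ∈ (cl G Finset.univ).filter (fun F => F.card = r + 2), if F ⊆ F' then q F' else 0 := by
    intro F hF
    obtain ⟨hF1, hF2⟩ := Finset.mem_filter.1 hF
    rw [mem_cl_univ] at hF1
    rw [← Finset.sum_filter]
    refine Finset.sum_of_injOn (fun e => F ∪ e.map (incl (lk G F))) ?_ ?_ ?_ ?_
    · intro e _ e' _ he
      have he' : F ∪ e.map (incl (lk G F)) = F ∪ e'.map (incl (lk G F)) := he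
      have h2 : (F ∪ e.map (incl (lk G F))) \ F = (F ∪ e'.map (incl (lk G F))) \ F := by rw [he']
      rw [Finset.union_sdiff_cancel_left (disj_lk F e), Finset.union_sdiff_cancel_left (disj_lk F e')] at h2
      exact Finset.map_injective _ h2
    · intro e he
      obtain ⟨_, h2, h3, _⟩ := Finset.mem_filter.1 (Finset.mem_coe.1 he)
      refine Finset.mem_coe.2 (Finset.mem_filter.2 ⟨Finset.mem_filter.2 ⟨mem_cl_univ.2 (clique_union hF1 h2),
        ?_⟩, Finset.subset_union_left⟩)
      rw [Finset.card_union_of_disjoint (disj_lk F e), Finset.card_map]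
      omega
    · intro F' hF' hn
      exfalso
      obtain ⟨h2, h3⟩ := Finset.mem_filter.1 hF'
      obtain ⟨h4, h5⟩ := Finset.mem_filter.1 h2
      rw [mem_cl_univ] at h4
      apply hn
      have h6 : ((F' \ F : Finset V) : Set V) ⊆ lk G F := by
        intro x hx y hy
        rw [Finset.mem_coe, Finset.mem_sdiff] at hx
        refine h4 (Finset.mem_coe.2 hx.1) (Finset.mem_coe.2 (h3 hy)) ?_
        rintro rfl
        exact hx.2 hy
      refine ⟨cut (lk G F) (F' \ F), Finset.mem_coe.2 (Finset.mem_filter.2 ⟨Finset.mem_univ _, ?_, ?_, ?_⟩), ?_⟩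
      · rw [clique_map, map_cut _ h6]
        exact h4.subset (by
          intro x hx
          rw [Finset.mem_coe, Finset.mem_sdiff] at hx
          exact hx.1)
      · rw [← Finset.card_map (incl (lk G F)), map_cut _ h6, Finset.card_sdiff_of_subset h3]
        omega
      · intro h7
        have h8 : cut (lk G F) (F' \ F) = ∅ := by
          rw [← Finset.coe_eq_empty]
          exact Set.subset_empty_iff.1 h7
        have h9 := map_cut (lk G F) h6
        rw [h8, Finset.map_empty] at h9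
        have h10 := congrArg Finset.card h9
        rw [Finset.card_empty, Finset.card_sdiff_of_subset h3] at h10
        omega
      · show F ∪ (cut (lk G F) (F' \ F)).map (incl (lk G F)) = F'
        rw [map_cut _ h6, Finset.union_sdiff_of_subset h3]
    · intro e _
      rfl
  rw [Finset.sum_congr rfl h1, Finset.sum_comm, Finset.mul_sum]
  refine Finset.sum_congr rfl fun F' hF' => ?_
  obtain ⟨h2, h3⟩ := Finset.mem_filter.1 hF'
  rw [← Finset.sum_filter, Finset.sum_const, nsmul_eq_mul]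
  congr 2
  have h4 : (((cl G Finset.univ).filter (fun F => F.card = r)).filter (fun F => F ⊆ F')) =
      F'.powersetCard r := by
    ext F
    rw [Finset.mem_filter, Finset.mem_filter, Finset.mem_powersetCard]
    constructor
    · rintro ⟨⟨_, h5⟩, h6⟩
      exact ⟨h6, h5⟩
    · rintro ⟨h6, h5⟩
      exact ⟨⟨Pool.Agent.W497.FS.cl_of_subset h2 h6, h5⟩, h6⟩
  rw [h4, Finset.card_powersetCard, h3]
  exact Nat.choose_symm_of_eq_add rfl

/-- an inequality between consecutive Taylor coefficients -/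
theorem taylor_step {d j : ℕ} (hd : 2 * j + 2 ≤ d) (h : FaceP j (d - 2 * j) G) (hS : HSph d G) {γ : ℕ → ℤ}
    (hγ : IsGam d G γ) :
    0 ≤ (∑ i ∈ Finset.range (d / 2 + 1), (i.choose (j + 1) : ℚ) * 2 ^ (d - 2 * i) * γ i) +
      ((d : ℚ) - 2 * j) * (d - 2 * j - 1) *
        ∑ i ∈ Finset.range (d / 2 + 1), (i.choose j : ℚ) * 2 ^ (d - 2 * i) * γ i := by
  classical
  obtain ⟨r, rfl⟩ : ∃ r, d = r + 2 + 2 * j := ⟨d - 2 * j - 2, by omega⟩
  have hcard : ∀ σ ∈ cl G Finset.univ, σ.card ≤ r + 2 + 2 * j := fun σ hσ =>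
    card_le_of_hSph hS σ (mem_cl_univ.1 hσ)
  rw [← taylor hcard hγ (j + 1) (by omega), ← taylor hcard hγ j (by omega)]
  have e1 : r + 2 + 2 * j - 2 * (j + 1) = r := by omega
  have e2 : r + 2 + 2 * j - 2 * j = r + 2 := by omega
  rw [e2] at h
  rw [e1, e2]
  have h1 : ∀ F ∈ (cl G Finset.univ).filter (fun F => F.card = r),
      0 ≤ 4 ^ (j + 1) * ((-1 : ℚ) ^ (j + 1) * lam G (lkF G Finset.univ F)) +
        2 * ∑ e ∈ facesOff (G.induce (lk G F)) 2 ∅, 4 ^ j * chiLk G j (F ∪ e.map (incl (lk G F))) := by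
    intro F hF
    obtain ⟨hF1, hF2⟩ := Finset.mem_filter.1 hF
    rw [mem_cl_univ] at hF1
    have hS' : HSph (2 * j + 2) (G.induce (lk G F)) := hSph_congr (by omega) (hSph_lk hS F hF1)
    have h2 := (h.link hF1 hF2).edge hS' ∅ (lv_none _ (by omega))
    have h3 : ∑ T ∈ facesOff (G.induce (lk G F)) 2 ∅, chiLk (G.induce (lk G F)) j T =
        ∑ e ∈ facesOff (G.induce (lk G F)) 2 ∅, chiLk G j (F ∪ e.map (incl (lk G F))) :=
      Finset.sum_congr rfl fun T _ => chiLk_lk F j T
    rw [h3] at h2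
    rw [lam_lk, ← Finset.mul_sum, pow_succ (4 : ℚ) j]
    have h4 : (0 : ℚ) ≤ 4 ^ j * 4 * ((-1) ^ (j + 1) * chiW (G.induce (lk G F)) + 1 / 2 *
        ∑ e ∈ facesOff (G.induce (lk G F)) 2 ∅, chiLk G j (F ∪ e.map (incl (lk G F)))) :=
      mul_nonneg (by positivity) h2
    linarith
  have h2 := Finset.sum_nonneg h1
  have h2' : ∑ F ∈ (cl G Finset.univ).filter (fun F => F.card = r),
      2 * ∑ e ∈ facesOff (G.induce (lk G F)) 2 ∅, 4 ^ j * chiLk G j (F ∪ e.map (incl (lk G F))) =
      2 * (((r + 2).choose 2 : ℚ) *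
        ∑ F ∈ (cl G Finset.univ).filter (fun F => F.card = r + 2), 4 ^ j * chiLk G j F) := by
    rw [← Finset.mul_sum, sum_pairs (fun F => 4 ^ j * chiLk G j F) r]
  rw [Finset.sum_add_distrib, h2'] at h2
  have h3 : ∑ F ∈ (cl G Finset.univ).filter (fun F => F.card = r + 2), 4 ^ j * chiLk G j F =
      ∑ F ∈ (cl G Finset.univ).filter (fun F => F.card = r + 2),
        4 ^ j * ((-1) ^ j * lam G (lkF G Finset.univ F)) := by
    refine Finset.sum_congr rfl fun F _ => ?_
    rw [lam_lk]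
    unfold chiLk
    rfl
  rw [h3] at h2
  refine h2.trans (le_of_eq ?_)
  have h4 : ((r + 2).choose 2 : ℚ) = (r + 2) * (r + 1) / 2 := by
    rw [Nat.cast_choose_two]
    push_cast
    ring
  rw [h4]
  push_cast
  ring

end Pool.Agent.X250.Sph
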