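import Pool.Agent.TH652.Dual7
import Pool.Agent.W907.SM.All

/-!
# Betti numbers of full subcomplexes, and links of homology spheres
-/

set_option autoImplicit false
set_option linter.unusedSectionVars false

namespace Pool.Agent.X250.Sph

open Pool.Agent.W907.SG Pool.Agent.W907.SM Pool.Agent.TH652.Above

section ext

variable {V : Type} [Fintype V] [LinearOrder V] (G : SimpleGraph V) (A : Set V) [Fintype ↥A]
  {F M : Type} [Field F] [AddCommGroup M] [Module F M]

/-- the inclusion -/
abbrev incl : ↥A ↪ V := ⟨Subtype.val, Subtype.val_injective⟩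

theorem map_subset (T : Finset ↥A) : ((T.map (incl A) : Finset V) : Set V) ⊆ A := by
  intro v hv
  rw [Finset.mem_coe, Finset.mem_map] at hv
  obtain ⟨u, _, rfl⟩ := hv
  exact u.2

open Classical in
/-- restriction of a set of vertices -/
noncomputable def cut (T : Finset V) : Finset ↥A := Finset.univ.filter fun u => u.1 ∈ T

theorem mem_cut {T : Finset V} {u : ↥A} : u ∈ cut A T ↔ u.1 ∈ T := by
  classical
  simp [cut]

theorem cut_map (T : Finset ↥A) : cut A (T.map (incl A)) = T := by
  ext u
  rw [mem_cut, Finset.mem_map]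
  constructor
  · rintro ⟨x, hx, he⟩
    have : x = u := Subtype.ext he
    exact this ▸ hx
  · exact fun h => ⟨u, h, rfl⟩

theorem map_cut {T : Finset V} (hT : (T : Set V) ⊆ A) : (cut A T).map (incl A) = T := by
  ext v
  rw [Finset.mem_map]
  constructor
  · rintro ⟨x, hx, rfl⟩
    exact (mem_cut A).1 hx
  · exact fun h => ⟨⟨v, hT h⟩, (mem_cut A).2 h, rfl⟩

open Classical in
/-- extension by zero -/
noncomputable def Ex : (Finset ↥A → M) →ₗ[F] (Finset V → M) where
  toFun c T := if (T : Set V) ⊆ A then c (cut A T) else 0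
  map_add' c d := by
    funext T
    simp only [Pi.add_apply]
    split_ifs
    · rfl
    · rw [add_zero]
  map_smul' a c := by
    funext T
    simp only [Pi.smul_apply, RingHom.id_apply]
    split_ifs
    · rfl
    · rw [smul_zero]

theorem Ex_map (c : Finset ↥A → M) (T : Finset ↥A) : Ex (F := F) A c (T.map (incl A)) = c T := by
  exact (if_pos (map_subset A T)).trans (congrArg c (cut_map A T))

theorem Ex_pos (c : Finset ↥A → M) {T : Finset V} (h : (T : Set V) ⊆ A) : Ex (F := F) A c T = c (cut A T) :=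
  if_pos h

theorem Ex_not (c : Finset ↥A → M) {T : Finset V} (h : ¬ (T : Set V) ⊆ A) : Ex (F := F) A c T = 0 :=
  if_neg h

theorem Ex_inj : Function.Injective (Ex (F := F) (M := M) A) := by
  intro c d h
  funext T
  have := congrFun h (T.map (incl A))
  rwa [Ex_map, Ex_map] at this

theorem sg_map (v : ↥A) (T : Finset ↥A) : sg v.1 (T.map (incl A)) = sg v T := by
  unfold sg
  congr 1
  rw [Finset.filter_map, Finset.card_map]
  rfl

theorem Ex_bd (c : Finset ↥A → M) : bd F (Ex (F := F) A c) = Ex (F := F) A (bd F c) := by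
  funext T
  by_cases hT : (T : Set V) ⊆ A
  · obtain ⟨T', rfl⟩ : ∃ T' : Finset ↥A, T'.map (incl A) = T := ⟨cut A T, map_cut A hT⟩
    rw [Ex_map, bd_apply, bd_apply]
    symm
    refine Finset.sum_of_injOn (fun v : ↥A => v.1) (fun a _ b _ h => Subtype.ext h) ?_ ?_ ?_
    · intro v hv
      rw [Finset.mem_coe, Finset.mem_compl] at hv ⊢
      intro h
      rw [Finset.mem_map] at h
      obtain ⟨x, hx, he⟩ := h
      have : x = v := Subtype.ext he
      exact hv (this ▸ hx)
    · intro v hv hv2
      rw [Ex_not, smul_zero]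
      intro hvA
      have hvA' : v ∈ A := hvA (by simp)
      apply hv2
      refine ⟨⟨v, hvA'⟩, ?_, rfl⟩
      rw [Finset.mem_coe, Finset.mem_compl]
      rw [Finset.mem_compl] at hv
      intro h
      exact hv (Finset.mem_map.2 ⟨⟨v, hvA'⟩, h, rfl⟩)
    · intro v _
      have hsub : ((insert v.1 (T'.map (incl A)) : Finset V) : Set V) ⊆ A := by
        intro x hx
        rw [Finset.mem_coe, Finset.mem_insert] at hx
        rcases hx with rfl | hx
        · exact v.2
        · exact map_subset A T' hx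
      rw [Ex_pos A c hsub, sg_map A v T']
      congr 2
      ext u
      rw [mem_cut, Finset.mem_insert, Finset.mem_insert, Subtype.ext_iff, Finset.mem_map]
      refine or_congr_right ⟨fun h => ⟨u, h, rfl⟩, ?_⟩
      rintro ⟨x, hx, he⟩
      have : x = u := Subtype.ext he
      exact this ▸ hx
  · rw [Ex_not A _ hT, bd_apply]
    refine Finset.sum_eq_zero fun v _ => ?_
    rw [Ex_not, smul_zero]
    intro h
    exact hT (fun x hx => h (by simp at hx ⊢; exact Or.inr hx))

theorem clique_map (T : Finset ↥A) :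
    (G.induce A).IsClique (T : Set ↥A) ↔ G.IsClique ((T.map (incl A) : Finset V) : Set V) := by
  constructor
  · intro h a ha b hb hab
    rw [Finset.mem_coe, Finset.mem_map] at ha hb
    obtain ⟨x, hx, rfl⟩ := ha
    obtain ⟨y, hy, rfl⟩ := hb
    exact h hx hy (fun e => hab (by rw [e]))
  · intro h a ha b hb hab
    exact h (Finset.mem_coe.2 (Finset.mem_map_of_mem (incl A) ha))
      (Finset.mem_coe.2 (Finset.mem_map_of_mem (incl A) hb)) (fun e => hab (Subtype.ext e))

theorem KK_ext (ρ : V → M →ₗ[F] M) (B : Set ↥A) (i : ℕ) :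
    KK G ρ (Subtype.val '' B) ∅ i = (KK (G.induce A) (fun u => ρ u.1) B ∅ i).map (Ex (F := F) A) := by
  have hBA : (Subtype.val '' B : Set V) ⊆ A := by
    rintro _ ⟨u, _, rfl⟩
    exact u.2
  have hmem : ∀ T : Finset ↥A, ((T.map (incl A) : Finset V) : Set V) ⊆ Subtype.val '' B ↔ (T : Set ↥A) ⊆ B := by
    intro T
    constructor
    · intro h u hu
      obtain ⟨x, hx, he⟩ := h (Finset.mem_coe.2 (Finset.mem_map_of_mem (incl A) hu))
      have : x = u := Subtype.ext he
      exact this ▸ hx
    · intro h v hv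
      rw [Finset.mem_coe, Finset.mem_map] at hv
      obtain ⟨u, hu, rfl⟩ := hv
      exact ⟨u, h hu, rfl⟩
  ext c
  rw [Submodule.mem_map, mem_KK]
  constructor
  · rintro ⟨h1, h2⟩
    refine ⟨fun T => c (T.map (incl A)), ?_, ?_⟩
    · rw [mem_KK]
      refine ⟨fun T hT => h1 _ ?_, fun T t ht => ?_⟩
      · rw [hmem, Finset.card_map, ← clique_map]
        exact hT
      · rcases ht with ht | ht
        · exact h2 _ _ (Or.inl (Finset.mem_map_of_mem (incl A) ht))
        · exact absurd ht (Set.notMem_empty _)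
    · funext T
      by_cases hT : (T : Set V) ⊆ A
      · rw [Ex_pos A _ hT, map_cut A hT]
      · rw [Ex_not A _ hT, h1 T]
        exact fun h => hT (h.2.1.trans hBA)
  · rintro ⟨d, hd, rfl⟩
    rw [mem_KK] at hd
    obtain ⟨h1, h2⟩ := hd
    refine ⟨fun T hT => ?_, fun T t ht => ?_⟩
    · by_cases hTA : (T : Set V) ⊆ A
      · obtain ⟨T', rfl⟩ : ∃ T' : Finset ↥A, T'.map (incl A) = T := ⟨cut A T, map_cut A hTA⟩
        rw [Ex_map]
        refine h1 T' ?_
        rw [hmem, Finset.card_map, ← clique_map] at hT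
        exact hT
      · exact Ex_not A _ hTA
    · rcases ht with ht | ht
      · by_cases hTA : (T : Set V) ⊆ A
        · rw [Ex_pos A _ hTA]
          exact h2 _ ⟨t, hTA ht⟩ (Or.inl ((mem_cut A).2 ht))
        · rw [Ex_not A _ hTA, map_zero, neg_zero]
      · exact absurd ht (Set.notMem_empty _)

/-- Betti numbers of full subcomplexes of full subcomplexes -/
theorem beta_sub (ρ : V → M →ₗ[F] M) (B : Set ↥A) (i : ℕ) :
    beta (G.induce A) (fun u => ρ u.1) B ∅ i = beta G ρ (Subtype.val '' B) ∅ i := by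
  have hZ : ZZ G ρ (Subtype.val '' B) ∅ i =
      (ZZ (G.induce A) (fun u => ρ u.1) B ∅ i).map (Ex (F := F) A) := by
    ext c
    unfold ZZ
    rw [Submodule.mem_inf, KK_ext, Submodule.mem_map, Submodule.mem_map]
    constructor
    · rintro ⟨⟨d, hd, rfl⟩, hc⟩
      refine ⟨d, ⟨hd, ?_⟩, rfl⟩
      have h3 : Ex (F := F) A (bd F d) = 0 := by rw [← Ex_bd]; exact hc
      exact (map_eq_zero_iff _ (Ex_inj A)).1 h3
    · rintro ⟨d, ⟨hd, hd2⟩, rfl⟩
      refine ⟨⟨d, hd, rfl⟩, ?_⟩
      have hd3 : bd F d = 0 := hd2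
      show bd F (Ex (F := F) A d) = 0
      rw [Ex_bd, hd3, map_zero]
  have hB : BB G ρ (Subtype.val '' B) ∅ i =
      (BB (G.induce A) (fun u => ρ u.1) B ∅ i).map (Ex (F := F) A) := by
    unfold BB
    rw [KK_ext]
    ext c
    simp only [Submodule.mem_map]
    constructor
    · rintro ⟨_, ⟨d, hd, rfl⟩, rfl⟩
      exact ⟨bd F d, ⟨d, hd, rfl⟩, (Ex_bd A d).symm⟩
    · rintro ⟨_, ⟨d, hd, rfl⟩, rfl⟩
      exact ⟨Ex (F := F) A d, ⟨d, hd, rfl⟩, Ex_bd A d⟩
  unfold beta
  rw [hZ, hB, ← (Submodule.equivMapOfInjective (Ex (F := F) A) (Ex_inj A) _).finrank_eq,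
    ← (Submodule.equivMapOfInjective (Ex (F := F) A) (Ex_inj A) _).finrank_eq]

end ext

section sphere

variable {V : Type} [Fintype V] [LinearOrder V] {G : SimpleGraph V}

/-- a real homology sphere of dimension `n - 1` has no cliques with more than `n` elements -/
theorem card_le_of_hSph {d : ℕ} (h : HSph d G) (T : Finset V)
    (hT : G.IsClique (T : Set V)) : T.card ≤ d := by
  classical
  -- a maximal clique containing `T`
  obtain ⟨M, hM, hmax⟩ := Finset.exists_max_image
    (Finset.univ.filter fun M : Finset V => T ⊆ M ∧ G.IsClique (M : Set V))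
    Finset.card ⟨T, by simp [hT]⟩
  rw [Finset.mem_filter] at hM
  obtain ⟨-, hTM, hMc⟩ := hM
  have hlk : lk G M = ∅ := by
    rw [Set.eq_empty_iff_forall_notMem]
    intro v hv
    have hvM : v ∉ M := fun hm => G.irrefl (hv v hm)
    have h1 := hmax (insert v M) (by
      rw [Finset.mem_filter]
      refine ⟨Finset.mem_univ _, hTM.trans (Finset.subset_insert _ _), ?_⟩
      rw [Finset.coe_insert, SimpleGraph.isClique_insert]
      exact ⟨hMc, fun u hu _ => hv u hu⟩)
    rw [Finset.card_insert_of_notMem hvM] at h1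
    omega
  by_contra hcon
  push Not at hcon
  have hMd : d < M.card := lt_of_lt_of_le hcon (Finset.card_le_card hTM)
  have h0 := h M hMc 0
  rw [if_neg (by omega), hlk] at h0
  -- the empty complex has a nonzero class in degree zero
  have hK : ∀ i, 0 < i → KK G
      (fun _ => (- LinearMap.id : ℝ →ₗ[ℝ] ℝ)) (∅ : Set V) ∅ i = ⊥ := by
    intro i hi
    rw [eq_bot_iff]
    intro c hc
    rw [Submodule.mem_bot]
    funext S
    refine hc.1 S ?_
    rintro ⟨-, h2, h3⟩
    have : S = ∅ := by
      rw [← Finset.coe_eq_empty]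
      exact Set.subset_empty_iff.1 h2
    rw [this, Finset.card_empty] at h3
    omega
  have hB : BB G (fun _ => (- LinearMap.id : ℝ →ₗ[ℝ] ℝ)) (∅ : Set V) ∅ 0 = ⊥ := by
    unfold BB
    rw [hK 1 one_pos, Submodule.map_bot]
  unfold beta at h0
  rw [hB, finrank_bot, Nat.sub_zero] at h0
  have hfin : FiniteDimensional ℝ (ZZ G (fun _ => (- LinearMap.id : ℝ →ₗ[ℝ] ℝ))
      (∅ : Set V) ∅ 0) := inferInstance
  have h1 : ZZ G (fun _ => (- LinearMap.id : ℝ →ₗ[ℝ] ℝ)) (∅ : Set V) ∅ 0 = ⊥ :=
    Submodule.finrank_eq_zero.1 h0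
  have hc : (fun S : Finset V => if S = ∅ then (1 : ℝ) else 0) ∈
      ZZ G (fun _ => (- LinearMap.id : ℝ →ₗ[ℝ] ℝ)) (∅ : Set V) ∅ 0 := by
    refine ⟨⟨?_, ?_⟩, ?_⟩
    · intro S hS
      refine if_neg ?_
      rintro rfl
      exact hS ⟨by simp, by simp, rfl⟩
    · intro S t _
      rfl
    · rw [SetLike.mem_coe, LinearMap.mem_ker]
      funext S
      rw [bd_apply]
      refine Finset.sum_eq_zero fun v _ => ?_
      rw [if_neg (Finset.insert_ne_empty v S), smul_zero]
  rw [h1, Submodule.mem_bot] at hc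
  have := congrFun hc ∅
  simp at this

/-- links of homology spheres -/
theorem hSph_lk {n : ℕ} (h : HSph n G) (S : Finset V) (hS : G.IsClique (S : Set V)) [Fintype ↥(lk G S)] :
    HSph (n - S.card) (G.induce (lk G S)) := by
  classical
  intro T hT i
  have h1 := beta_sub G (lk G S) (F := ℝ) (M := ℝ) (fun _ => - LinearMap.id) (lk (G.induce (lk G S)) T) i
  have h2 : (Subtype.val '' lk (G.induce (lk G S)) T : Set V) = lk G (S ∪ T.map (incl (lk G S))) := by
    ext v
    constructor
    · rintro ⟨u, hu, rfl⟩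
      intro w hw
      rcases Finset.mem_union.1 hw with hw | hw
      · exact u.2 w hw
      · rw [Finset.mem_map] at hw
        obtain ⟨x, hx, rfl⟩ := hw
        exact hu x hx
    · intro hv
      refine ⟨⟨v, fun w hw => hv w (Finset.mem_union_left _ hw)⟩, ?_, rfl⟩
      intro x hx
      exact hv x.1 (Finset.mem_union_right _ (Finset.mem_map_of_mem (incl (lk G S)) hx))
  have h3 : Disjoint S (T.map (incl (lk G S))) := by
    rw [Finset.disjoint_left]
    intro t ht htR
    exact G.irrefl ((map_subset (lk G S) T htR) t ht)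
  have h4 : G.IsClique ((S ∪ T.map (incl (lk G S)) : Finset V) : Set V) := by
    rw [clique_map] at hT
    intro x hx y hy hxy
    rw [Finset.coe_union] at hx hy
    rcases hx with hx | hx <;> rcases hy with hy | hy
    · exact hS hx hy hxy
    · exact ((map_subset (lk G S) T hy) x hx).symm
    · exact (map_subset (lk G S) T hx) y hy
    · exact hT hx hy hxy
  have h5 := h _ h4 i
  have h6 := card_le_of_hSph h S hS
  rw [h1, h2, h5, Finset.card_union_of_disjoint h3, Finset.card_map]
  refine if_congr ?_ rfl rfl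
  omega

/-- vanishing for links -/
theorem van_lk {n : ℕ} (hP : P n G) (S : Finset V) (hS : G.IsClique (S : Set V)) [Fintype ↥(lk G S)]
    (i : ℕ) (hi : n < 2 * i + S.card) : L2Van (G.induce (lk G S)) i :=
  hP.2 S hS (lk G S) (fun v hv u hu => (hv u hu).symm) i hi _ _

/-- the Singer conjecture for links -/
theorem singer_lk {n : ℕ} (h : HSph n G) (hP : P n G) (S : Finset V) (hS : G.IsClique (S : Set V))
    [Fintype ↥(lk G S)] (i : ℕ) (hi : 2 * i + S.card ≠ n) : L2Van (G.induce (lk G S)) i := by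
  have h6 := card_le_of_hSph h S hS
  exact singer_of_above (hSph_lk h S hS) (fun j hj => van_lk hP S hS j (by omega)) i (by omega)

/-- the Charney-Davis inequality for links -/
theorem cd_lk {n : ℕ} (h : HSph n G) (hP : P n G) (S : Finset V) (hS : G.IsClique (S : Set V))
    [Fintype ↥(lk G S)] (j : ℕ) (hj : 2 * j + S.card = n) :
    0 ≤ (-1 : ℚ) ^ j * chiW (G.induce (lk G S)) :=
  chi_sign _ fun i hi => singer_lk h hP S hS i (by omega)

end sphere

end Pool.Agent.X250.Sph
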