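import Pool.Agent.X250.Sph.Links

/-!
# The gamma-vector and the Charney-Davis quantities of the links
-/

set_option autoImplicit false
set_option linter.unusedSectionVars false

namespace Pool.Agent.X250.Sph

open Pool.Agent.W907.SG Pool.Agent.W907.SM Pool.Agent.TH652.Above Polynomial
open Pool.Agent.W497.FS (cl lkF lam fe mem_cl mem_lkF sum_sup)

open scoped Classical in
/-- the number of the faces with `j` vertices of the flag complex of `G` -/
noncomputable def numFaces {V : Type} [Fintype V] (G : SimpleGraph V) (j : ℕ) : ℕ :=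
  ((Finset.univ : Finset (Finset V)).filter fun T : Finset V => G.IsClique (T : Set V) ∧ T.card = j).card

/-- `γ` is the gamma-vector of the flag complex of `G`, of dimension `d - 1`: its h-polynomial
`∑ fⱼ₋₁ X^j (1 - X)^(d - j)` is `∑ γᵢ X^i (1 + X)^(d - 2 i)` -/
def IsGam {V : Type} [Fintype V] (d : ℕ) (G : SimpleGraph V) (γ : ℕ → ℤ) : Prop :=
  ∑ j ∈ Finset.range (d + 1), C ((numFaces G j : ℕ) : ℤ) * X ^ j * (1 - X) ^ (d - j) =
    ∑ i ∈ Finset.range (d / 2 + 1), C (γ i) * X ^ i * (1 + X) ^ (d - 2 * i)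

variable {V : Type} [Fintype V] [LinearOrder V] {G : SimpleGraph V}

theorem numFaces_eq (j : ℕ) : numFaces G j = ((cl G Finset.univ).filter fun T => T.card = j).card := by
  classical
  unfold numFaces
  congr 1
  ext T
  simp only [Finset.mem_filter, Finset.mem_univ, true_and, mem_cl_univ]

/-- the evaluation of the gamma-identity -/
theorem eval_gam {d : ℕ} {γ : ℕ → ℤ} (hγ : IsGam d G γ) (y : ℚ) (hy : y ≠ -1) :
    ∑ j ∈ Finset.range (d + 1), (numFaces G j : ℚ) * ((y - 1) / 2) ^ j =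
      ∑ i ∈ Finset.range (d / 2 + 1), (γ i : ℚ) * ((y ^ 2 - 1) / 4) ^ i * y ^ (d - 2 * i) := by
  have hy1 : y + 1 ≠ 0 := fun h => hy (by linarith)
  have h1 := congrArg (fun p : ℤ[X] => aeval ((y - 1) / (y + 1) : ℚ) p) hγ
  simp only [map_sum, map_mul, map_pow, map_sub, map_add, map_one, aeval_X,
    eq_intCast, map_intCast, map_natCast, Int.cast_natCast] at h1
  have e1 : (1 : ℚ) - (y - 1) / (y + 1) = 2 / (y + 1) := by field_simp; ring
  have e2 : (1 : ℚ) + (y - 1) / (y + 1) = 2 * y / (y + 1) := by field_simp; ring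
  rw [e1, e2] at h1
  have h2 : ∀ j ∈ Finset.range (d + 1), (numFaces G j : ℚ) * ((y - 1) / 2) ^ j =
      ((y + 1) / 2) ^ d * ((numFaces G j : ℚ) * ((y - 1) / (y + 1)) ^ j * (2 / (y + 1)) ^ (d - j)) := by
    intro j hj
    rw [Finset.mem_range] at hj
    obtain ⟨k, rfl⟩ : ∃ k, d = j + k := ⟨d - j, by omega⟩
    rw [Nat.add_sub_cancel_left, pow_add]
    have e3 : ((y + 1) / 2) ^ k * (2 / (y + 1)) ^ k = 1 := by
      rw [← mul_pow, div_mul_div_comm, mul_comm, div_self (mul_ne_zero two_ne_zero hy1), one_pow]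
    have e4 : ((y + 1) / 2) ^ j * ((y - 1) / (y + 1)) ^ j = ((y - 1) / 2) ^ j := by
      rw [← mul_pow]
      congr 1
      field_simp
    calc (numFaces G j : ℚ) * ((y - 1) / 2) ^ j
        = (numFaces G j : ℚ) * (((y + 1) / 2) ^ j * ((y - 1) / (y + 1)) ^ j) *
            (((y + 1) / 2) ^ k * (2 / (y + 1)) ^ k) := by rw [e3, e4, mul_one]
      _ = _ := by ring
  have h3 : ∀ i ∈ Finset.range (d / 2 + 1),
      (γ i : ℚ) * ((y ^ 2 - 1) / 4) ^ i * y ^ (d - 2 * i) =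
      ((y + 1) / 2) ^ d * ((γ i : ℚ) * ((y - 1) / (y + 1)) ^ i * (2 * y / (y + 1)) ^ (d - 2 * i)) := by
    intro i hi
    rw [Finset.mem_range] at hi
    obtain ⟨k, rfl⟩ : ∃ k, d = 2 * i + k := ⟨d - 2 * i, by omega⟩
    rw [Nat.add_sub_cancel_left, pow_add, pow_mul]
    have e3 : ((y + 1) / 2) ^ k * (2 * y / (y + 1)) ^ k = y ^ k := by
      rw [← mul_pow]
      congr 1
      field_simp
    have e4 : (((y + 1) / 2) ^ 2) ^ i * ((y - 1) / (y + 1)) ^ i = ((y ^ 2 - 1) / 4) ^ i := by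
      rw [← mul_pow]
      congr 1
      field_simp
      ring
    rw [← e3, ← e4]
    ring
  rw [Finset.sum_congr rfl h2, Finset.sum_congr rfl h3, ← Finset.mul_sum, ← Finset.mul_sum, h1]

/-- the polynomial form -/
theorem poly_gam {d : ℕ} {γ : ℕ → ℤ} (hγ : IsGam d G γ) :
    ∑ j ∈ Finset.range (d + 1), C (numFaces G j : ℚ) * (C (1 / 2) * (X - C 1)) ^ j =
      ∑ i ∈ Finset.range (d / 2 + 1), C (γ i : ℚ) * (C (1 / 4) * (X ^ 2 - C 1)) ^ i * X ^ (d - 2 * i) := by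
  refine Polynomial.eq_of_infinite_eval_eq _ _ ?_
  refine Set.Infinite.mono (s := {y : ℚ | y ≠ -1}) ?_ ?_
  · intro y hy
    have h1 := eval_gam hγ y hy
    show eval y _ = eval y _
    simp only [eval_finsetSum, eval_mul, eval_pow, eval_sub, eval_X, eval_C]
    have e1 : (1 / 2 : ℚ) * (y - 1) = (y - 1) / 2 := by ring
    have e2 : (1 / 4 : ℚ) * (y ^ 2 - 1) = (y ^ 2 - 1) / 4 := by ring
    rw [e1, e2]
    exact h1
  · have h2 : {y : ℚ | y ≠ -1} = {(-1 : ℚ)}ᶜ := by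
      ext y
      simp
    rw [h2]
    exact (Set.finite_singleton _).infinite_compl

theorem coeff_pow_sub (n k : ℕ) :
    (((X - C 1) ^ n : ℚ[X])).coeff k = (-1) ^ (n - k) * (n.choose k : ℚ) := by
  have h : (X - C 1 : ℚ[X]) = X + C (-1) := by rw [C_neg, sub_eq_add_neg]
  rw [h, coeff_X_add_C_pow]

/-- the coefficients on the right -/
theorem coeff_right (d i j : ℕ) (hi : 2 * i ≤ d) (hj : 2 * j ≤ d) :
    (((C (1 / 4) * (X ^ 2 - C 1)) ^ i * X ^ (d - 2 * i) : ℚ[X])).coeff (d - 2 * j) =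
      (-1) ^ j * (1 / 4) ^ i * (i.choose j : ℚ) := by
  have h0 : ((C (1 / 4) * (X ^ 2 - C 1)) ^ i : ℚ[X]) = C ((1 / 4) ^ i) * expand ℚ 2 ((X - C 1) ^ i) := by
    rw [mul_pow, C_pow]
    congr 1
    simp
  rw [h0, mul_assoc, coeff_C_mul, coeff_mul_X_pow']
  by_cases h : j ≤ i
  · rw [if_pos (by omega), show d - 2 * j - (d - 2 * i) = (i - j) * 2 by omega,
      coeff_expand_mul (by norm_num), coeff_pow_sub, Nat.sub_sub_self h, Nat.choose_symm h]
    ring
  · rw [Nat.choose_eq_zero_of_lt (by omega), Nat.cast_zero, mul_zero]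
    by_cases h2 : d - 2 * i ≤ d - 2 * j
    · omega
    · rw [if_neg h2, mul_zero]

/-- the sum of the Charney-Davis quantities of the links of the faces with `r` vertices -/
theorem sum_lam (r : ℕ) : ∑ F ∈ (cl G Finset.univ).filter (fun F => F.card = r),
    lam G (lkF G Finset.univ F) =
      ∑ σ ∈ cl G Finset.univ, (σ.card.choose r : ℚ) * (-1 / 2) ^ (σ.card - r) := by
  have h1 : ∀ F ∈ (cl G Finset.univ).filter (fun F => F.card = r), lam G (lkF G Finset.univ F) =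
      ∑ σ ∈ cl G Finset.univ, if F ⊆ σ then (-1 / 2 : ℚ) ^ (σ.card - r) else 0 := by
    intro F hF
    obtain ⟨hF1, hF2⟩ := Finset.mem_filter.1 hF
    rw [← Finset.sum_filter, sum_sup hF1 (fun n => (-1 / 2 : ℚ) ^ (n - r)), lam, fe]
    refine Finset.sum_congr rfl fun ρ _ => ?_
    rw [hF2, Nat.add_sub_cancel]
  rw [Finset.sum_congr rfl h1, Finset.sum_comm]
  refine Finset.sum_congr rfl fun σ hσ => ?_
  rw [← Finset.sum_filter, Finset.sum_const, nsmul_eq_mul]
  congr 2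
  rw [← Finset.card_powersetCard]
  congr 1
  ext F
  rw [Finset.mem_filter, Finset.mem_filter, Finset.mem_powersetCard]
  constructor
  · rintro ⟨⟨_, h2⟩, h3⟩
    exact ⟨h3, h2⟩
  · rintro ⟨h3, h2⟩
    exact ⟨⟨Pool.Agent.W497.FS.cl_of_subset hσ h3, h2⟩, h3⟩

/-- the coefficients on the left -/
theorem coeff_left {d : ℕ} (hd : ∀ σ ∈ cl G Finset.univ, σ.card ≤ d) (r : ℕ) :
    (∑ j ∈ Finset.range (d + 1), C (numFaces G j : ℚ) * (C (1 / 2) * (X - C 1)) ^ j).coeff r =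
      (1 / 2) ^ r * ∑ F ∈ (cl G Finset.univ).filter (fun F => F.card = r),
        lam G (lkF G Finset.univ F) := by
  have h1 : ∑ j ∈ Finset.range (d + 1), C (numFaces G j : ℚ) * (C (1 / 2) * (X - C 1)) ^ j =
      ∑ σ ∈ cl G Finset.univ, (C (1 / 2) * (X - C 1) : ℚ[X]) ^ σ.card := by
    rw [← Finset.sum_fiberwise_of_maps_to (g := fun σ : Finset V => σ.card)
      (t := Finset.range (d + 1)) (fun σ hσ => Finset.mem_range.2 (Nat.lt_succ_of_le (hd σ hσ)))]
    refine Finset.sum_congr rfl fun j _ => ?_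
    rw [numFaces_eq, Finset.sum_congr rfl (g := fun _ => (C (1 / 2) * (X - C 1) : ℚ[X]) ^ j)
      (fun σ hσ => by rw [(Finset.mem_filter.1 hσ).2]), Finset.sum_const, nsmul_eq_mul, map_natCast]
  rw [h1, finsetSum_coeff, sum_lam, Finset.mul_sum]
  refine Finset.sum_congr rfl fun σ _ => ?_
  rw [mul_pow, ← C_pow, coeff_C_mul, coeff_pow_sub]
  by_cases h : r ≤ σ.card
  · obtain ⟨k, hk⟩ := Nat.exists_eq_add_of_le h
    rw [hk, Nat.add_sub_cancel_left, pow_add]
    have e1 : (-1 / 2 : ℚ) ^ k = (-1) ^ k * (1 / 2) ^ k := by rw [← mul_pow]; norm_num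
    rw [e1]
    ring
  · rw [Nat.choose_eq_zero_of_lt (by omega)]
    simp

/-- The Taylor coefficients at `1/4` of the gamma-polynomial are the sums of the Charney-Davis
quantities of the links. -/
theorem taylor {d : ℕ} (hd : ∀ σ ∈ cl G Finset.univ, σ.card ≤ d) {γ : ℕ → ℤ} (hγ : IsGam d G γ)
    (j : ℕ) (hj : 2 * j ≤ d) :
    ∑ F ∈ (cl G Finset.univ).filter (fun F => F.card = d - 2 * j),
      4 ^ j * ((-1) ^ j * lam G (lkF G Finset.univ F)) =
      ∑ i ∈ Finset.range (d / 2 + 1), (i.choose j : ℚ) * 2 ^ (d - 2 * i) * γ i := by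
  have h1 := congrArg (fun p : ℚ[X] => p.coeff (d - 2 * j)) (poly_gam hγ)
  simp only [coeff_left hd] at h1
  rw [finsetSum_coeff] at h1
  have h2 : ∀ i ∈ Finset.range (d / 2 + 1),
      ((C (γ i : ℚ) * (C (1 / 4) * (X ^ 2 - C 1)) ^ i * X ^ (d - 2 * i) : ℚ[X])).coeff (d - 2 * j) =
      (γ i : ℚ) * ((-1) ^ j * (1 / 4) ^ i * (i.choose j : ℚ)) := by
    intro i hi
    rw [Finset.mem_range] at hi
    rw [mul_assoc, coeff_C_mul, coeff_right d i j (by omega) hj]
  rw [Finset.sum_congr rfl h2] at h1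
  set L := ∑ F ∈ (cl G Finset.univ).filter (fun F => F.card = d - 2 * j),
    lam G (lkF G Finset.univ F) with hL
  have h3 : ∑ F ∈ (cl G Finset.univ).filter (fun F => F.card = d - 2 * j),
      4 ^ j * ((-1) ^ j * lam G (lkF G Finset.univ F)) =
      2 ^ d * (-1) ^ j * ((1 / 2) ^ (d - 2 * j) * L) := by
    rw [← Finset.mul_sum, ← Finset.mul_sum, ← hL]
    obtain ⟨k, hk⟩ := Nat.exists_eq_add_of_le hj
    rw [hk, Nat.add_sub_cancel_left, pow_add, pow_mul]
    have e1 : (2 : ℚ) ^ k * (1 / 2) ^ k = 1 := by rw [← mul_pow]; norm_num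
    have e2 : ((2 : ℚ) ^ 2) ^ j = 4 ^ j := by norm_num
    rw [e2]
    linear_combination (-((4 : ℚ) ^ j * (-1) ^ j * L)) * e1
  rw [h3, h1, Finset.mul_sum]
  refine Finset.sum_congr rfl fun i hi => ?_
  rw [Finset.mem_range] at hi
  obtain ⟨k, hk⟩ : ∃ k, d = 2 * i + k := ⟨d - 2 * i, by omega⟩
  rw [hk, Nat.add_sub_cancel_left, pow_add, pow_mul]
  have e1 : ((2 : ℚ) ^ 2) ^ i * (1 / 4) ^ i = 1 := by rw [← mul_pow]; norm_num
  have e2 : ((-1 : ℚ)) ^ j * (-1) ^ j = 1 := by rw [← mul_pow]; norm_num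
  linear_combination ((i.choose j : ℚ) * 2 ^ k * γ i * ((-1 : ℚ) ^ j * (-1) ^ j)) * e1 +
    ((i.choose j : ℚ) * 2 ^ k * γ i) * e2

end Pool.Agent.X250.Sph
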