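import Pool.Agent.X250.Sph.Bound

/-!
# Upper bounds for Betti numbers by the links of faces, II
-/

set_option autoImplicit false
set_option linter.unusedSectionVars false

namespace Pool.Agent.X250.Sph

open Module Pool.Agent.W907.SG Pool.Agent.W907.SM Pool.Agent.W397.SG Pool.Agent.W347.SGV
  Pool.Agent.W338.SG Pool.Agent.W461.SGN Pool.Agent.TH652.Above Pool.Agent.Y132.SI
open Pool.Agent.TH652.Dual (duality duality_sgn)

variable {V : Type} [Fintype V] [LinearOrder V] {G : SimpleGraph V}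

/-- from `W_G`-sets to subgroups -/
theorem Evt.sub {Q : ∀ (X : Type) [Fintype X], (V → X → X) → Prop} (h : Evt G Q) :
    ∃ E : Finset (W G), (1 : W G) ∉ E ∧ ∀ H : Subgroup (W G), H.FiniteIndex →
      (∀ g ∈ E, ∀ x : W G, x * g * x⁻¹ ∉ H) →
      ∃ fX : Fintype (Quotient (QuotientGroup.rightRel H)),
        @Fintype.card (Quotient (QuotientGroup.rightRel H)) fX = H.index ∧
        @Q (Quotient (QuotientGroup.rightRel H)) fX (aa G H) := by
  obtain ⟨E, h1, h2⟩ := h
  refine ⟨E, h1, fun H hfin hE => ?_⟩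
  have : Finite (Quotient (QuotientGroup.rightRel H)) :=
    Finite.of_equiv _ (QuotientGroup.quotientRightRelEquivQuotientLeftRel H).symm
  let fX : Fintype (Quotient (QuotientGroup.rightRel H)) := Fintype.ofFinite _
  refine ⟨fX, ?_, h2 _ (aa G H) ⟨aa_inv G H, fun u v h x => aa_comm G H u v h x, ev G H, ev_one G H,
    ev_mul G H, fun _ _ => rfl, fun g hg x => ev_free G H (fun y => hE g hg y) x⟩⟩
  rw [← Nat.card_eq_fintype_card, Nat.card_congr (QuotientGroup.quotientRightRelEquivQuotientLeftRel H)]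
  rfl

/-- there are sets with signs -/
theorem Evt.exists {Q : ∀ (X : Type) [Fintype X], (V → X → X) → Prop} (h : Evt G Q) :
    ∃ (X : Type) (_ : Fintype X) (_ : Nonempty X) (P : PSet 3 G X), Q X P.a := by
  obtain ⟨E, h1, h2⟩ := h
  have : Fact (Nat.Prime 3) := ⟨Nat.prime_three⟩
  obtain ⟨Y, fY, nY, P, ev, e1, e2, e3, e4⟩ := nilp 3 V G E (by decide) h1
  exact ⟨Y, fY, nY, P, h2 Y P.a ⟨P.inv, P.comm, ev, e1, e2, e3, e4⟩⟩

/-- the Charney-Davis quantity and the links of the edges -/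
theorem FaceP.edge {j : ℕ} (h : FaceP j 2 G) (hS : HSph (2 * j + 2) G) (D : Set V)
    (hD : LV (G.induce D) (j + 2)) :
    0 ≤ (-1 : ℚ) ^ (j + 1) * chiW G + 1 / 2 * ∑ T ∈ facesOff G 2 D, chiLk G j T := by
  classical
  by_contra hcon
  push Not at hcon
  obtain ⟨S, hSd⟩ : ∃ S : ℝ, S = ∑ T ∈ facesOff G 2 D, (chiLk G j T : ℝ) := ⟨_, rfl⟩
  obtain ⟨δ, hδ⟩ : ∃ δ : ℝ, δ = -((-1 : ℝ) ^ (j + 1) * (chiW G : ℝ) + 1 / 2 * S) := ⟨_, rfl⟩
  have hδ0 : 0 < δ := by
    have h1 : (((-1 : ℚ) ^ (j + 1) * chiW G + 1 / 2 * ∑ T ∈ facesOff G 2 D, chiLk G j T : ℚ) : ℝ) < 0 := by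
      exact_mod_cast hcon
    push_cast at h1
    rw [hδ, hSd]
    linarith
  obtain ⟨K, hK⟩ : ∃ K : ℕ, K = Fintype.card V + 1 := ⟨_, rfl⟩
  have hK0 : (0 : ℝ) < K := by rw [hK]; positivity
  have h1 := h.bound (k := 1) hS D hD (δ / 8) (by positivity)
  have h2 := Evt.forall (G := G) ((Finset.range K).filter (fun i => i < j ∨ j + 2 < i))
    (fun i X _ a => (beta G (pull ℝ a) Set.univ ∅ i : ℝ) ≤ δ / (8 * K) * Fintype.card X)
    (fun i hi => by
      have hL : L2Van G i := by
        have hab : ∀ i, j + 2 < i → L2Van G i := fun i hi =>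
          (lv_univ G i).1 (FaceP.above (k := 1) h Set.univ (by omega)) _ _
        rcases (Finset.mem_filter.1 hi).2 with h3 | h3
        · exact Pool.Agent.TH652.Dual.l2_duality (n := 2 * j + 2) hS (i := i) (j := 2 * j + 2 - i)
            (by omega) (hab _ (by omega))
        · exact hab i h3
      exact evt_small ((lv_univ G i).2 (LV_of hL)) _ (by positivity))
  obtain ⟨X, _, _, P, ⟨h3, h4⟩, hX, h5⟩ := ((h1.and h2).and (evt_sigma G)).exists
  have hXp : (0 : ℝ) < Fintype.card X := by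
    have := Fintype.card_pos (α := X)
    exact_mod_cast this
  obtain ⟨b, hb⟩ : ∃ b : ℕ → ℝ, b = fun i => (beta G (pull ℝ P.a) Set.univ ∅ i : ℝ) := ⟨_, rfl⟩
  have hb0 : ∀ i, 0 ≤ b i := by intro i; rw [hb]; exact Nat.cast_nonneg _
  have hbi : ∀ i, (beta G (pull ℝ P.a) Set.univ ∅ i : ℝ) = b i := by intro i; rw [hb]
  have heul := congrArg (fun q : ℚ => (q : ℝ)) (beta_sum' (two_ne_zero : (2 : ℝ) ≠ 0) G P.a P.inv P.comm
    (fun T t ht hc => h5 T t ht (by convert hc)))
  push_cast at heul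
  simp only [hbi] at h3 h4 heul
  rw [← hK] at heul
  have hdual : b j = b (j + 2) := by
    rw [← hbi, ← hbi]
    exact_mod_cast duality_sgn hS P.inv P.comm P.sgn_self P.sgn_other (by omega)
  obtain ⟨B, hB⟩ : ∃ B : ℝ, B = (1 / 4 * S + δ / 8) * Fintype.card X := ⟨_, rfl⟩
  have h3' : b (j + 2) ≤ B := by
    rw [hB]
    have h6 : (1 / 2 : ℝ) ^ (1 + 1) = 1 / 4 := by norm_num
    rw [h6, ← hSd] at h3
    exact h3
  have hB0 : 0 ≤ B := (hb0 _).trans h3'
  obtain ⟨s, hs⟩ : ∃ s : ℝ, s = δ / (8 * K) * Fintype.card X := ⟨_, rfl⟩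
  have hs0 : 0 ≤ s := by rw [hs]; positivity
  have h6 : ∀ i ∈ Finset.range K, -((if i = j then B else 0) + (if i = j + 2 then B else 0) + s) ≤
      (-1 : ℝ) ^ (j + 1) * ((-1 : ℝ) ^ i * b i) := by
    intro i hi
    have h7 : |(-1 : ℝ) ^ (j + 1) * ((-1 : ℝ) ^ i * b i)| = b i := by
      rw [abs_mul, abs_mul, abs_pow, abs_pow, abs_neg, abs_one, one_pow, one_pow, one_mul, one_mul,
        abs_of_nonneg (hb0 i)]
    have h8 : - b i ≤ (-1 : ℝ) ^ (j + 1) * ((-1 : ℝ) ^ i * b i) := by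
      have := neg_abs_le ((-1 : ℝ) ^ (j + 1) * ((-1 : ℝ) ^ i * b i))
      rwa [h7] at this
    by_cases e1 : i = j
    · subst e1
      rw [if_pos rfl, if_neg (by omega)]
      linarith [hdual, h3']
    · by_cases e2 : i = j + 2
      · subst e2
        rw [if_neg (by omega), if_pos rfl]
        linarith
      · by_cases e3 : i = j + 1
        · subst e3
          rw [if_neg e1, if_neg e2, ← mul_assoc, ← mul_pow]
          norm_num
          linarith [hb0 (j + 1)]
        · rw [if_neg e1, if_neg e2]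
          have h9 := h4 i (Finset.mem_filter.2 ⟨hi, by omega⟩)
          rw [← hs] at h9
          linarith
  have h7 := Finset.sum_le_sum h6
  rw [← Finset.mul_sum, heul, Finset.sum_neg_distrib, Finset.sum_add_distrib, Finset.sum_add_distrib,
    Finset.sum_const, Finset.card_range, nsmul_eq_mul] at h7
  have h8 : ∀ t : ℕ, ∑ i ∈ Finset.range K, (if i = t then B else 0) ≤ B := by
    intro t
    rw [Finset.sum_ite_eq']
    split_ifs
    · exact le_rfl
    · exact hB0
  have h9 := h8 j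
  have h10 := h8 (j + 2)
  have h11 : (K : ℝ) * s = δ / 8 * Fintype.card X := by
    rw [hs]
    field_simp
  have h12 : (-1 : ℝ) ^ (j + 1) * (chiW G : ℝ) = -δ - 1 / 2 * S := by
    rw [hδ]; ring
  have h13 : (-1 : ℝ) ^ (j + 1) * ((Fintype.card X : ℝ) * (chiW G : ℝ)) =
      (-δ - 1 / 2 * S) * Fintype.card X := by
    rw [← h12]; ring
  rw [h13, h11] at h7
  have h14 : B = 1 / 4 * (S * Fintype.card X) + 1 / 8 * (δ * Fintype.card X) := by
    rw [hB]; ring
  have h15 : (-δ - 1 / 2 * S) * Fintype.card X = -(δ * Fintype.card X) - 1 / 2 * (S * Fintype.card X) := by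
    ring
  have h16 : δ / 8 * (Fintype.card X : ℝ) = 1 / 8 * (δ * Fintype.card X) := by ring
  rw [h15, h16] at h7
  linarith [mul_pos hδ0 hXp]

/-! ### duality for the subgroups whose elements have even length -/

/-- the sign of an element -/
noncomputable def lsg (G : SimpleGraph V) (w : W G) : ℝ := (-1) ^ (cox G).toCoxeterSystem.length w

theorem lsg_mul (g h : W G) : lsg G (g * h) = lsg G g * lsg G h := by
  have h1 := (cox G).toCoxeterSystem.length_mul_mod_two g h
  unfold lsg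
  rw [← pow_add]
  refine neg_one_pow_congr ?_
  rw [Nat.even_iff, Nat.even_iff, h1]

theorem lsg_simple (v : V) : lsg G ((cox G).simple v) = -1 := by
  have h1 := (cox G).toCoxeterSystem.length_simple v
  unfold lsg
  have h2 : (cox G).simple v = (cox G).toCoxeterSystem.simple v := rfl
  rw [h2, h1, pow_one]

theorem lsg_sq (g : W G) : lsg G g * lsg G g = 1 := by
  unfold lsg
  rw [← mul_pow]
  norm_num

/-- multiplication by a sign -/
noncomputable def twt {X : Type} (t : X → ℝ) (ht : ∀ x, t x * t x = 1) : (X → ℝ) ≃ₗ[ℝ] (X → ℝ) where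
  toFun f x := t x * f x
  invFun f x := t x * f x
  map_add' f g := by
    funext x
    rw [Pi.add_apply, Pi.add_apply, mul_add]
  map_smul' r f := by
    funext x
    simp only [Pi.smul_apply, smul_eq_mul, RingHom.id_apply]
    ring
  left_inv f := by
    funext x
    show t x * (t x * f x) = f x
    rw [← mul_assoc, ht, one_mul]
  right_inv f := by
    funext x
    show t x * (t x * f x) = f x
    rw [← mul_assoc, ht, one_mul]

theorem duality_even {n : ℕ} (hS : HSph n G) (H : Subgroup (W G)) (hf : H.FiniteIndex)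
    (hH : ∀ h ∈ H, Even ((cox G).toCoxeterSystem.length h)) {i j : ℕ} (hij : i + j = n) :
    finrank ℝ (HInv G H i) = finrank ℝ (HInv G H j) := by
  have : Finite (Quotient (QuotientGroup.rightRel H)) :=
    Finite.of_equiv _ (QuotientGroup.quotientRightRelEquivQuotientLeftRel H).symm
  let fX : Fintype (Quotient (QuotientGroup.rightRel H)) := Fintype.ofFinite _
  rw [finrank_HInv, finrank_HInv]
  obtain ⟨t, ht⟩ : ∃ t : Quotient (QuotientGroup.rightRel H) → ℝ, ∀ w : W G, t (Quotient.mk'' w) = lsg G w :=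
    ⟨fun x => Quotient.liftOn' x (lsg G) (fun a b hab => by
      rw [QuotientGroup.rightRel_apply] at hab
      have h1 : lsg G (b * a⁻¹) = 1 := (hH _ hab).neg_one_pow
      have h2 : b = b * a⁻¹ * a := by rw [inv_mul_cancel_right]
      rw [h2, lsg_mul (b * a⁻¹) a, h1, one_mul]), fun w => rfl⟩
  have ht2 : ∀ x, t x * t x = 1 := by
    intro x
    induction x using Quotient.inductionOn' with
    | h w => rw [ht, lsg_sq]
  have hta : ∀ v x, t (aa G H v x) = - t x := by
    intro v x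
    induction x using Quotient.inductionOn' with
    | h w => rw [aa_mk, ht, ht, lsg_mul, lsg_simple, mul_neg_one]
  have htw : ∀ i, beta G (fun v => - pull ℝ (aa G H) v) Set.univ ∅ i = beta G (pull ℝ (aa G H)) Set.univ ∅ i := by
    intro i
    refine beta_iso (e := twt t ht2) ?_ G Set.univ ∅ i
    intro v m
    funext x
    show t x * (pull ℝ (aa G H) v m) x = - (pull ℝ (aa G H) v (twt t ht2 m)) x
    rw [pull_apply, pull_apply]
    show t x * m (aa G H v x) = -(t (aa G H v x) * m (aa G H v x))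
    rw [hta]
    ring
  refine le_antisymm ?_ ?_
  · rw [← htw j]
    exact duality (aa_inv G H) (fun u v h x => aa_comm G H u v h x) hS hij
  · rw [← htw i]
    exact duality (aa_inv G H) (fun u v h x => aa_comm G H u v h x) hS (by omega)

/-! ### the growth of the Betti numbers -/

/-- a uniform version for all degrees -/
theorem FaceP.growth {j k : ℕ} (h : FaceP j (k + 1) G) (hS : HSph (2 * j + (k + 1)) G) (D : Set V)
    (hD : LV (G.induce D) (j + (k + 1))) (ε : ℝ) (hε : 0 < ε) :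
    ∃ E : Finset (W G), (1 : W G) ∉ E ∧ ∀ H : Subgroup (W G), H.FiniteIndex →
      (∀ g ∈ E, ∀ x : W G, x * g * x⁻¹ ∉ H) →
        (∀ i, i < j ∨ j + (k + 1) < i → (finrank ℝ (HInv G H i) : ℝ) ≤ ε * H.index) ∧
        ((finrank ℝ (HInv G H (j + (k + 1))) : ℝ) ≤
          ((1 / 2) ^ (k + 1) * (∑ T ∈ facesOff G (k + 1) D, (chiLk G j T : ℝ)) + ε) * H.index) ∧
        ((∀ h ∈ H, Even ((cox G).toCoxeterSystem.length h)) →
          finrank ℝ (HInv G H j) = finrank ℝ (HInv G H (j + (k + 1)))) := by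
  classical
  obtain ⟨K, hK⟩ : ∃ K : ℕ, K = Fintype.card V + 1 := ⟨_, rfl⟩
  have h1 := h.bound hS D hD ε hε
  have hab : ∀ i, j + (k + 1) < i → L2Van G i := fun i hi =>
    (lv_univ G i).1 (FaceP.above h Set.univ (by omega)) _ _
  have h2 := Evt.forall (G := G) ((Finset.range K).filter (fun i => i < j ∨ j + (k + 1) < i))
    (fun i X _ a => (beta G (pull ℝ a) Set.univ ∅ i : ℝ) ≤ ε * Fintype.card X)
    (fun i hi => by
      have hL : L2Van G i := by
        rcases (Finset.mem_filter.1 hi).2 with h3 | h3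
        · exact Pool.Agent.TH652.Dual.l2_duality (n := 2 * j + (k + 1)) hS (i := i)
            (j := 2 * j + (k + 1) - i) (by omega) (hab _ (by omega))
        · exact hab i h3
      exact evt_small ((lv_univ G i).2 (LV_of hL)) _ hε)
  obtain ⟨E, h3, h4⟩ := (h1.and h2).sub
  refine ⟨E, h3, fun H hfin hE => ?_⟩
  obtain ⟨fX, h5, h6, h7⟩ := h4 H hfin hE
  rw [h5] at h6 h7
  refine ⟨fun i hi => ?_, ?_, fun heven => duality_even hS H hfin heven (by omega)⟩
  · rw [finrank_HInv]
    by_cases hiK : i < K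
    · exact h7 i (Finset.mem_filter.2 ⟨Finset.mem_range.2 hiK, hi⟩)
    · rw [beta_big G _ Set.univ ∅ (by omega), Nat.cast_zero]
      positivity
  · rw [finrank_HInv]
    exact h6

/-- vanishing in the degrees `j` and `j + k` -/
theorem FaceP.vanish {j k : ℕ} (h : FaceP j (k + 1) G) (hS : HSph (2 * j + (k + 1)) G) (D : Set V)
    (hD : LV (G.induce D) (j + (k + 1))) (h0 : ∀ T ∈ facesOff G (k + 1) D, chiLk G j T = 0) :
    L2Van G j ∧ L2Van G (j + (k + 1)) := by
  classical
  have h1 : LV (G.induce (Set.univ ∪ D)) (j + (k + 1)) := by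
    refine h.crit D hD (fun T hT hk hTD => ?_) Set.univ
    have h2 := h0 T (Finset.mem_filter.2 ⟨Finset.mem_univ _, hT, hk, hTD⟩)
    have h3 : chiW (G.induce (lk G T)) = 0 := by
      unfold chiLk at h2
      rcases mul_eq_zero.1 h2 with h4 | h4
      · exact absurd h4 (pow_ne_zero _ (by norm_num))
      · exact h4
    have h4 : HSph (2 * j) (G.induce (lk G T)) := hSph_congr (by omega) (hSph_lk hS T hT)
    exact LV_of ((gap_of h4 fun i hi => h.singer hS hT hk hi _ _).2.1.2 h3 j)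
  have h2 : L2Van G (j + (k + 1)) := (lv_univ G _).1 (lv_set (by simp) h1) _ _
  exact ⟨Pool.Agent.TH652.Dual.l2_duality (n := 2 * j + (k + 1)) hS (i := j) (j := j + (k + 1)) (by omega) h2, h2⟩

/-- the vanishing outside the interval `[j, j + k]` -/
theorem FaceP.outside {j k : ℕ} (h : FaceP j (k + 1) G) (hS : HSph (2 * j + (k + 1)) G) {i : ℕ}
    (hi : i < j ∨ j + (k + 1) < i) : L2Van G i := by
  have hab : ∀ i, j + (k + 1) < i → L2Van G i := fun i hi =>
    (lv_univ G i).1 (FaceP.above h Set.univ (by omega)) _ _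
  rcases hi with h3 | h3
  · by_cases h4 : i ≤ 2 * j + (k + 1)
    · exact Pool.Agent.TH652.Dual.l2_duality (n := 2 * j + (k + 1)) hS (i := i)
        (j := 2 * j + (k + 1) - i) (by omega) (hab _ (by omega))
    · omega
  · exact hab i h3

theorem lv_small {D : Set V} {i : ℕ} (hD : ∀ T : Finset V, G.IsClique (T : Set V) → (T : Set V) ⊆ D → T.card < i) :
    LV (G.induce D) i := by
  intro _ _ c hc
  funext w T
  refine hc.supp w T ?_
  rintro ⟨h1, h2⟩
  have h3 := hD (T.map ⟨Subtype.val, Subtype.val_injective⟩) (by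
    intro a ha b hb hab
    rw [Finset.mem_coe, Finset.mem_map] at ha hb
    obtain ⟨x, hx, rfl⟩ := ha
    obtain ⟨y, hy, rfl⟩ := hb
    exact h1 hx hy fun e => hab (by rw [e])) (by
    intro a ha
    rw [Finset.mem_coe, Finset.mem_map] at ha
    obtain ⟨x, _, rfl⟩ := ha
    exact x.2)
  rw [Finset.card_map] at h3
  omega

/-- the sum in terms of the gamma-vector -/
theorem sum_gamma {j k : ℕ} (hS : HSph (2 * j + (k + 1)) G) {γ : ℕ → ℤ} (hγ : IsGam (2 * j + (k + 1)) G γ) :
    (1 / 2) ^ (k + 1) * ∑ T ∈ facesOff G (k + 1) ∅, chiLk G j T =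
      ∑ i ∈ Finset.range ((2 * j + (k + 1)) / 2 + 1), (i.choose j : ℚ) * γ i / 4 ^ i := by
  classical
  have h1 := taylor (fun σ hσ => card_le_of_hSph hS σ (Pool.Agent.X250.Sph.mem_cl_univ.1 hσ)) hγ j (by omega)
  have h2 : (Pool.Agent.W497.FS.cl G Finset.univ).filter (fun F => F.card = 2 * j + (k + 1) - 2 * j) =
      facesOff G (k + 1) ∅ := by
    unfold facesOff
    ext T
    rw [Finset.mem_filter, Finset.mem_filter, mem_cl_univ, Nat.add_sub_cancel_left]
    constructor
    · rintro ⟨h3, h4⟩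
      refine ⟨Finset.mem_univ _, h3, h4, fun h5 => ?_⟩
      have h6 : T = ∅ := by
        rw [← Finset.coe_eq_empty]
        exact Set.subset_empty_iff.1 h5
      rw [h6, Finset.card_empty] at h4
      omega
    · rintro ⟨_, h3, h4, _⟩
      exact ⟨h3, h4⟩
  rw [h2] at h1
  have h3 : ∑ T ∈ facesOff G (k + 1) ∅, 4 ^ j * ((-1 : ℚ) ^ j * Pool.Agent.W497.FS.lam G
      (Pool.Agent.W497.FS.lkF G Finset.univ T)) = 4 ^ j * ∑ T ∈ facesOff G (k + 1) ∅, chiLk G j T := by
    rw [Finset.mul_sum]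
    refine Finset.sum_congr rfl fun T _ => ?_
    rw [lam_lk]
    unfold chiLk
    rfl
  rw [h3] at h1
  have h4 : ∑ T ∈ facesOff G (k + 1) ∅, chiLk G j T = (1 / 4) ^ j *
      ∑ i ∈ Finset.range ((2 * j + (k + 1)) / 2 + 1),
        (i.choose j : ℚ) * 2 ^ (2 * j + (k + 1) - 2 * i) * γ i := by
    rw [← h1, ← mul_assoc, ← mul_pow]
    norm_num
  rw [h4, ← mul_assoc, Finset.mul_sum]
  refine Finset.sum_congr rfl fun i hi => ?_
  rw [Finset.mem_range] at hi
  obtain ⟨r, hr⟩ : ∃ r, 2 * j + (k + 1) = 2 * i + r := ⟨2 * j + (k + 1) - 2 * i, by omega⟩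
  have e1 : (1 / 2 : ℚ) ^ (k + 1) * (1 / 4) ^ j = (1 / 4) ^ i * (1 / 2) ^ r := by
    have e2 : (1 / 4 : ℚ) = (1 / 2) ^ 2 := by norm_num
    rw [e2, ← pow_mul, ← pow_mul, ← pow_add, ← pow_add]
    congr 1
    omega
  rw [hr, Nat.add_sub_cancel_left, e1]
  have e3 : (1 / 2 : ℚ) ^ r * 2 ^ r = 1 := by rw [← mul_pow]; norm_num
  have e4 : (1 / 4 : ℚ) ^ i = 1 / 4 ^ i := by rw [div_pow, one_pow]
  rw [e4]
  have e5 : (1 / 4 ^ i : ℚ) * (1 / 2) ^ r * ((i.choose j : ℚ) * 2 ^ r * γ i) =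
      ((i.choose j : ℚ) * γ i / 4 ^ i) * ((1 / 2) ^ r * 2 ^ r) := by ring
  rw [e5, e3, mul_one]

end Pool.Agent.X250.Sph
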