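import Pool.Agent.X250.Sph.Edge

/-!
# The Charney-Davis inequality for the links of larger faces
-/

set_option autoImplicit false
set_option linter.unusedSectionVars false

namespace Pool.Agent.X250.Sph

open Module Pool.Agent.W907.SG Pool.Agent.W907.SM Pool.Agent.TH652.Above

variable {V : Type} [Fintype V] [LinearOrder V] {G : SimpleGraph V}

/-- the links of the faces with at least `k` vertices -/
theorem FaceP.cd {j k : ℕ} (h : FaceP j k G) (hS : HSph (2 * j + k) G) {T : Finset V}
    (hT : G.IsClique (T : Set V)) (hk : k ≤ T.card) {i : ℕ} (hi : 2 * i + T.card = 2 * j + k) :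
    0 ≤ chiLk G i T := by
  classical
  obtain ⟨e, he, hek⟩ := Finset.exists_subset_card_eq hk
  have hec : G.IsClique (e : Set V) := hT.subset (by exact_mod_cast he)
  have h6 : ((T \ e : Finset V) : Set V) ⊆ lk G e := by
    intro x hx y hy
    rw [Finset.mem_coe, Finset.mem_sdiff] at hx
    refine hT (Finset.mem_coe.2 hx.1) (Finset.mem_coe.2 (he hy)) ?_
    rintro rfl
    exact hx.2 hy
  have h7 : (cut (lk G e) (T \ e)).map (incl (lk G e)) = T \ e := map_cut _ h6
  have h8 : e ∪ (cut (lk G e) (T \ e)).map (incl (lk G e)) = T := by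
    rw [h7, Finset.union_sdiff_of_subset he]
  have h9 : (cut (lk G e) (T \ e)).card = T.card - k := by
    rw [← Finset.card_map (incl (lk G e)), h7, Finset.card_sdiff_of_subset he, hek]
  have h10 : (G.induce (lk G e)).IsClique ((cut (lk G e) (T \ e) : Finset _) : Set ↥(lk G e)) := by
    rw [clique_map, h7]
    exact hT.subset (by
      intro x hx
      rw [Finset.mem_coe, Finset.mem_sdiff] at hx
      exact hx.1)
  have hS' : HSph (2 * j) (G.induce (lk G e)) := hSph_congr (by omega) (hSph_lk hS e hec)
  have h11 := cd_lk hS' (h e hec hek) _ h10 i (by rw [h9]; omega)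
  have h12 := chiLk_lk e i (cut (lk G e) (T \ e)) (G := G)
  rw [h8] at h12
  rw [← h12]
  exact h11

end Pool.Agent.X250.Sph
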