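import Pool.Agent.X250.Sph.ClassYDef
import Pool.Agent.X250.Sph.Bound2

/-!
# Vanishing above the middle for the class `AY`
-/

set_option autoImplicit false
set_option linter.unusedSectionVars false

namespace Pool.Agent.X250.Sph

open Module Pool.Agent.W907.SG Pool.Agent.W907.SM Pool.Agent.TH652.Above Pool.Agent.Y132.SI

/-- the subcomplexes of a full subcomplex -/
theorem Q_sub {V : Type} {G : SimpleGraph V} {k : ℕ} {B : Set V} (h : Q k (G.induce B)) {D : Set V} (hD : D ⊆ B)
    {i : ℕ} (hi : k < 2 * i) : LV (G.induce D) i := by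
  have h4 := h.2 {x | x.1 ∈ D} i hi
  rw [lv_sub] at h4
  refine lv_set ?_ h4
  ext x
  simp only [Set.mem_image, Set.mem_ofPred_eq, Subtype.exists, exists_and_left,
    exists_prop, exists_eq_right_right]
  exact ⟨fun hx => ⟨hx, hD hx⟩, fun hx => hx.1⟩

/-- the drop rule -/
theorem Q_drop {m : ℕ} {V : Type} [Fintype V] [LinearOrder V] (G : SimpleGraph V) (h0 : L2Van G (m + 1))
    (h : ∀ v, Q (2 * m + 1) (G.induce (G.neighborSet v))) : Q (2 * m + 1) G := by
  have h1 : Q (2 * m + 2) G := Q_loc G ∅ (fun T _ hT => by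
    have : T = ∅ := by
      rw [← Finset.coe_eq_empty]
      exact Set.subset_empty_iff.1 hT
    rw [this, Finset.card_empty]
    omega) (fun v _ => h v)
  refine ⟨inferInstance, fun A i hi => ?_⟩
  by_cases hi2 : 2 * m + 2 < 2 * i
  · exact h1.2 A i hi2
  · have h2 : i = m + 1 := by omega
    subst h2
    refine lv_mono (Set.subset_univ A) ((lv_univ G _).2 (LV_of h0)) fun v _ C _ => ?_
    exact Q_sub (h v) Set.inter_subset_right (by omega)

/-- the drop rule for homology spheres -/
theorem Q_drop_sphere {m : ℕ} {V : Type} [Fintype V] [LinearOrder V] (G : SimpleGraph V) (hS : HSph (2 * m + 2) G)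
    (h0 : chiW G = 0) (h : ∀ v, Q (2 * m + 1) (G.induce (G.neighborSet v))) : Q (2 * m + 1) G := by
  have h1 : Q (2 * m + 2) G := Q_loc G ∅ (fun T _ hT => by
    have : T = ∅ := by
      rw [← Finset.coe_eq_empty]
      exact Set.subset_empty_iff.1 hT
    rw [this, Finset.card_empty]
    omega) (fun v _ => h v)
  refine Q_drop G ?_ h
  have h2 : ∀ i, i ≠ m + 1 → L2Van G i := fun i hi => singer_of_above (n := 2 * m + 2) hS
    (fun i hi => (lv_univ G i).1 (h1.2 Set.univ i hi) _ _) i (by omega)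
  exact l2eul V G (m + 1) h2 |>.2 h0 (m + 1)

theorem Q_of_AY {n : ℕ} {V : Type} {G : SimpleGraph V} (h : AY n G) : Q n G := by
  induction h with
  | aq G h => exact Q_of_AQ h
  | drop G hS h0 _ ih => exact Q_drop_sphere G hS h0 ih
  | drop' G h0 _ ih => exact Q_drop G h0 ih
  | full G A _ ih => exact Q_emb G _ (SimpleGraph.Embedding.induce A) ih
  | join G H _ _ ih1 ih2 => exact Q_join G H ih1 ih2
  | succ G _ ih => exact ⟨ih.1, fun A i hi => ih.2 A i (by omega)⟩
  | pred G _ ih => exact ⟨ih.1, fun A i hi => ih.2 A i (by omega)⟩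
  | del G s t hst _ _ ih1 ih2 => exact Q_del G s t hst ih1 ih2
  | loc G B hB _ ih => exact Q_loc G B hB ih
  | vert G v _ _ ih1 ih2 => exact Q_vert G v ih1 ih2
  | glue G A B hAB hno _ _ _ ih1 ih2 ih3 => exact Q_glue G A B hAB hno ih1 ih2 ih3
  | iso G H e _ ih => exact Q_emb G H e.some.symm.toEmbedding ih

theorem above_AY {n : ℕ} {V : Type} [Fintype V] [LinearOrder V] {G : SimpleGraph V} (h : AY n G) (i : ℕ)
    (hi : n < 2 * i) : L2Van G i :=
  (lv_univ G i).1 ((Q_of_AY h).2 Set.univ i hi) _ _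

theorem singer_AY {n : ℕ} {V : Type} [Fintype V] [LinearOrder V] {G : SimpleGraph V} (hS : HSph n G)
    (h : AY n G) (i : ℕ) (hi : 2 * i ≠ n) : L2Van G i :=
  singer_of_above hS (fun i hi => above_AY h i hi) i hi

end Pool.Agent.X250.Sph
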