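import Pool.Agent.TH652.QDef

/-!
# The class `AY n` of finite graphs
-/

set_option autoImplicit false

namespace Pool.Agent.X250.Sph

open Pool.Agent.W907.SG Pool.Agent.W907.SM Pool.Agent.TH652.Above
open Pool.Agent.TH652.Join (join)

/-- a class of finite graphs, wider than `AQ` -/
inductive AY : ℕ → ∀ {V : Type}, SimpleGraph V → Prop
  /-- the members of the class `AQ n` -/
  | aq {n : ℕ} {V : Type} (G : SimpleGraph V) : AQ n G → AY n G
  /-- from `2 m + 2` to `2 m + 1`: the flag complex of `G` is a real homology sphere of dimension `2 m + 1`, the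
  Euler characteristic of `W G` is zero, and the links of all vertices are in the class `2 m + 1` -/
  | drop {m : ℕ} {V : Type} [Fintype V] [LinearOrder V] (G : SimpleGraph V) : HSph (2 * m + 2) G → chiW G = 0 →
      (∀ v, AY (2 * m + 1) (G.induce (G.neighborSet v))) → AY (2 * m + 1) G
  /-- from `2 m + 2` to `2 m + 1`: the `(m + 1)`-st reduced `ℓ²`-homology of the Davis complex of `W G` vanishes,
  and the links of all vertices are in the class `2 m + 1` -/
  | drop' {m : ℕ} {V : Type} [Fintype V] [LinearOrder V] (G : SimpleGraph V) : L2Van G (m + 1) →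
      (∀ v, AY (2 * m + 1) (G.induce (G.neighborSet v))) → AY (2 * m + 1) G
  /-- full subcomplexes -/
  | full {n : ℕ} {V : Type} (G : SimpleGraph V) (A : Set V) : AY n G → AY n (G.induce A)
  /-- joins -/
  | join {m n : ℕ} {V U : Type} (G : SimpleGraph V) (H : SimpleGraph U) : AY m G → AY n H → AY (m + n) (join G H)
  /-- from `n` to `n + 1` -/
  | succ {n : ℕ} {V : Type} (G : SimpleGraph V) : AY n G → AY (n + 1) G
  /-- from `2 m + 1` to `2 m` -/
  | pred {m : ℕ} {V : Type} (G : SimpleGraph V) : AY (2 * m + 1) G → AY (2 * m) G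
  /-- deleting an edge whose link is in the class `n` -/
  | del {n : ℕ} {V : Type} [Finite V] (G : SimpleGraph V) (s t : V) : G.Adj s t → AY (n + 2) G →
      AY n (G.induce (G.neighborSet s ∩ G.neighborSet t)) → AY (n + 2) (G.deleteEdges {s(s, t)})
  /-- even length: the vertices whose links are not in the class `2 m + 1` span a subcomplex of dimension at
  most `m` -/
  | loc {m : ℕ} {V : Type} [Finite V] (G : SimpleGraph V) (B : Set V) :
      (∀ T : Finset V, G.IsClique (T : Set V) → (T : Set V) ⊆ B → T.card ≤ m + 1) →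
      (∀ v, v ∉ B → AY (2 * m + 1) (G.induce (G.neighborSet v))) → AY (2 * m + 2) G
  /-- adding a vertex whose link is in the class `n` -/
  | vert {n : ℕ} {V : Type} [Finite V] (G : SimpleGraph V) (v : V) : AY (n + 2) (G.induce {v}ᶜ) →
      AY n (G.induce (G.neighborSet v)) → AY (n + 2) G
  /-- gluing along a full subcomplex of the class `n` -/
  | glue {n : ℕ} {V : Type} [Finite V] (G : SimpleGraph V) (A B : Set V) : A ∪ B = Set.univ →
      (∀ a ∈ A, a ∉ B → ∀ b ∈ B, b ∉ A → ¬ G.Adj a b) → AY (n + 2) (G.induce A) → AY (n + 2) (G.induce B) →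
      AY n (G.induce (A ∩ B)) → AY (n + 2) G
  /-- isomorphic graphs -/
  | iso {n : ℕ} {V U : Type} (G : SimpleGraph V) (H : SimpleGraph U) : Nonempty (G ≃g H) → AY n G → AY n H

end Pool.Agent.X250.Sph
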