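import Pool.Agent.X250.Sph.MorseS
import Pool.Agent.X250.Sph.OneDeg

/-!
# Homology spheres of dimension at most one
-/

set_option autoImplicit false
set_option linter.unusedSectionVars false

namespace Pool.Agent.X250.Sph

open Module Pool.Agent.W907.SG Pool.Agent.W907.SM Pool.Agent.TH652.Above Pool.Agent.Y132.SI
open Pool.Agent.TH652.Dual (triv)

section

variable {V : Type} [Fintype V] [LinearOrder V] {G : SimpleGraph V}

theorem beta_empty_ne : beta G (triv V) (∅ : Set V) ∅ 0 ≠ 0 := by
  classical
  intro h0
  have hK : ∀ i, 0 < i → KK G (triv V) (∅ : Set V) ∅ i = ⊥ := by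
    intro i hi
    rw [eq_bot_iff]
    intro c hc
    rw [Submodule.mem_bot]
    funext S
    refine hc.1 S ?_
    rintro ⟨-, h2, h3⟩
    have : S = ∅ := by
      rw [← Finset.coe_eq_empty]
      exact Set.subset_empty_iff.1 h2
    rw [this, Finset.card_empty] at h3
    omega
  have hB : BB G (triv V) (∅ : Set V) ∅ 0 = ⊥ := by
    unfold BB
    rw [hK 1 one_pos, Submodule.map_bot]
  unfold beta at h0
  rw [hB, finrank_bot, Nat.sub_zero] at h0
  have hfin : FiniteDimensional ℝ (ZZ G (triv V) (∅ : Set V) ∅ 0) := inferInstance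
  have h1 : ZZ G (triv V) (∅ : Set V) ∅ 0 = ⊥ := Submodule.finrank_eq_zero.1 h0
  have hc : (fun S : Finset V => if S = ∅ then (1 : ℝ) else 0) ∈ ZZ G (triv V) (∅ : Set V) ∅ 0 := by
    refine ⟨⟨?_, ?_⟩, ?_⟩
    · intro S hS
      refine if_neg ?_
      rintro rfl
      exact hS ⟨by simp, by simp, rfl⟩
    · intro S t _
      rfl
    · rw [SetLike.mem_coe, LinearMap.mem_ker]
      funext S
      rw [bd_apply]
      refine Finset.sum_eq_zero fun v _ => ?_
      rw [if_neg (Finset.insert_ne_empty v S), smul_zero]
  rw [h1, Submodule.mem_bot] at hc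
  have := congrFun hc ∅
  simp at this

theorem beta_point (v : V) : beta G (triv V) {v} ∅ 1 = 0 := by
  classical
  have h1 : ZZ G (triv V) {v} ∅ 1 = ⊥ := by
    rw [eq_bot_iff]
    rintro c ⟨⟨hc, _⟩, hc2⟩
    rw [Submodule.mem_bot]
    have h2 : bd ℝ c = 0 := hc2
    have h3 := congrFun h2 ∅
    rw [bd_apply, Pi.zero_apply, Finset.sum_eq_single v] at h3
    · funext T
      by_cases hT : T = {v}
      · have h4 : sg v ∅ = 1 := by simp [sg]
        rw [h4, one_smul] at h3
        rw [hT]
        exact h3
      · refine hc T ?_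
        rintro ⟨_, h4, h5⟩
        obtain ⟨u, rfl⟩ := Finset.card_eq_one.1 h5
        rw [Finset.coe_singleton, Set.singleton_subset_iff, Set.mem_singleton_iff] at h4
        exact hT (by rw [h4])
    · intro u _ hu
      rw [hc (insert u ∅), smul_zero]
      rintro ⟨_, h4, _⟩
      exact hu (h4 (by simp))
    · intro h
      simp at h
  unfold beta
  rw [h1, finrank_bot, Nat.zero_sub]

/-- a homology sphere of nonnegative dimension is not a simplex -/
theorem exists_nonadj {n : ℕ} (hS : HSph (n + 1) G) : ∃ s t : V, s ≠ t ∧ ¬ G.Adj s t := by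
  classical
  by_contra hcon
  push Not at hcon
  have hcl : ∀ T : Finset V, G.IsClique (T : Set V) := fun T s _ t _ h => hcon s t h
  have h1 : (Finset.univ : Finset V).card = n + 1 := by
    by_contra h2
    have h3 := hS Finset.univ (hcl _) 0
    rw [if_neg (by omega)] at h3
    have h4 : lk G (Finset.univ : Finset V) = ∅ := by
      rw [Set.eq_empty_iff_forall_notMem]
      intro v hv
      exact G.irrefl (hv v (Finset.mem_univ v))
    rw [h4] at h3
    exact beta_empty_ne h3
  obtain ⟨v, hv⟩ : (Finset.univ : Finset V).Nonempty := by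
    rw [← Finset.card_pos]; omega
  have h2 := hS (Finset.univ.erase v) (hcl _) 1
  rw [Finset.card_erase_of_mem hv, h1, if_pos (by omega)] at h2
  have h3 : lk G (Finset.univ.erase v) = {v} := by
    ext u
    rw [Set.mem_singleton_iff]
    constructor
    · intro hu
      by_contra h4
      exact G.irrefl (hu u (Finset.mem_erase.2 ⟨h4, Finset.mem_univ u⟩))
    · rintro rfl t ht
      exact hcon u t (Finset.ne_of_mem_erase ht).symm
  rw [h3] at h2
  have h4 := beta_point (G := G) v
  exact absurd (h2.symm.trans h4) one_ne_zero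

/-- the degree zero -/
theorem l2van_zero {n : ℕ} (hS : HSph (n + 1) G) : L2Van G 0 := by
  obtain ⟨s, t, hst, hadj⟩ := exists_nonadj hS
  exact (lv_univ G 0).1 (lv_zero_pair (A := Set.univ) (Set.mem_univ s) (Set.mem_univ t) hst hadj) _ _

/-- the vanishing above the middle for the full subcomplexes of homology spheres of dimension at most one -/
theorem above_small {n : ℕ} (hn : n ≤ 2) (hS : HSph n G) (A : Set V) (i : ℕ) (hi : n < 2 * i) :
    LV (G.induce A) i := by
  classical
  rcases Nat.eq_zero_or_pos n with rfl | hn0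
  · have h1 : A = ∅ := by
      rw [Set.eq_empty_iff_forall_notMem]
      intro x _
      have := card_le_of_hSph hS {x} (by simp)
      rw [Finset.card_singleton] at this
      omega
    rw [h1]
    exact lv_none i (by omega)
  · have h1 : ∀ T : Finset V, G.IsClique (T : Set V) → T.Nonempty → LV (G.induce (lk G T)) n := by
      intro T hT hne
      refine lv_small fun T' hT' hT'2 => ?_
      have hdisj : Disjoint T T' := by
        rw [Finset.disjoint_left]
        intro t ht ht'
        exact G.irrefl (hT'2 ht' t ht)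
      have hcl : G.IsClique ((T ∪ T' : Finset V) : Set V) := by
        intro x hx y hy hxy
        rw [Finset.coe_union] at hx hy
        rcases hx with hx | hx <;> rcases hy with hy | hy
        · exact hT hx hy hxy
        · exact (hT'2 hy x hx).symm
        · exact hT'2 hx y hy
        · exact hT' hx hy hxy
      have h2 := card_le_of_hSph hS (T ∪ T') hcl
      rw [Finset.card_union_of_disjoint hdisj] at h2
      have h3 := Finset.card_pos.2 hne
      omega
    obtain ⟨m, rfl⟩ : ∃ m, n = m + 1 := ⟨n - 1, by omega⟩
    have h2 : L2Van G (m + 1) := Pool.Agent.TH652.Dual.l2_duality (n := m + 1) hS (i := m + 1) (j := 0) (by omega)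
      (l2van_zero hS)
    by_cases h3 : i = m + 1
    · rw [h3]
      exact van_at h1 h2 A
    · exact van_above h1 i (by omega) A

theorem P_of_hSph2 (hS : HSph 2 G) : P 2 G := by
  classical
  refine ⟨inferInstance, fun T hT A hA i hi => ?_⟩
  have hA' : A ⊆ lk G T := fun x hx t ht => (hA hx t ht).symm
  have hcard := card_le_of_hSph hS T hT
  have h1 := above_small (n := 2 - T.card) (by omega) (hSph_lk hS T hT) {x | x.1 ∈ A} i (by omega)
  rw [lv_sub] at h1
  refine lv_set ?_ h1
  ext x
  simp only [Set.mem_image, Set.mem_ofPred_eq, Subtype.exists, exists_and_left,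
    exists_prop, exists_eq_right_right]
  exact ⟨fun hx => ⟨hx, hA' hx⟩, fun hx => hx.1⟩

/-- the links of codimension `n - 2` -/
theorem FaceP.one {k : ℕ} (hS : HSph (2 * 1 + k) G) : FaceP 1 k G := by
  classical
  exact fun T hT hk => P_of_hSph2 (hSph_congr (by omega) (hSph_lk hS T hT))

/-- the hypothesis on the links for small `j` -/
theorem FaceP.of {j k : ℕ} (hS : HSph (2 * j + k) G)
    (hA : 2 ≤ j → ∀ T : Finset V, G.IsClique (T : Set V) → T.card = k → AM (2 * j) (G.induce (lk G T))) :
    FaceP j k G := by
  rcases Nat.lt_or_ge j 2 with hj | hj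
  · rcases Nat.eq_zero_or_pos j with rfl | hj0
    · exact FaceP.zero hS
    · obtain rfl : j = 1 := by omega
      exact FaceP.one hS
  · exact fun T hT hT' => P_of_AM (hA hj T hT hT')

end

end Pool.Agent.X250.Sph
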