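import Pool.Agent.X250.Sph.MonoWt
import Pool.Agent.X250.Sph.Small

/-!
# Deleting disjoint edges
-/

set_option autoImplicit false
set_option linter.unusedSectionVars false

namespace Pool.Agent.X250.Sph

open Pool.Agent.W907.SG Pool.Agent.W907.SM Pool.Agent.TH652.Above
open Y365.FS (hp Dh)

variable {V : Type} [Fintype V] [LinearOrder V] {G : SimpleGraph V}

/-- deleting edges of `H` -/
theorem del_lv {m : ℕ} (hS : HSph m G) (hP : P m G) {H : SimpleGraph V}
    (hH : ∀ u v z, G.Adj u v → G.Adj u z → G.Adj v z → H.Adj u v → ¬ H.Adj u z) (M : Finset (Sym2 V)) :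
    (∀ e ∈ M, e ∈ H.edgeSet) → ∀ T : Finset V, G.IsClique (T : Set V) → ∀ i, 2 * i + T.card ≠ m →
      LV ((G.deleteEdges (M : Set (Sym2 V))).induce (lk G T)) i := by
  classical
  induction M using Finset.induction_on with
  | empty =>
    intro _ T hT i hi
    rw [Finset.coe_empty, SimpleGraph.deleteEdges_empty]
    exact LV_of (singer_lk hS hP T hT i hi)
  | insert e M he ih =>
    intro hMH T hT i hi
    have ih' := ih (fun x hx => hMH x (Finset.mem_insert_of_mem hx))
    induction e using Sym2.ind with
    | _ s t =>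
      have hHst : H.Adj s t := hMH _ (Finset.mem_insert_self _ _)
      by_cases hm : (s ∈ lk G T ∧ t ∈ lk G T) ∧ G.Adj s t
      · obtain ⟨⟨hs, ht⟩, hst⟩ := hm
        have hnH : ∀ x, G.Adj s x → G.Adj t x → s(s, x) ∉ M ∧ s(t, x) ∉ M := by
          intro x h1 h2
          constructor
          · intro h3
            exact hH s t x hst h1 h2 hHst (hMH _ (Finset.mem_insert_of_mem h3))
          · intro h3
            exact hH t s x hst.symm h2 h1 hHst.symm (hMH _ (Finset.mem_insert_of_mem h3))
        have hsT : s ∉ T := fun h => G.irrefl (hs s h)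
        have htT : t ∉ T := fun h => G.irrefl (ht t h)
        have hdel := lstep2 ↥(lk G T) ((G.deleteEdges (M : Set (Sym2 V))).induce (lk G T)) ⟨s, hs⟩ ⟨t, ht⟩ i
          (by
            rw [SimpleGraph.comap_adj, SimpleGraph.deleteEdges_adj]
            exact ⟨hst, fun h => he (Finset.mem_coe.1 h)⟩) (ih' T hT i hi) (fun j hj => by
          rw [lv_sub]
          have hcl : G.IsClique ((insert s (insert t T) : Finset V) : Set V) := by
            rw [Finset.coe_insert, Finset.coe_insert, SimpleGraph.isClique_insert, SimpleGraph.isClique_insert]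
            refine ⟨⟨hT, fun x hx _ => ht x hx⟩, fun x hx _ => ?_⟩
            rcases hx with rfl | hx
            · exact hst
            · exact hs x hx
          have h3 := ih' (insert s (insert t T)) hcl j (by
            rw [Finset.card_insert_of_notMem, Finset.card_insert_of_notMem htT]
            · omega
            · intro h
              rcases Finset.mem_insert.1 h with h | h
              · exact hst.ne h
              · exact hsT h)
          refine lv_set ?_ h3
          ext x
          constructor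
          · rintro ⟨y, ⟨hy1, hy2⟩, rfl⟩
            rw [SimpleGraph.mem_neighborSet, SimpleGraph.comap_adj, SimpleGraph.deleteEdges_adj] at hy1 hy2
            intro u hu
            rcases Finset.mem_insert.1 hu with rfl | hu
            · exact hy1.1.symm
            · rcases Finset.mem_insert.1 hu with rfl | hu
              · exact hy2.1.symm
              · exact y.2 u hu
          · intro hx
            have h5 : x ∈ lk G T := fun u hu => hx u (Finset.mem_insert_of_mem (Finset.mem_insert_of_mem hu))
            have h6 : G.Adj s x := (hx s (Finset.mem_insert_self _ _)).symm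
            have h7 : G.Adj t x := (hx t (Finset.mem_insert_of_mem (Finset.mem_insert_self _ _))).symm
            obtain ⟨h8, h9⟩ := hnH x h6 h7
            refine ⟨⟨x, h5⟩, ⟨?_, ?_⟩, rfl⟩
            · rw [SimpleGraph.mem_neighborSet, SimpleGraph.comap_adj, SimpleGraph.deleteEdges_adj]
              exact ⟨h6, fun h => h8 (Finset.mem_coe.1 h)⟩
            · rw [SimpleGraph.mem_neighborSet, SimpleGraph.comap_adj, SimpleGraph.deleteEdges_adj]
              exact ⟨h7, fun h => h9 (Finset.mem_coe.1 h)⟩)
        have e : ((G.deleteEdges (M : Set (Sym2 V))).induce (lk G T)).deleteEdges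
            {s((⟨s, hs⟩ : ↥(lk G T)), (⟨t, ht⟩ : ↥(lk G T)))} =
            (G.deleteEdges ((insert s(s, t) M : Finset (Sym2 V)) : Set (Sym2 V))).induce (lk G T) := by
          ext a b
          rw [SimpleGraph.deleteEdges_adj, SimpleGraph.comap_adj, SimpleGraph.comap_adj,
            SimpleGraph.deleteEdges_adj, SimpleGraph.deleteEdges_adj]
          simp only [Function.Embedding.subtype_apply, Set.mem_singleton_iff, Sym2.eq_iff, Subtype.ext_iff,
            Finset.coe_insert, Set.mem_insert_iff, Finset.mem_coe]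
          tauto
        rw [e] at hdel
        exact hdel
      · have e : (G.deleteEdges ((insert s(s, t) M : Finset (Sym2 V)) : Set (Sym2 V))).induce (lk G T) =
            (G.deleteEdges (M : Set (Sym2 V))).induce (lk G T) := by
          ext a b
          rw [SimpleGraph.comap_adj, SimpleGraph.comap_adj, SimpleGraph.deleteEdges_adj,
            SimpleGraph.deleteEdges_adj]
          simp only [Function.Embedding.subtype_apply, Finset.coe_insert, Set.mem_insert_iff, Finset.mem_coe,
            Sym2.eq_iff]
          constructor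
          · rintro ⟨h1, h2⟩
            exact ⟨h1, fun h => h2 (Or.inr h)⟩
          · rintro ⟨h1, h2⟩
            refine ⟨h1, ?_⟩
            rintro ((⟨h3, h4⟩ | ⟨h3, h4⟩) | h)
            · exact hm ⟨⟨h3 ▸ a.2, h4 ▸ b.2⟩, h3 ▸ h4 ▸ h1⟩
            · exact hm ⟨⟨h4 ▸ b.2, h3 ▸ a.2⟩, (h3 ▸ h4 ▸ h1 : G.Adj t s).symm⟩
            · exact h2 h
        rw [e]
        exact ih' T hT i hi

/-- deleting edges of `H`, all full subcomplexes, above the middle -/
theorem del_above {m : ℕ} (hP : P m G) {H : SimpleGraph V}
    (hH : ∀ u v z, G.Adj u v → G.Adj u z → G.Adj v z → H.Adj u v → ¬ H.Adj u z) (M : Finset (Sym2 V)) :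
    (∀ e ∈ M, e ∈ H.edgeSet) → ∀ T : Finset V, G.IsClique (T : Set V) → ∀ A : Set V, A ⊆ lk G T →
      ∀ i, m < 2 * i + T.card → LV ((G.deleteEdges (M : Set (Sym2 V))).induce A) i := by
  classical
  induction M using Finset.induction_on with
  | empty =>
    intro _ T hT A hA i hi
    rw [Finset.coe_empty, SimpleGraph.deleteEdges_empty]
    exact hP.2 T hT A (fun x hx u hu => (hA hx u hu).symm) i hi
  | insert e M he ih =>
    intro hMH T hT A hA i hi
    have ih' := ih (fun x hx => hMH x (Finset.mem_insert_of_mem hx))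
    induction e using Sym2.ind with
    | _ s t =>
      have hHst : H.Adj s t := hMH _ (Finset.mem_insert_self _ _)
      by_cases hm : (s ∈ A ∧ t ∈ A) ∧ G.Adj s t
      · obtain ⟨⟨hs, ht⟩, hst⟩ := hm
        have hnH : ∀ x, G.Adj s x → G.Adj t x → s(s, x) ∉ M ∧ s(t, x) ∉ M := by
          intro x h1 h2
          constructor
          · intro h3
            exact hH s t x hst h1 h2 hHst (hMH _ (Finset.mem_insert_of_mem h3))
          · intro h3
            exact hH t s x hst.symm h2 h1 hHst.symm (hMH _ (Finset.mem_insert_of_mem h3))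
        have hsT : s ∉ T := fun h => G.irrefl (hA hs s h)
        have htT : t ∉ T := fun h => G.irrefl (hA ht t h)
        have hdel := lstep2 ↥A ((G.deleteEdges (M : Set (Sym2 V))).induce A) ⟨s, hs⟩ ⟨t, ht⟩ i
          (by
            rw [SimpleGraph.comap_adj, SimpleGraph.deleteEdges_adj]
            exact ⟨hst, fun h => he (Finset.mem_coe.1 h)⟩) (ih' T hT A hA i hi) (fun j hj => by
          rw [lv_sub]
          have hcl : G.IsClique ((insert s (insert t T) : Finset V) : Set V) := by
            rw [Finset.coe_insert, Finset.coe_insert, SimpleGraph.isClique_insert, SimpleGraph.isClique_insert]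
            refine ⟨⟨hT, fun x hx _ => hA ht x hx⟩, fun x hx _ => ?_⟩
            rcases hx with rfl | hx
            · exact hst
            · exact hA hs x hx
          refine ih' (insert s (insert t T)) hcl _ ?_ j (by
            rw [Finset.card_insert_of_notMem, Finset.card_insert_of_notMem htT]
            · omega
            · intro h
              rcases Finset.mem_insert.1 h with h | h
              · exact hst.ne h
              · exact hsT h)
          rintro x ⟨y, ⟨hy1, hy2⟩, rfl⟩
          rw [SimpleGraph.mem_neighborSet, SimpleGraph.comap_adj, SimpleGraph.deleteEdges_adj] at hy1 hy2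
          intro u hu
          rcases Finset.mem_insert.1 hu with rfl | hu
          · exact hy1.1.symm
          · rcases Finset.mem_insert.1 hu with rfl | hu
            · exact hy2.1.symm
            · exact hA y.2 u hu)
        have e : ((G.deleteEdges (M : Set (Sym2 V))).induce A).deleteEdges
            {s((⟨s, hs⟩ : ↥A), (⟨t, ht⟩ : ↥A))} =
            (G.deleteEdges ((insert s(s, t) M : Finset (Sym2 V)) : Set (Sym2 V))).induce A := by
          ext a b
          rw [SimpleGraph.deleteEdges_adj, SimpleGraph.comap_adj, SimpleGraph.comap_adj,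
            SimpleGraph.deleteEdges_adj, SimpleGraph.deleteEdges_adj]
          simp only [Function.Embedding.subtype_apply, Set.mem_singleton_iff, Sym2.eq_iff, Subtype.ext_iff,
            Finset.coe_insert, Set.mem_insert_iff, Finset.mem_coe]
          tauto
        rw [e] at hdel
        exact hdel
      · have e : (G.deleteEdges ((insert s(s, t) M : Finset (Sym2 V)) : Set (Sym2 V))).induce A =
            (G.deleteEdges (M : Set (Sym2 V))).induce A := by
          ext a b
          rw [SimpleGraph.comap_adj, SimpleGraph.comap_adj, SimpleGraph.deleteEdges_adj,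
            SimpleGraph.deleteEdges_adj]
          simp only [Function.Embedding.subtype_apply, Finset.coe_insert, Set.mem_insert_iff, Finset.mem_coe,
            Sym2.eq_iff]
          constructor
          · rintro ⟨h1, h2⟩
            exact ⟨h1, fun h => h2 (Or.inr h)⟩
          · rintro ⟨h1, h2⟩
            refine ⟨h1, ?_⟩
            rintro ((⟨h3, h4⟩ | ⟨h3, h4⟩) | h)
            · exact hm ⟨⟨h3 ▸ a.2, h4 ▸ b.2⟩, h3 ▸ h4 ▸ h1⟩
            · exact hm ⟨⟨h4 ▸ b.2, h3 ▸ a.2⟩, (h3 ▸ h4 ▸ h1 : G.Adj t s).symm⟩
            · exact h2 h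
        rw [e]
        exact ih' T hT A hA i hi

/-- all edges of `H` -/
theorem del_all {m : ℕ} (hS : HSph m G) (hP : P m G) {H : SimpleGraph V}
    (hH : ∀ u v z, G.Adj u v → G.Adj u z → G.Adj v z → H.Adj u v → ¬ H.Adj u z) :
    (∀ i, 2 * i ≠ m → L2Van (G \ H) i) ∧ ∀ (A : Set V) (i : ℕ), m < 2 * i → LV ((G \ H).induce A) i := by
  classical
  have h0 : ((H.edgeFinset : Finset (Sym2 V)) : Set (Sym2 V)) = H.edgeSet := SimpleGraph.coe_edgeFinset H
  have h1 : ∀ e ∈ H.edgeFinset, e ∈ H.edgeSet := fun e he => SimpleGraph.mem_edgeFinset.1 he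
  constructor
  · intro i hi
    have h2 := del_lv hS hP hH H.edgeFinset h1 ∅ (by simp) i (by rw [Finset.card_empty]; omega)
    rw [h0, SimpleGraph.deleteEdges_edgeSet, lk_empty] at h2
    exact (lv_univ _ i).1 h2 _ _
  · intro A i hi
    have h2 := del_above hP hH H.edgeFinset h1 ∅ (by simp) A (fun x _ u hu => absurd hu (Finset.notMem_empty u)) i
      (by rw [Finset.card_empty]; omega)
    rw [h0, SimpleGraph.deleteEdges_edgeSet] at h2
    exact h2

open scoped Classical in
/-- the parameters of `H` -/
noncomputable def cH (H : SimpleGraph V) (e : Finset V) : ℚ := if ∃ u v, e = {u, v} ∧ H.Adj u v then 1 else 0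

theorem cH_pair {H : SimpleGraph V} {u v : V} : (∃ a b, ({u, v} : Finset V) = {a, b} ∧ H.Adj a b) ↔ H.Adj u v := by
  constructor
  · rintro ⟨a, b, h1, h2⟩
    have ha : a ∈ ({u, v} : Finset V) := by rw [h1]; simp
    have hb : b ∈ ({u, v} : Finset V) := by rw [h1]; simp
    have hab := h2.ne
    rw [Finset.mem_insert, Finset.mem_singleton] at ha hb
    rcases ha with rfl | rfl <;> rcases hb with rfl | rfl
    · exact absurd rfl hab
    · exact h2
    · exact h2.symm
    · exact absurd rfl hab
  · exact fun h => ⟨u, v, rfl, h⟩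

theorem cH_one {H : SimpleGraph V} {u v : V} (h : H.Adj u v) : cH H {u, v} = 1 := by
  unfold cH
  rw [if_pos (cH_pair.2 h)]

theorem cH_zero {H : SimpleGraph V} {u v : V} (h : ¬ H.Adj u v) : cH H {u, v} = 0 := by
  unfold cH
  rw [if_neg fun h1 => h (cH_pair.1 h1)]

theorem cH_bd {H : SimpleGraph V} (e : Finset V) : 0 ≤ cH H e := by
  unfold cH
  split_ifs
  · exact zero_le_one
  · exact le_rfl

theorem light_cH {H : SimpleGraph V} : lightGraph G (cH H) = G \ H := by
  ext u v
  rw [SimpleGraph.sdiff_adj]
  show G.Adj u v ∧ cH H {u, v} = 0 ↔ _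
  constructor
  · rintro ⟨h1, h2⟩
    refine ⟨h1, fun h3 => ?_⟩
    rw [cH_one h3] at h2
    exact one_ne_zero h2
  · rintro ⟨h1, h2⟩
    exact ⟨h1, cH_zero h2⟩

theorem om_cH {H : SimpleGraph V} : om G (cH H) = chiW (G \ H) := by
  classical
  have h1 := om_one (G := G) (cH H)
  rw [light_cH] at h1
  refine Eq.trans (congrArg (om G) (funext fun e => ?_)) h1
  unfold cH
  split_ifs <;> simp_all

/-- the faces which are unions of edges of `H` -/
theorem Dh_cH {H : SimpleGraph V} (hH : ∀ u v z, G.Adj u v → G.Adj u z → G.Adj v z → H.Adj u v → ¬ H.Adj u z) :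
    ∀ (k : ℕ) (T : Finset V), T.card = k → G.IsClique (T : Set V) →
      ((∀ v ∈ T, ∃ u ∈ T, H.Adj v u) → |Dh (cH H) T| = 1) ∧
      (¬ (∀ v ∈ T, ∃ u ∈ T, H.Adj v u) → Dh (cH H) T = 0) := by
  classical
  intro k
  induction k using Nat.strong_induction_on with
  | _ k ih =>
    intro T hT hcl
    rcases T.eq_empty_or_nonempty with rfl | ⟨v, hv⟩
    · have h0 : (∅ : Finset V).powersetCard 2 = ∅ := by
        rw [Finset.powersetCard_eq_empty]; simp
      refine ⟨fun _ => by simp [Dh, hp, h0], fun h => absurd (fun v hv => absurd hv (Finset.notMem_empty v)) h⟩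
    obtain ⟨T', hvT', rfl⟩ : ∃ T', v ∉ T' ∧ insert v T' = T :=
      ⟨T.erase v, Finset.notMem_erase v T, Finset.insert_erase hv⟩
    by_cases hl : ∀ u ∈ T', ¬ H.Adj v u
    · rw [Dh_zero (cH H) hvT' (fun u hu => cH_zero (hl u hu))]
      refine ⟨fun h => ?_, fun _ => rfl⟩
      obtain ⟨u, hu, h1⟩ := h v (Finset.mem_insert_self v T')
      rcases Finset.mem_insert.1 hu with rfl | hu
      · exact absurd h1 (H.irrefl)
      · exact absurd h1 (hl u hu)
    · push Not at hl
      obtain ⟨u, hu, hvu'⟩ := hl
      obtain ⟨T'', huT'', rfl⟩ : ∃ T'', u ∉ T'' ∧ insert u T'' = T' :=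
        ⟨T'.erase u, Finset.notMem_erase u T', Finset.insert_erase hu⟩
      have hvu : v ≠ u := hvu'.ne
      have hvT'' : v ∉ T'' := fun h => hvT' (Finset.mem_insert_of_mem h)
      have hGvu : G.Adj v u := hcl (by simp) (by simp) hvu
      have hGv : ∀ z ∈ T'', G.Adj v z := fun z hz => hcl (by simp) (by simp [hz]) fun h => hvT'' (h ▸ hz)
      have hGu : ∀ z ∈ T'', G.Adj u z := fun z hz => hcl (by simp) (by simp [hz]) fun h => huT'' (h ▸ hz)
      have hz1 : ∀ z ∈ T'', ¬ H.Adj v z := fun z hz => hH v u z hGvu (hGv z hz) (hGu z hz) hvu'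
      have hz2 : ∀ z ∈ T'', ¬ H.Adj u z := fun z hz => hH u v z hGvu.symm (hGu z hz) (hGv z hz) hvu'.symm
      have key := Dh_pair (cH H) huT'' hvT'' hvu (fun z hz => cH_zero (hz1 z hz)) (fun z hz => cH_zero (hz2 z hz))
      rw [cH_one hvu'] at key
      have hc1 : (insert v (insert u T'')).card = T''.card + 2 := by
        rw [Finset.card_insert_of_notMem hvT', Finset.card_insert_of_notMem huT'']
      have hcl' : G.IsClique (T'' : Set V) := fun a ha b hb hab => hcl (by
        simp [Finset.mem_coe.1 ha]) (by simp [Finset.mem_coe.1 hb]) hab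
      obtain ⟨i1, i2⟩ := ih T''.card (by omega) T'' rfl hcl'
      have hiff : (∀ x ∈ insert v (insert u T''), ∃ y ∈ insert v (insert u T''), H.Adj x y) ↔
          ∀ x ∈ T'', ∃ y ∈ T'', H.Adj x y := by
        constructor
        · intro h x hx
          obtain ⟨y, hy, hxy⟩ := h x (Finset.mem_insert_of_mem (Finset.mem_insert_of_mem hx))
          rcases Finset.mem_insert.1 hy with rfl | hy
          · exact absurd hxy.symm (hz1 x hx)
          · rcases Finset.mem_insert.1 hy with rfl | hy
            · exact absurd hxy.symm (hz2 x hx)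
            · exact ⟨y, hy, hxy⟩
        · intro h x hx
          rcases Finset.mem_insert.1 hx with rfl | hx
          · exact ⟨u, by simp, hvu'⟩
          · rcases Finset.mem_insert.1 hx with rfl | hx
            · exact ⟨v, by simp, hvu'.symm⟩
            · obtain ⟨y, hy, hxy⟩ := h x hx
              exact ⟨y, by simp [hy], hxy⟩
      rw [hiff, key]
      refine ⟨fun h => ?_, fun h => ?_⟩
      · rw [abs_mul, i1 h, abs_neg, abs_one, one_mul]
      · rw [i2 h, mul_zero]

theorem cH_disj {H : SimpleGraph V}
    (hH : ∀ u v z, G.Adj u v → G.Adj u z → G.Adj v z → H.Adj u v → ¬ H.Adj u z) :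
    ∀ T ∈ fcs G, ∀ u ∈ T, ∀ v ∈ T, ∀ z ∈ T, u ≠ v → u ≠ z → v ≠ z → cH H {u, v} = 0 ∨ cH H {u, z} = 0 := by
  intro T hT u hu v hv z hz h1 h2 h3
  have hcl := mem_fcs.1 hT
  by_cases h : H.Adj u v
  · exact Or.inr (cH_zero (hH u v z (hcl hu hv h1) (hcl hu hz h2) (hcl hv hz h3) h))
  · exact Or.inl (cH_zero h)

open scoped Classical in
/-- the faces of `G` which are unions of edges of `H` -/
noncomputable def unionFaces (G H : SimpleGraph V) : Finset (Finset V) :=
  Finset.univ.filter fun T : Finset V => G.IsClique (T : Set V) ∧ ∀ v ∈ T, ∃ u ∈ T, H.Adj v u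

open scoped Classical in
theorem chi_del {m : ℕ} (hS : HSph (2 * m) G) (hP : P (2 * m) G) {H : SimpleGraph V}
    (hH : ∀ u v z, G.Adj u v → G.Adj u z → G.Adj v z → H.Adj u v → ¬ H.Adj u z) :
    (-1) ^ m * chiW (G \ H) = ∑ T ∈ unionFaces G H, |chiW (G.induce (lk G T))| / 2 ^ T.card := by
  rw [← om_cH, om_abs hS hP cH_bd (cH_disj hH)]
  have h1 : unionFaces G H = (fcs G).filter fun T : Finset V => ∀ v ∈ T, ∃ u ∈ T, H.Adj v u := by
    unfold unionFaces fcs
    rw [Finset.filter_filter]
  rw [h1, Finset.sum_filter]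
  refine Finset.sum_congr rfl fun T hT => ?_
  obtain ⟨h2, h3⟩ := Dh_cH hH T.card T rfl (mem_fcs.1 hT)
  split_ifs with h
  · rw [h2 h, one_div, inv_pow, mul_one, div_eq_mul_inv, mul_comm]
  · rw [h3 h, abs_zero, mul_zero, zero_mul]

open scoped Classical in
theorem chi_del_zero {m : ℕ} (hS : HSph (2 * m) G) (hP : P (2 * m) G) {H : SimpleGraph V}
    (hH : ∀ u v z, G.Adj u v → G.Adj u z → G.Adj v z → H.Adj u v → ¬ H.Adj u z) :
    chiW (G \ H) = 0 ↔ ∀ T ∈ unionFaces G H, ∀ i, L2Van (G.induce (lk G T)) i := by
  have h0 : chiW (G \ H) = 0 ↔ (-1) ^ m * chiW (G \ H) = 0 := by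
    rw [mul_eq_zero, or_iff_right (pow_ne_zero _ (by norm_num))]
  rw [h0, chi_del hS hP hH, Finset.sum_eq_zero_iff_of_nonneg (fun T _ => by positivity)]
  refine forall₂_congr fun T hT => ?_
  obtain ⟨-, hcl, hun⟩ := Finset.mem_filter.1 hT
  have hcard := card_le_of_hSph hS T hcl
  have heven : Even T.card := by
    rcases Nat.even_or_odd T.card with he | ho
    · exact he
    · exfalso
      have h1 := (Dh_cH hH T.card T rfl hcl).1 hun
      have h2 := (Dh_mono (cH H) (cH H) (fun e => ⟨cH_bd e, le_rfl⟩) T.card T rfl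
        (cH_disj hH T (mem_fcs.2 hcl))).1 ho
      rw [h2, abs_zero] at h1
      exact zero_ne_one h1
  obtain ⟨j, hj⟩ := heven
  rw [div_eq_zero_iff, or_iff_left (pow_ne_zero _ (by norm_num)), abs_eq_zero]
  exact (gap_lk hS hP T hcl (m - j) (by omega)).2.1.symm

end Pool.Agent.X250.Sph
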