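import Pool.Agent.X250.Sph.DelEdges
import Pool.Agent.X250.Sph.Bound

/-!
# Deleting pairwise non-adjacent vertices
-/

set_option autoImplicit false
set_option linter.unusedSectionVars false

namespace Pool.Agent.X250.Sph

open Pool.Agent.W907.SG Pool.Agent.W907.SM Pool.Agent.TH652.Above

section gen

variable {V : Type} [Fintype V] [LinearOrder V] {G : SimpleGraph V}

/-- removing a vertex -/
theorem lv_rem {A : Set V} {v : V} {i : ℕ} (hv : v ∉ A) (h1 : LV (G.induce (insert v A)) i)
    (h2 : LV (G.induce (A ∩ G.neighborSet v)) i) : LV (G.induce A) i := by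
  classical
  refine lv_of_evt fun ε hε => ?_
  have h3 := evt_of_asyX (AsyX.step hv h2) (ε / 2) (by positivity)
  have h4 := evt_small (G := G) h1 (ε / 2) (by positivity)
  refine (h3.and h4).mono fun X _ a _ hh => ?_
  obtain ⟨h5, h6⟩ := hh
  push_cast at h5
  linarith

open scoped Classical in
/-- the Euler characteristic and a vertex -/
theorem chi_rem {A B C : Set V} [Fintype ↥A] [Fintype ↥B] [Fintype ↥C] {v : V} (hv : v ∉ A) (hB : B = insert v A)
    (hC : C = A ∩ G.neighborSet v) : chiW (G.induce B) =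
    chiW (G.induce A) - 1 / 2 * chiW (G.induce C) := by
  subst hB hC
  rw [chiW_sub, chiW_sub, chiW_sub, ← Finset.sum_filter, ← Finset.sum_filter, ← Finset.sum_filter]
  have h1 : (Finset.univ : Finset (Finset V)).filter (fun T : Finset V => G.IsClique (T : Set V) ∧
      (T : Set V) ⊆ insert v A) = (Finset.univ.filter fun T : Finset V => G.IsClique (T : Set V) ∧
      (T : Set V) ⊆ A) ∪ (Finset.univ.filter fun T : Finset V => G.IsClique (T : Set V) ∧
      (T : Set V) ⊆ A ∩ G.neighborSet v).image (insert v) := by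
    ext T
    simp only [Finset.mem_filter, Finset.mem_univ, true_and, Finset.mem_union, Finset.mem_image]
    constructor
    · rintro ⟨h2, h3⟩
      by_cases hvT : v ∈ T
      · right
        refine ⟨T.erase v, ⟨fun x hx y hy hxy => h2 (Finset.mem_of_mem_erase (Finset.mem_coe.1 hx))
          (Finset.mem_of_mem_erase (Finset.mem_coe.1 hy)) hxy, fun x hx => ?_⟩, Finset.insert_erase hvT⟩
        have hx' := Finset.mem_erase.1 (Finset.mem_coe.1 hx)
        refine ⟨(h3 (Finset.mem_coe.2 hx'.2)).resolve_left hx'.1, ?_⟩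
        exact (G.mem_neighborSet v x).2 (h2 (Finset.mem_coe.2 hvT) (Finset.mem_coe.2 hx'.2) hx'.1.symm)
      · left
        refine ⟨h2, fun x hx => (h3 hx).resolve_left fun h => hvT (h ▸ Finset.mem_coe.1 hx)⟩
    · rintro (⟨h2, h3⟩ | ⟨S, ⟨h2, h3⟩, rfl⟩)
      · exact ⟨h2, h3.trans (Set.subset_insert v A)⟩
      · constructor
        · rw [Finset.coe_insert, SimpleGraph.isClique_insert]
          exact ⟨h2, fun x hx _ => (G.mem_neighborSet v x).1 (h3 hx).2⟩
        · rw [Finset.coe_insert]
          exact Set.insert_subset_insert (h3.trans Set.inter_subset_left)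
  have hdis : Disjoint (Finset.univ.filter fun T : Finset V => G.IsClique (T : Set V) ∧ (T : Set V) ⊆ A)
      ((Finset.univ.filter fun T : Finset V => G.IsClique (T : Set V) ∧
      (T : Set V) ⊆ A ∩ G.neighborSet v).image (insert v)) := by
    rw [Finset.disjoint_left]
    intro T hT hT'
    obtain ⟨S, _, rfl⟩ := Finset.mem_image.1 hT'
    exact hv ((Finset.mem_filter.1 hT).2.2 (by simp))
  have hnot : ∀ S ∈ Finset.univ.filter (fun T : Finset V => G.IsClique (T : Set V) ∧
      (T : Set V) ⊆ A ∩ G.neighborSet v), v ∉ S := fun S hS h =>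
    hv ((Finset.mem_filter.1 hS).2.2 (Finset.mem_coe.2 h)).1
  rw [h1, Finset.sum_union hdis, Finset.sum_image (fun S hS S' hS' h => by
    rw [← Finset.erase_insert (hnot S hS), ← Finset.erase_insert (hnot S' hS'), h]), sub_eq_add_neg,
    Finset.mul_sum, ← Finset.sum_neg_distrib]
  congr 1
  refine Finset.sum_congr rfl fun S hS => ?_
  rw [Finset.card_insert_of_notMem (hnot S hS), pow_succ]
  ring

end gen

variable {V : Type} [Fintype V] [LinearOrder V] {G : SimpleGraph V}

theorem comp_insert {U : Finset V} {v : V} (hv : v ∉ U) :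
    insert v (((insert v U : Finset V) : Set V)ᶜ) = ((U : Finset V) : Set V)ᶜ := by
  ext x
  rw [Finset.coe_insert]
  constructor
  · rintro (rfl | hx)
    · exact fun h => hv (Finset.mem_coe.1 h)
    · exact fun h => hx (Or.inr h)
  · intro hx
    by_cases h : x = v
    · exact Or.inl h
    · exact Or.inr fun h' => h'.elim h hx

theorem comp_nbr {H : SimpleGraph V} {U : Finset V} (hU : ∀ u ∈ U, ∀ v ∈ U, ¬ G.Adj u v) (hUH : ∀ u ∈ U, ∀ x, ¬ H.Adj u x)
    {v : V} (hv : v ∈ U) : ((U : Set V)ᶜ) ∩ (G \ H).neighborSet v = lk G {v} := by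
  ext x
  constructor
  · rintro ⟨h1, h2⟩
    intro u hu
    rw [Finset.mem_singleton] at hu
    subst hu
    exact ((SimpleGraph.sdiff_adj _ _ _ _).1 ((SimpleGraph.mem_neighborSet _ _ _).1 h2)).1.symm
  · intro hx
    have h1 : G.Adj v x := (hx v (Finset.mem_singleton_self v)).symm
    refine ⟨fun h => hU v hv x (Finset.mem_coe.1 h) h1, ?_⟩
    exact (SimpleGraph.mem_neighborSet _ _ _).2 ((SimpleGraph.sdiff_adj _ _ _ _).2 ⟨h1, hUH v hv x⟩)

theorem lk_one (v : V) : lk G {v} = G.neighborSet v := by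
  ext x
  simp only [lk, Finset.mem_singleton, forall_eq, Set.mem_ofPred_eq, SimpleGraph.mem_neighborSet]
  exact G.adj_comm x v

/-- the link of a vertex without the edges of `H` -/
theorem del_link {m : ℕ} (hS : HSph m G) (hP : P m G) {H : SimpleGraph V}
    (hH : ∀ u v z, G.Adj u v → G.Adj u z → G.Adj v z → H.Adj u v → ¬ H.Adj u z) (v : V) (i : ℕ)
    (hi : 2 * i + 1 ≠ m) : LV ((G \ H).induce (lk G {v})) i := by
  classical
  have h0 : ((H.edgeFinset : Finset (Sym2 V)) : Set (Sym2 V)) = H.edgeSet := SimpleGraph.coe_edgeFinset H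
  have h2 := del_lv hS hP hH H.edgeFinset (fun e he => SimpleGraph.mem_edgeFinset.1 he) {v} (by simp) i (by
    rw [Finset.card_singleton]; exact hi)
  rw [h0, SimpleGraph.deleteEdges_edgeSet] at h2
  exact h2

/-- deleting vertices and edges -/
theorem del_vert {m : ℕ} (hS : HSph m G) (hP : P m G) {H : SimpleGraph V}
    (hH : ∀ u v z, G.Adj u v → G.Adj u z → G.Adj v z → H.Adj u v → ¬ H.Adj u z) (U : Finset V) :
    (∀ u ∈ U, ∀ v ∈ U, ¬ G.Adj u v) → (∀ u ∈ U, ∀ x, ¬ H.Adj u x) → ∀ i, 2 * i ≠ m → 2 * i + 1 ≠ m →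
      LV ((G \ H).induce ((U : Set V)ᶜ)) i := by
  classical
  induction U using Finset.induction_on with
  | empty =>
    intro _ _ i hi _
    have h1 := (lv_univ (G \ H) i).2 (LV_of ((del_all hS hP hH).1 i hi))
    exact lv_set (by simp) h1
  | insert v U hv ih =>
    intro hU hUH i hi hi'
    have h1 := ih (fun a ha b hb => hU a (Finset.mem_insert_of_mem ha) b (Finset.mem_insert_of_mem hb))
      (fun a ha => hUH a (Finset.mem_insert_of_mem ha)) i hi hi'
    refine lv_rem (v := v) (fun h => h (by simp)) (lv_set (comp_insert hv) h1) ?_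
    exact lv_set (comp_nbr hU hUH (Finset.mem_insert_self v U)) (del_link hS hP hH v i hi')

open scoped Classical in
/-- the Euler characteristic -/
theorem chi_vert {H : SimpleGraph V} (U : Finset V) :
    (∀ u ∈ U, ∀ v ∈ U, ¬ G.Adj u v) → (∀ u ∈ U, ∀ x, ¬ H.Adj u x) →
      chiW ((G \ H).induce ((U : Set V)ᶜ)) =
        chiW (G \ H) + 1 / 2 * ∑ v ∈ U, chiW ((G \ H).induce (G.neighborSet v)) := by
  induction U using Finset.induction_on with
  | empty =>
    intro _ _
    rw [Finset.sum_empty, mul_zero, add_zero]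
    have h1 : ((∅ : Finset V) : Set V)ᶜ = Set.univ := by simp
    rw [chiW_congr h1, chiW_univ]
  | insert v U hv ih =>
    intro hU hUH
    have h1 := ih (fun a ha b hb => hU a (Finset.mem_insert_of_mem ha) b (Finset.mem_insert_of_mem hb))
      (fun a ha => hUH a (Finset.mem_insert_of_mem ha))
    have h2 := chi_rem (G := G \ H) (A := ((insert v U : Finset V) : Set V)ᶜ) (B := (U : Set V)ᶜ)
      (C := G.neighborSet v) (v := v) (fun h => h (by simp)) (comp_insert hv).symm
      ((comp_nbr hU hUH (Finset.mem_insert_self v U)).trans (lk_one v)).symm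
    rw [Finset.sum_insert hv]
    linarith

end Pool.Agent.X250.Sph
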