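import Pool.Agent.X250.Sph.Mono
import Pool.Agent.Y132.SI.Betti

/-!
# Betti numbers of the preimages of full subcomplexes in finite coverings
-/

set_option autoImplicit false
set_option linter.unusedSectionVars false

namespace Pool.Agent.X250.Sph

open Module Pool.Agent.W907.SG Pool.Agent.W907.SM Pool.Agent.W397.SG Pool.Agent.W347.SGV
  Pool.Agent.W338.SG Pool.Agent.W461.SGN Pool.Agent.TH652.Above Pool.Agent.Y132.SI

variable {V : Type} [Fintype V] [LinearOrder V]

/-- Let `Σ_A` be the Davis complex of the special subgroup `W_A`, and `W Σ_A` the union of its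
translates in the Davis complex of `W G`.  This is the space of the real harmonic `i`-chains of `W Σ_A`
which are invariant under the subgroup `H`.  `c w T` is the coefficient of the cube `w W_T` with the
orientation given by the corner `w` and the order of `T`.  If `H` has finite index and is torsion-free
then its dimension is the `i`-th real Betti number of the preimage of `Σ_A / W_A` in the finite cover
`Σ / H`, the disjoint union of the `Σ_A / (W_A ∩ w⁻¹ H w)` over the double cosets `H w W_A`. -/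
def HInvOn (G : SimpleGraph V) (A : Set V) (H : Subgroup (W G)) (i : ℕ) :
    Submodule ℝ (W G → Finset V → ℝ) where
  carrier := {c | (∀ h ∈ H, ∀ w T, c (h * w) T = c w T) ∧
    (∀ w (T : Finset V), ¬ (G.IsClique (T : Set V) ∧ (T : Set V) ⊆ A ∧ T.card = i) → c w T = 0) ∧
    (∀ w (T : Finset V) t, t ∈ T → c (w * (cox G).simple t) T = - c w T) ∧
    (∀ w (T : Finset V), ∑ v ∈ Tᶜ, (sg v T : ℝ) * c w (insert v T) = 0) ∧
    (∀ w (T : Finset V), G.IsClique (T : Set V) → (T : Set V) ⊆ A →
      ∑ t ∈ T, (sg t (T.erase t) : ℝ) * (c w (T.erase t) - c (w * (cox G).simple t) (T.erase t)) = 0)}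
  add_mem' := by
    rintro c d ⟨h1, h2, h3, h4, h5⟩ ⟨g1, g2, g3, g4, g5⟩
    refine ⟨fun h hh w T => ?_, fun w T hT => ?_, fun w T t ht => ?_, fun w T => ?_, fun w T hT hTA => ?_⟩
    · simp only [Pi.add_apply, h1 h hh, g1 h hh]
    · simp only [Pi.add_apply, h2 w T hT, g2 w T hT, add_zero]
    · simp only [Pi.add_apply, h3 w T t ht, g3 w T t ht]; ring
    · have := congrArg₂ (· + ·) (h4 w T) (g4 w T)
      simp only [add_zero] at this
      rw [← Finset.sum_add_distrib] at this
      rw [← this]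
      exact Finset.sum_congr rfl fun v _ => by simp only [Pi.add_apply]; ring
    · have := congrArg₂ (· + ·) (h5 w T hT hTA) (g5 w T hT hTA)
      simp only [add_zero] at this
      rw [← Finset.sum_add_distrib] at this
      rw [← this]
      exact Finset.sum_congr rfl fun v _ => by simp only [Pi.add_apply]; ring
  zero_mem' := by
    refine ⟨fun h hh w T => rfl, fun w T hT => rfl, fun w T t ht => ?_, fun w T => ?_, fun w T hT _ => ?_⟩
    · simp
    · simp
    · simp
  smul_mem' := by
    rintro r c ⟨h1, h2, h3, h4, h5⟩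
    refine ⟨fun h hh w T => ?_, fun w T hT => ?_, fun w T t ht => ?_, fun w T => ?_, fun w T hT hTA => ?_⟩
    · simp only [Pi.smul_apply, h1 h hh]
    · simp only [Pi.smul_apply, h2 w T hT, smul_zero]
    · simp only [Pi.smul_apply, h3 w T t ht, smul_neg]
    · have := congrArg (fun x => r * x) (h4 w T)
      simp only [mul_zero, Finset.mul_sum] at this
      rw [← this]
      exact Finset.sum_congr rfl fun v _ => by simp only [Pi.smul_apply, smul_eq_mul]; ring
    · have := congrArg (fun x => r * x) (h5 w T hT hTA)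
      simp only [mul_zero, Finset.mul_sum] at this
      rw [← this]
      exact Finset.sum_congr rfl fun v _ => by simp only [Pi.smul_apply, smul_eq_mul]; ring

section

variable (G : SimpleGraph V) (A : Set V) [Fintype ↥A] (H : Subgroup (W G))

/-- pull-back and extension by zero -/
noncomputable def PE : (Quotient (QuotientGroup.rightRel H) → Finset ↥A → ℝ) →ₗ[ℝ] (W G → Finset V → ℝ) where
  toFun c w := Ex (F := ℝ) A (c (Quotient.mk'' w))
  map_add' c d := by
    funext w
    exact (Ex (F := ℝ) (M := ℝ) A).map_add _ _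
  map_smul' r c := by
    funext w
    exact (Ex (F := ℝ) (M := ℝ) A).map_smul _ _

theorem PE_map (c : Quotient (QuotientGroup.rightRel H) → Finset ↥A → ℝ) (w : W G) (T : Finset ↥A) :
    PE G A H c w (T.map (incl A)) = c (Quotient.mk'' w) T := Ex_map (F := ℝ) (M := ℝ) A _ T

theorem PE_not (c : Quotient (QuotientGroup.rightRel H) → Finset ↥A → ℝ) (w : W G) {T : Finset V}
    (h : ¬ (T : Set V) ⊆ A) : PE G A H c w T = 0 := Ex_not (F := ℝ) (M := ℝ) A _ h

theorem PE_inj : Function.Injective (PE G A H) := by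
  intro c d h
  funext x T
  induction x using Quotient.inductionOn' with
  | h w =>
    have := congrFun (congrFun h w) (T.map (incl A))
    rwa [PE_map, PE_map] at this

theorem map_insert_incl (v : ↥A) (T : Finset ↥A) :
    insert v.1 (T.map (incl A)) = (insert v T).map (incl A) := by
  ext x
  simp only [Finset.mem_insert, Finset.mem_map]
  constructor
  · rintro (rfl | ⟨u, hu, rfl⟩)
    · exact ⟨v, Or.inl rfl, rfl⟩
    · exact ⟨u, Or.inr hu, rfl⟩
  · rintro ⟨u, rfl | hu, rfl⟩
    · exact Or.inl rfl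
    · exact Or.inr ⟨u, hu, rfl⟩

theorem map_erase_incl (v : ↥A) (T : Finset ↥A) :
    (T.map (incl A)).erase v.1 = (T.erase v).map (incl A) := by
  ext x
  simp only [Finset.mem_erase, Finset.mem_map]
  constructor
  · rintro ⟨h1, u, hu, rfl⟩
    exact ⟨u, ⟨fun e => h1 (congrArg Subtype.val e), hu⟩, rfl⟩
  · rintro ⟨u, ⟨h1, hu⟩, rfl⟩
    exact ⟨fun e => h1 (Subtype.ext e), u, hu, rfl⟩

/-- sums over the complement -/
theorem sum_compl_incl (T : Finset ↥A) (f : V → ℝ) (hf : ∀ v, v ∉ A → f v = 0) :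
    ∑ v ∈ (T.map (incl A))ᶜ, f v = ∑ v ∈ Tᶜ, f v.1 := by
  symm
  refine Finset.sum_of_injOn (fun v : ↥A => v.1) (fun a _ b _ h => Subtype.ext h) ?_ ?_ ?_
  · intro v hv
    rw [Finset.mem_coe, Finset.mem_compl] at hv ⊢
    intro h
    rw [Finset.mem_map] at h
    obtain ⟨x, hx, he⟩ := h
    have : x = v := Subtype.ext he
    exact hv (this ▸ hx)
  · intro v hv hv2
    refine hf v fun hvA => hv2 ⟨⟨v, hvA⟩, ?_, rfl⟩
    rw [Finset.mem_coe, Finset.mem_compl]
    rw [Finset.mem_compl] at hv
    intro h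
    exact hv (Finset.mem_map.2 ⟨⟨v, hvA⟩, h, rfl⟩)
  · intro v _
    rfl

/-- the Hodge theorem for the preimages of full subcomplexes -/
theorem finrank_HInvOn [Fintype (Quotient (QuotientGroup.rightRel H))] (i : ℕ) :
    finrank ℝ (HInvOn G A H i) = beta G (pull ℝ (aa G H)) A ∅ i := by
  have hb := beta_sub G A (pull ℝ (aa G H)) Set.univ i
  have h4 : (Subtype.val '' (Set.univ : Set ↥A) : Set V) = A := by
    ext x; simp
  rw [h4] at hb
  rw [← hb]
  have hh := hodr ↥A _ (G.induce A) (fun u => aa G H u.1) (fun v x => aa_inv G H v.1 x)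
    (fun u v h x => aa_comm G H u.1 v.1 h x) i ((HInvOn G A H i).comap (PE G A H)) ?_
  · have h5 : (fun u : ↥A => pull ℝ (aa G H) u.1) = pull ℝ (fun u : ↥A => aa G H u.1) := rfl
    rw [h5, ← hh]
    have hmap : ((HInvOn G A H i).comap (PE G A H)).map (PE G A H) = HInvOn G A H i := by
      rw [Submodule.map_comap_eq]
      refine inf_eq_right.2 ?_
      intro c hc
      refine ⟨fun x T => Quotient.liftOn' x (fun w => c w (T.map (incl A))) (fun a b hab => ?_), ?_⟩
      · rw [QuotientGroup.rightRel_apply] at hab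
        have h1 := hc.1 _ hab a (T.map (incl A))
        rw [inv_mul_cancel_right] at h1
        exact h1.symm
      · funext w T
        by_cases hT : (T : Set V) ⊆ A
        · obtain ⟨T', rfl⟩ : ∃ T' : Finset ↥A, T'.map (incl A) = T := ⟨cut A T, map_cut A hT⟩
          rw [PE_map]
          rfl
        · rw [PE_not G A H _ w hT]
          exact (hc.2.1 w T fun h => hT h.2.1).symm
    have e := (Submodule.equivMapOfInjective (PE G A H) (PE_inj G A H)
      ((HInvOn G A H i).comap (PE G A H))).finrank_eq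
    rw [hmap] at e
    exact e.symm
  · intro c
    rw [Submodule.mem_comap]
    constructor
    · rintro ⟨_, h2, h3, h4, h5⟩
      refine ⟨fun x T hT => ?_, fun x T t ht => ?_, fun x T => ?_, fun x T hT => ?_⟩
      · induction x using Quotient.inductionOn' with
        | h w =>
          rw [← PE_map G A H c w T]
          refine h2 w _ ?_
          rintro ⟨k1, _, k3⟩
          exact hT ⟨(clique_map G A T).2 k1, by rwa [Finset.card_map] at k3⟩
      · induction x using Quotient.inductionOn' with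
        | h w =>
          have := h3 w (T.map (incl A)) t.1 (Finset.mem_map_of_mem (incl A) ht)
          rwa [PE_map, PE_map] at this
      · induction x using Quotient.inductionOn' with
        | h w =>
          have := h4 w (T.map (incl A))
          rw [sum_compl_incl A T _ (fun v hv => by
            rw [PE_not G A H c w (fun h => hv (h (by simp))), mul_zero])] at this
          rw [← this]
          refine Finset.sum_congr rfl fun v _ => ?_
          rw [map_insert_incl, PE_map, sg_map]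
          exact congrArg _ (congrArg _ (Finset.ext fun x => by simp only [Finset.mem_insert]))
      · induction x using Quotient.inductionOn' with
        | h w =>
          have := h5 w (T.map (incl A)) ((clique_map G A T).1 hT) (map_subset A T)
          rw [Finset.sum_map] at this
          rw [← this]
          refine Finset.sum_congr rfl fun v _ => ?_
          show _ = (sg v.1 ((T.map (incl A)).erase v.1) : ℝ) * _
          rw [map_erase_incl, sg_map]
          congr 1
          show _ = PE G A H c w ((T.map (incl A)).erase v.1) -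
            PE G A H c (w * (cox G).simple v.1) ((T.map (incl A)).erase v.1)
          rw [map_erase_incl, PE_map, PE_map]
          rfl
    · rintro ⟨h2, h3, h4, h5⟩
      refine ⟨fun h hh w T => ?_, fun w T hT => ?_, fun w T t ht => ?_, fun w T => ?_,
        fun w T hT hTA => ?_⟩
      · have : (Quotient.mk'' (h * w) : Quotient (QuotientGroup.rightRel H)) = Quotient.mk'' w := by
          refine Quotient.sound' ?_
          rw [QuotientGroup.rightRel_apply, mul_inv_rev, mul_inv_cancel_left]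
          exact H.inv_mem hh
        show Ex (F := ℝ) A (c (Quotient.mk'' (h * w))) T = Ex (F := ℝ) A (c (Quotient.mk'' w)) T
        rw [this]
      · by_cases hTA : (T : Set V) ⊆ A
        · obtain ⟨T', rfl⟩ : ∃ T' : Finset ↥A, T'.map (incl A) = T := ⟨cut A T, map_cut A hTA⟩
          rw [PE_map]
          refine h2 _ T' ?_
          rintro ⟨k1, k2⟩
          exact hT ⟨(clique_map G A T').1 k1, hTA, by rwa [Finset.card_map]⟩
        · exact PE_not G A H c w hTA
      · by_cases hTA : (T : Set V) ⊆ A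
        · obtain ⟨T', rfl⟩ : ∃ T' : Finset ↥A, T'.map (incl A) = T := ⟨cut A T, map_cut A hTA⟩
          rw [Finset.mem_map] at ht
          obtain ⟨t', ht', rfl⟩ := ht
          rw [PE_map, PE_map]
          exact h3 (Quotient.mk'' w) T' t' ht'
        · rw [PE_not G A H c _ hTA, PE_not G A H c _ hTA, neg_zero]
      · by_cases hTA : (T : Set V) ⊆ A
        · obtain ⟨T', rfl⟩ : ∃ T' : Finset ↥A, T'.map (incl A) = T := ⟨cut A T, map_cut A hTA⟩
          rw [sum_compl_incl A T' _ (fun v hv => by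
            rw [PE_not G A H c w (fun h => hv (h (by simp))), mul_zero]), ← h4 (Quotient.mk'' w) T']
          refine Finset.sum_congr rfl fun v _ => ?_
          rw [map_insert_incl, PE_map, sg_map]
          exact congrArg _ (congrArg _ (Finset.ext fun x => by simp only [Finset.mem_insert]))
        · refine Finset.sum_eq_zero fun v _ => ?_
          rw [PE_not G A H c w, mul_zero]
          intro h
          exact hTA (fun x hx => h (by simp at hx ⊢; exact Or.inr hx))
      · obtain ⟨T', rfl⟩ : ∃ T' : Finset ↥A, T'.map (incl A) = T := ⟨cut A T, map_cut A hTA⟩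
        rw [Finset.sum_map, ← h5 (Quotient.mk'' w) T' ((clique_map G A T').2 hT)]
        refine Finset.sum_congr rfl fun v _ => ?_
        show (sg v.1 ((T'.map (incl A)).erase v.1) : ℝ) * _ = _
        rw [map_erase_incl, sg_map]
        congr 1
        show PE G A H c w ((T'.map (incl A)).erase v.1) -
          PE G A H c (w * (cox G).simple v.1) ((T'.map (incl A)).erase v.1) = _
        rw [map_erase_incl, PE_map, PE_map]
        rfl

end

/-- the quantity `f` is asymptotically at most zero along all finite `W_G`-sets with large injectivity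
radius -/
def AsyX (G : SimpleGraph V) (f : ∀ (X : Type) [Fintype X], (V → X → X) → ℤ) : Prop :=
  ∀ N : ℕ, ∃ E : Finset (W G), (1 : W G) ∉ E ∧ ∀ (X : Type) [Fintype X] (a : V → X → X)
    (ev : X → W G → X), (∀ v x, a v (a v x) = x) →
    (∀ u v, G.Adj u v → ∀ x, a u (a v x) = a v (a u x)) →
    (∀ x, ev x 1 = x) → (∀ x g h, ev x (g * h) = ev (ev x g) h) →
    (∀ x v, ev x ((cox G).simple v) = a v x) → (∀ g ∈ E, ∀ x, ev x g ≠ x) →
    N * f X a ≤ (Fintype.card X : ℤ)

variable {G : SimpleGraph V}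

theorem AsyX.bet_of {A : Set V} {i : ℕ} (h : LV (G.induce A) i) :
    AsyX G (fun X _ a => (beta G (pull ℝ a) A ∅ i : ℤ)) := by
  classical
  intro N
  obtain ⟨E, h1, h2⟩ := small_restrict small tr G A i (h _ _) N
  refine ⟨E, h1, fun X _ a ev k1 k2 e1 e2 e3 e4 => ?_⟩
  have := h2 X a ev k1 k2 e1 e2 e3 e4
  show (N : ℤ) * (beta G (pull ℝ a) A ∅ i : ℤ) ≤ _
  exact_mod_cast this

theorem AsyX.step {A : Set V} {v : V} {i : ℕ} (hv : v ∉ A)
    (h : LV (G.induce (A ∩ G.neighborSet v)) i) :
    AsyX G (fun X _ a => (beta G (pull ℝ a) A ∅ i : ℤ) - beta G (pull ℝ a) (insert v A) ∅ i) := by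
  intro N
  obtain ⟨E, h1, h2⟩ := AsyX.bet_of h N
  refine ⟨E, h1, fun X _ a ev k1 k2 e1 e2 e3 e4 => ?_⟩
  have h3 := h2 X a ev k1 k2 e1 e2 e3 e4
  refine le_trans (mul_le_mul_of_nonneg_left ?_ (by positivity)) h3
  have h1 := vert_con G (pull ℝ a) A ∅ v hv i
  have h2 := eig V ℝ (X → ℝ) G (pull ℝ a) (A ∩ G.neighborSet v) ∅ v (by norm_num)
    (fun m => by
      funext x
      rw [pull_apply, pull_apply, k1])
    (fun u hu m => by
      have hu' : G.Adj u v := by
        rcases hu with hu | hu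
        · exact ((G.mem_neighborSet v u).1 hu.2).symm
        · exact absurd hu (by simp)
      funext x
      rw [pull_apply, pull_apply, pull_apply, pull_apply, k2 u v hu']) i
  have h4 : (beta G (pull ℝ a) A ∅ i : ℤ) ≤ beta G (pull ℝ a) (insert v A) ∅ i +
      beta G (pull ℝ a) (A ∩ G.neighborSet v) ∅ i := by
    exact_mod_cast h1.trans (Nat.add_le_add_left h2 _)
  linarith

theorem AsyX.steps {i : ℕ} : ∀ (k : ℕ) (A B : Set V), A ⊆ B → (B \ A).ncard = k →
    (∀ v ∈ B \ A, ∀ C ⊆ B, LV (G.induce (C ∩ G.neighborSet v)) i) →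
    AsyX G (fun X _ a => (beta G (pull ℝ a) A ∅ i : ℤ) - beta G (pull ℝ a) B ∅ i) := by
  classical
  intro k
  induction k with
  | zero =>
    intro A B hAB hk _ N
    rw [Set.ncard_eq_zero, Set.sdiff_eq_empty] at hk
    have : A = B := Set.Subset.antisymm hAB hk
    subst this
    refine ⟨∅, Finset.notMem_empty _, fun X _ a ev _ _ _ _ _ _ => ?_⟩
    show (N : ℤ) * ((beta G (pull ℝ a) A ∅ i : ℤ) - beta G (pull ℝ a) A ∅ i) ≤ _
    rw [sub_self, mul_zero]
    positivity
  | succ k ih =>
    intro A B hAB hk hv N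
    obtain ⟨v, hvm⟩ : (B \ A).Nonempty := by
      rw [← Set.ncard_pos]; omega
    have h1 : B \ insert v A = (B \ A) \ {v} := by
      ext x
      simp only [Set.mem_sdiff, Set.mem_insert_iff, Set.mem_singleton_iff]
      tauto
    have h2 := Set.ncard_sdiff_singleton_add_one hvm (Set.toFinite _)
    obtain ⟨E1, h3, h4⟩ := ih (insert v A) B (Set.insert_subset hvm.1 hAB) (by rw [h1]; omega)
      (fun u hu C hC => hv u ⟨hu.1, fun h => hu.2 (Set.mem_insert_of_mem _ h)⟩ C hC) (2 * N)
    obtain ⟨E2, h5, h6⟩ := AsyX.step (G := G) hvm.2 (hv v hvm A hAB) (2 * N)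
    refine ⟨E1 ∪ E2, fun h => (Finset.mem_union.1 h).elim h3 h5, fun X _ a ev k1 k2 e1 e2 e3 e4 => ?_⟩
    have h7 := h4 X a ev k1 k2 e1 e2 e3 fun g hg => e4 g (Finset.mem_union_left _ hg)
    have h8 := h6 X a ev k1 k2 e1 e2 e3 fun g hg => e4 g (Finset.mem_union_right _ hg)
    push_cast at h7 h8
    nlinarith

/-- The Betti numbers of the preimages of full subcomplexes in the finite coverings, in the middle
degree and above. -/
theorem growth_sub {n i : ℕ} (hP : P n G) (hi : n ≤ 2 * i) {A B : Set V} (hAB : A ⊆ B)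
    (ε : ℝ) (hε : 0 < ε) :
    ∃ E : Finset (W G), (1 : W G) ∉ E ∧ ∀ H : Subgroup (W G), H.FiniteIndex →
      (∀ g ∈ E, ∀ x : W G, x * g * x⁻¹ ∉ H) →
        (finrank ℝ (HInvOn G A H i) : ℝ) ≤ finrank ℝ (HInvOn G B H i) + ε * H.index := by
  classical
  obtain ⟨N, hN⟩ := exists_nat_gt (1 / ε)
  have hN0 : (0 : ℝ) < N := lt_of_le_of_lt (by positivity) hN
  have hNε : 1 < N * ε := (div_lt_iff₀ hε).1 hN
  obtain ⟨E, h1, h2⟩ := AsyX.steps (G := G) (i := i) _ A B hAB rfl (fun v _ C _ => by
    refine hP.2 {v} (by simp) _ ?_ i (by rw [Finset.card_singleton]; omega)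
    intro a ha u hu
    rw [Finset.mem_singleton] at hu
    subst hu
    exact ha.2) N
  refine ⟨E, h1, fun H hfin hE => ?_⟩
  have : Finite (Quotient (QuotientGroup.rightRel H)) :=
    Finite.of_equiv _ (QuotientGroup.quotientRightRelEquivQuotientLeftRel H).symm
  let _ : Fintype (Quotient (QuotientGroup.rightRel H)) := Fintype.ofFinite _
  have hcard : Fintype.card (Quotient (QuotientGroup.rightRel H)) = H.index := by
    rw [← Nat.card_eq_fintype_card, Nat.card_congr (QuotientGroup.quotientRightRelEquivQuotientLeftRel H)]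
    rfl
  have h4 := h2 _ (aa G H) (ev G H) (aa_inv G H) (fun u v h x => aa_comm G H u v h x)
    (ev_one G H) (ev_mul G H) (fun _ _ => rfl) (fun g hg x => ev_free G H (fun y => hE g hg y) x)
  rw [hcard] at h4
  rw [finrank_HInvOn, finrank_HInvOn]
  have h5 : (N : ℝ) * ((beta G (pull ℝ (aa G H)) A ∅ i : ℝ) - beta G (pull ℝ (aa G H)) B ∅ i) ≤ H.index := by
    exact_mod_cast h4
  have hidx : (0 : ℝ) ≤ H.index := Nat.cast_nonneg _
  by_contra hcon
  push Not at hcon
  have h6 : ε * H.index < (beta G (pull ℝ (aa G H)) A ∅ i : ℝ) - beta G (pull ℝ (aa G H)) B ∅ i := by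
    linarith
  have h7 : (N : ℝ) * (ε * H.index) < N * ((beta G (pull ℝ (aa G H)) A ∅ i : ℝ) -
      beta G (pull ℝ (aa G H)) B ∅ i) := mul_lt_mul_of_pos_left h6 hN0
  have h8 : (H.index : ℝ) ≤ N * ε * H.index := by nlinarith
  nlinarith

theorem HInvOn_zero {G : SimpleGraph V} {A : Set V} {H : Subgroup (W G)} {i : ℕ}
    (hi : Fintype.card V < i) : HInvOn G A H i = ⊥ := by
  rw [Submodule.eq_bot_iff]
  intro c hc
  funext w T
  refine hc.2.1 w T ?_
  rintro ⟨_, _, h⟩
  have := Finset.card_le_univ T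
  omega

/-- above the middle degree -/
theorem above_sub {n i : ℕ} (hP : P n G) (hi : n < 2 * i) (A : Set V) (ε : ℝ) (hε : 0 < ε) :
    ∃ E : Finset (W G), (1 : W G) ∉ E ∧ ∀ H : Subgroup (W G), H.FiniteIndex →
      (∀ g ∈ E, ∀ x : W G, x * g * x⁻¹ ∉ H) →
        (finrank ℝ (HInvOn G A H i) : ℝ) ≤ ε * H.index := by
  classical
  obtain ⟨N, hN⟩ := exists_nat_gt (1 / ε)
  have hN0 : (0 : ℝ) < N := lt_of_le_of_lt (by positivity) hN
  have hNε : 1 < N * ε := (div_lt_iff₀ hε).1 hN
  obtain ⟨E, h1, h2⟩ := AsyX.bet_of (G := G) (A := A) (i := i)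
    (hP.2 ∅ (by simp) _ (by intro a _ u hu; simp at hu) i (by rw [Finset.card_empty]; omega)) N
  refine ⟨E, h1, fun H hfin hE => ?_⟩
  have : Finite (Quotient (QuotientGroup.rightRel H)) :=
    Finite.of_equiv _ (QuotientGroup.quotientRightRelEquivQuotientLeftRel H).symm
  let _ : Fintype (Quotient (QuotientGroup.rightRel H)) := Fintype.ofFinite _
  have hcard : Fintype.card (Quotient (QuotientGroup.rightRel H)) = H.index := by
    rw [← Nat.card_eq_fintype_card, Nat.card_congr (QuotientGroup.quotientRightRelEquivQuotientLeftRel H)]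
    rfl
  have h4 := h2 _ (aa G H) (ev G H) (aa_inv G H) (fun u v h x => aa_comm G H u v h x)
    (ev_one G H) (ev_mul G H) (fun _ _ => rfl) (fun g hg x => ev_free G H (fun y => hE g hg y) x)
  rw [hcard] at h4
  rw [finrank_HInvOn]
  have h4' : (N : ℤ) * (beta G (pull ℝ (aa G H)) A ∅ i : ℤ) ≤ (H.index : ℤ) := h4
  have h5 : (N : ℝ) * (beta G (pull ℝ (aa G H)) A ∅ i : ℝ) ≤ H.index := by
    exact_mod_cast h4'
  have hidx : (0 : ℝ) ≤ H.index := Nat.cast_nonneg _
  have h6 : (0 : ℝ) ≤ (beta G (pull ℝ (aa G H)) A ∅ i : ℝ) := Nat.cast_nonneg _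
  have h7 : (beta G (pull ℝ (aa G H)) A ∅ i : ℝ) ≤ N * ε * (beta G (pull ℝ (aa G H)) A ∅ i : ℝ) := by
    nlinarith
  nlinarith

/-- the uniform version -/
theorem uniform_sub {n : ℕ} (hP : P n G) (ε : ℝ) (hε : 0 < ε) :
    ∃ E : Finset (W G), (1 : W G) ∉ E ∧ ∀ H : Subgroup (W G), H.FiniteIndex →
      (∀ g ∈ E, ∀ x : W G, x * g * x⁻¹ ∉ H) → ∀ A B : Set V, A ⊆ B → ∀ i : ℕ,
        (n ≤ 2 * i → (finrank ℝ (HInvOn G A H i) : ℝ) ≤ finrank ℝ (HInvOn G B H i) + ε * H.index) ∧
        (n < 2 * i → (finrank ℝ (HInvOn G A H i) : ℝ) ≤ ε * H.index) := by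
  classical
  have h1 : ∀ (A B : Set V) (i : ℕ), ∃ E : Finset (W G), (1 : W G) ∉ E ∧ ∀ H : Subgroup (W G),
      H.FiniteIndex → (∀ g ∈ E, ∀ x : W G, x * g * x⁻¹ ∉ H) → A ⊆ B →
        (n ≤ 2 * i → (finrank ℝ (HInvOn G A H i) : ℝ) ≤ finrank ℝ (HInvOn G B H i) + ε * H.index) ∧
        (n < 2 * i → (finrank ℝ (HInvOn G A H i) : ℝ) ≤ ε * H.index) := by
    intro A B i
    have ha : ∃ E : Finset (W G), (1 : W G) ∉ E ∧ ∀ H : Subgroup (W G),
        H.FiniteIndex → (∀ g ∈ E, ∀ x : W G, x * g * x⁻¹ ∉ H) → A ⊆ B →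
        n ≤ 2 * i → (finrank ℝ (HInvOn G A H i) : ℝ) ≤ finrank ℝ (HInvOn G B H i) + ε * H.index := by
      by_cases h : A ⊆ B ∧ n ≤ 2 * i
      · obtain ⟨E, h2, h3⟩ := growth_sub hP h.2 h.1 ε hε
        exact ⟨E, h2, fun H hf hE _ _ => h3 H hf hE⟩
      · exact ⟨∅, Finset.notMem_empty _, fun H _ _ k1 k2 => absurd ⟨k1, k2⟩ h⟩
    have hb : ∃ E : Finset (W G), (1 : W G) ∉ E ∧ ∀ H : Subgroup (W G),
        H.FiniteIndex → (∀ g ∈ E, ∀ x : W G, x * g * x⁻¹ ∉ H) →
        n < 2 * i → (finrank ℝ (HInvOn G A H i) : ℝ) ≤ ε * H.index := by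
      by_cases h : n < 2 * i
      · obtain ⟨E, h2, h3⟩ := above_sub hP h A ε hε
        exact ⟨E, h2, fun H hf hE _ => h3 H hf hE⟩
      · exact ⟨∅, Finset.notMem_empty _, fun H _ _ k1 => absurd k1 h⟩
    obtain ⟨E1, a1, a2⟩ := ha
    obtain ⟨E2, b1, b2⟩ := hb
    exact ⟨E1 ∪ E2, fun h => (Finset.mem_union.1 h).elim a1 b1, fun H hf hE hAB =>
      ⟨a2 H hf (fun g hg => hE g (Finset.mem_union_left _ hg)) hAB,
        b2 H hf (fun g hg => hE g (Finset.mem_union_right _ hg))⟩⟩
  choose Ef h2 h3 using h1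
  refine ⟨(Finset.univ ×ˢ Finset.univ ×ˢ Finset.range (Fintype.card V + 1)).biUnion
    (fun p : Finset V × Finset V × ℕ => Ef p.1 p.2.1 p.2.2), ?_, ?_⟩
  · rw [Finset.mem_biUnion]
    rintro ⟨p, _, h⟩
    exact h2 _ _ _ h
  intro H hfin hE A B hAB i
  by_cases hi : Fintype.card V < i
  · rw [HInvOn_zero hi, HInvOn_zero hi, finrank_bot, Nat.cast_zero, zero_add]
    exact ⟨fun _ => by positivity, fun _ => by positivity⟩
  · have hA : ((Set.toFinite A).toFinset : Set V) = A := (Set.toFinite A).coe_toFinset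
    have hB : ((Set.toFinite B).toFinset : Set V) = B := (Set.toFinite B).coe_toFinset
    refine h3 A B i H hfin (fun g hg x => hE g (Finset.mem_biUnion.2
      ⟨((Set.toFinite A).toFinset, (Set.toFinite B).toFinset, i), ?_, ?_⟩) x) hAB
    · exact Finset.mem_product.2 ⟨Finset.mem_univ _, Finset.mem_product.2 ⟨Finset.mem_univ _,
        Finset.mem_range.2 (by simp only; omega)⟩⟩
    · simp only [hA, hB]
      exact hg

end Pool.Agent.X250.Sph
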