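import Pool.Agent.X250.Sph.Morse2

/-!
# Morse criteria for homology spheres
-/

set_option autoImplicit false
set_option linter.unusedSectionVars false

namespace Pool.Agent.X250.Sph

open Module Pool.Agent.W907.SG Pool.Agent.W907.SM Pool.Agent.TH652.Above Pool.Agent.Y132.SI
open Pool.Agent.TH652.Dual (triv duality_sgn)

variable {V : Type} [Fintype V] [LinearOrder V] {G : SimpleGraph V}

/-- there is a slope such that the `i`-th Betti numbers of the descending links vanish -/
def HasSlope {V : Type} [Fintype V] [LinearOrder V] (G : SimpleGraph V) (i : ℕ) : Prop :=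
  ∃ (X : Type) (_ : Fintype X) (_ : Nonempty X) (s : Slope G X), ∀ x, beta G (triv V) (s.down x) ∅ i = 0

theorem HasSlope.l2van {i : ℕ} (h : HasSlope G i) : L2Van G i := by
  obtain ⟨X, _, _, s, hs⟩ := h
  exact s.l2van i hs

/-- the links of the maximal faces -/
theorem FaceP.zero {k : ℕ} (hS : HSph (2 * 0 + k) G) : FaceP 0 k G := by
  intro T hT hk
  have h1 : ∀ x, x ∉ lk G T := by
    intro x hx
    have hxT : x ∉ T := fun h => G.irrefl (hx x h)
    have hcl : G.IsClique ((insert x T : Finset V) : Set V) := by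
      rw [Finset.coe_insert, SimpleGraph.isClique_insert]
      exact ⟨hT, fun t ht _ => hx t ht⟩
    have h2 := card_le_of_hSph hS (insert x T) hcl
    rw [Finset.card_insert_of_notMem hxT] at h2
    omega
  have : IsEmpty ↥(lk G T) := ⟨fun x => h1 x.1 x.2⟩
  refine ⟨inferInstance, fun S _ A _ i hi => ?_⟩
  have hS0 : S = ∅ := Finset.eq_empty_of_isEmpty S
  rw [hS0, Finset.card_empty] at hi
  have hA0 : A = ∅ := Set.eq_empty_of_isEmpty A
  rw [hA0]
  exact lempty _ _ i (by omega)

/-- the Singer conjecture -/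
theorem FaceP.morse {j k : ℕ} (h : FaceP j (k + 1) G) (hS : HSph (2 * j + (k + 1)) G)
    (hs : ∀ i, 2 * j + (k + 1) < 2 * i → i ≤ j + (k + 1) → HasSlope G i) {i : ℕ}
    (hi : 2 * i ≠ 2 * j + (k + 1)) : L2Van G i := by
  have h1 : ∀ i, 2 * j + (k + 1) < 2 * i → L2Van G i := by
    intro i hi
    by_cases h2 : i ≤ j + (k + 1)
    · exact (hs i hi h2).l2van
    · exact (lv_univ G i).1 (FaceP.above h Set.univ (by omega)) _ _
  exact singer_of_above hS (fun i hi => h1 i hi) i hi

/-- the Charney-Davis quantity and the descending links -/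
theorem FaceP.morse_bound {j : ℕ} (h : FaceP j 2 G) (hS : HSph (2 * j + 2) G) {X : Type} [Fintype X] [Nonempty X]
    (s : Slope G X) : 0 ≤ (-1 : ℝ) ^ (j + 1) * (chiW G : ℝ) + 2 * s.avg j ∧
      0 ≤ (-1 : ℝ) ^ (j + 1) * (chiW G : ℝ) + 2 * s.avg (j + 2) := by
  classical
  have key : ∀ c : ℝ, (c = s.avg j ∨ c = s.avg (j + 2)) → 0 ≤ (-1 : ℝ) ^ (j + 1) * (chiW G : ℝ) + 2 * c := by
    intro c hc
    by_contra hcon
    push Not at hcon
    obtain ⟨δ, hδ⟩ : ∃ δ : ℝ, δ = -((-1 : ℝ) ^ (j + 1) * (chiW G : ℝ) + 2 * c) := ⟨_, rfl⟩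
    have hδ0 : 0 < δ := by
      rw [hδ]
      linarith
    obtain ⟨K, hK⟩ : ∃ K : ℕ, K = Fintype.card V + 1 := ⟨_, rfl⟩
    have hK0 : (0 : ℝ) < K := by rw [hK]; positivity
    have h2 := Evt.forall (G := G) ((Finset.range K).filter (fun i => i < j ∨ j + 2 < i))
      (fun i X _ a => (beta G (pull ℝ a) Set.univ ∅ i : ℝ) ≤ δ / (8 * K) * Fintype.card X)
      (fun i hi => by
        have hL : L2Van G i := by
          have hab : ∀ i, j + 2 < i → L2Van G i := fun i hi =>
            (lv_univ G i).1 (FaceP.above (k := 1) h Set.univ (by omega)) _ _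
          rcases (Finset.mem_filter.1 hi).2 with h3 | h3
          · exact Pool.Agent.TH652.Dual.l2_duality (n := 2 * j + 2) hS (i := i) (j := 2 * j + 2 - i)
              (by omega) (hab _ (by omega))
          · exact hab i h3
        exact evt_small ((lv_univ G i).2 (LV_of hL)) _ (by positivity))
    obtain ⟨E, hE, hE2⟩ := h2.and (evt_sigma G)
    obtain ⟨Y, fY, nY, a, sgn, hfar, sg1, sg2, hb⟩ := s.far (δ / 8) (by positivity) E hE
    obtain ⟨h4, hX, h5⟩ := hE2 Y a hfar
    have hXp : (0 : ℝ) < Fintype.card Y := by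
      have := Fintype.card_pos (α := Y)
      exact_mod_cast this
    obtain ⟨b, hbd⟩ : ∃ b : ℕ → ℝ, b = fun i => (beta G (pull ℝ a) Set.univ ∅ i : ℝ) := ⟨_, rfl⟩
    have hb0 : ∀ i, 0 ≤ b i := by intro i; rw [hbd]; exact Nat.cast_nonneg _
    have hbi : ∀ i, (beta G (pull ℝ a) Set.univ ∅ i : ℝ) = b i := by intro i; rw [hbd]
    have heul := congrArg (fun q : ℚ => (q : ℝ)) (beta_sum' (two_ne_zero : (2 : ℝ) ≠ 0) G a hfar.1 hfar.2.1
      (fun T t ht hc => h5 T t ht (by convert hc)))
    push_cast at heul
    simp only [hbi] at h4 heul hb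
    rw [← hK] at heul
    have hdual : b j = b (j + 2) := by
      rw [← hbi, ← hbi]
      exact_mod_cast duality_sgn hS hfar.1 hfar.2.1 sg1 sg2 (by omega)
    obtain ⟨B, hB⟩ : ∃ B : ℝ, B = (c + δ / 8) * Fintype.card Y := ⟨_, rfl⟩
    have h3' : b (j + 2) ≤ B := by
      rw [hB]
      rcases hc with rfl | rfl
      · rw [← hdual]
        exact hb j
      · exact hb (j + 2)
    have hB0 : 0 ≤ B := (hb0 _).trans h3'
    obtain ⟨r, hr⟩ : ∃ r : ℝ, r = δ / (8 * K) * Fintype.card Y := ⟨_, rfl⟩
    have hr0 : 0 ≤ r := by rw [hr]; positivity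
    have h6 : ∀ i ∈ Finset.range K, -((if i = j then B else 0) + (if i = j + 2 then B else 0) + r) ≤
        (-1 : ℝ) ^ (j + 1) * ((-1 : ℝ) ^ i * b i) := by
      intro i hi
      have h7 : |(-1 : ℝ) ^ (j + 1) * ((-1 : ℝ) ^ i * b i)| = b i := by
        rw [abs_mul, abs_mul, abs_pow, abs_pow, abs_neg, abs_one, one_pow, one_pow, one_mul, one_mul,
          abs_of_nonneg (hb0 i)]
      have h8 : - b i ≤ (-1 : ℝ) ^ (j + 1) * ((-1 : ℝ) ^ i * b i) := by
        have := neg_abs_le ((-1 : ℝ) ^ (j + 1) * ((-1 : ℝ) ^ i * b i))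
        rwa [h7] at this
      by_cases e1 : i = j
      · subst e1
        rw [if_pos rfl, if_neg (by omega)]
        linarith [hdual, h3']
      · by_cases e2 : i = j + 2
        · subst e2
          rw [if_neg (by omega), if_pos rfl]
          linarith
        · by_cases e3 : i = j + 1
          · subst e3
            rw [if_neg e1, if_neg e2, ← mul_assoc, ← mul_pow]
            norm_num
            linarith [hb0 (j + 1)]
          · rw [if_neg e1, if_neg e2]
            have h9 := h4 i (Finset.mem_filter.2 ⟨hi, by omega⟩)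
            rw [← hr] at h9
            linarith
    have h7 := Finset.sum_le_sum h6
    rw [← Finset.mul_sum, heul, Finset.sum_neg_distrib, Finset.sum_add_distrib, Finset.sum_add_distrib,
      Finset.sum_const, Finset.card_range, nsmul_eq_mul] at h7
    have h8 : ∀ t : ℕ, ∑ i ∈ Finset.range K, (if i = t then B else 0) ≤ B := by
      intro t
      rw [Finset.sum_ite_eq']
      split_ifs
      · exact le_rfl
      · exact hB0
    have h9 := h8 j
    have h10 := h8 (j + 2)
    have h11 : (K : ℝ) * r = δ / 8 * Fintype.card Y := by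
      rw [hr]
      field_simp
    have h12 : (-1 : ℝ) ^ (j + 1) * (chiW G : ℝ) = -δ - 2 * c := by
      rw [hδ]; ring
    have h13 : (-1 : ℝ) ^ (j + 1) * ((Fintype.card Y : ℝ) * (chiW G : ℝ)) =
        (-δ - 2 * c) * Fintype.card Y := by
      rw [← h12]; ring
    rw [h13, h11] at h7
    have h14 : B = c * Fintype.card Y + 1 / 8 * (δ * Fintype.card Y) := by
      rw [hB]; ring
    have h15 : (-δ - 2 * c) * Fintype.card Y = -(δ * Fintype.card Y) - 2 * (c * Fintype.card Y) := by
      ring
    have h16 : δ / 8 * (Fintype.card Y : ℝ) = 1 / 8 * (δ * Fintype.card Y) := by ring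
    rw [h15, h16] at h7
    linarith [mul_pos hδ0 hXp]
  exact ⟨key _ (Or.inl rfl), key _ (Or.inr rfl)⟩

/-- all subsets -/
def cubeSlope (G : SimpleGraph V) : Slope G (V → Bool) where
  a v x := Function.update x v (!(x v))
  inv v x := by
    funext u
    by_cases h : u = v
    · subst h
      simp
    · simp [Function.update_of_ne h]
  comm u v h x := by
    funext w
    have huv : u ≠ v := h.ne
    by_cases h1 : w = u
    · subst h1
      rw [Function.update_self, Function.update_of_ne huv, Function.update_of_ne huv, Function.update_self]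
    · by_cases h2 : w = v
      · subst h2
        rw [Function.update_of_ne h1, Function.update_self, Function.update_self, Function.update_of_ne h1]
      · rw [Function.update_of_ne h1, Function.update_of_ne h2, Function.update_of_ne h2, Function.update_of_ne h1]
  dn v x := x v
  self v x := by
    show Function.update x v (!(x v)) v = !(x v)
    rw [Function.update_self]
  other u v h x := by
    show Function.update x v (!(x v)) u = x u
    rw [Function.update_of_ne h.ne]

theorem cube_avg (i : ℕ) : (cubeSlope G).avg i =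
    (∑ A : Finset V, (beta G (triv V) (A : Set V) ∅ i : ℝ)) / 2 ^ Fintype.card V := by
  classical
  unfold Slope.avg
  rw [Fintype.card_fun, Fintype.card_bool]
  push_cast
  congr 1
  refine Fintype.sum_bijective (fun x : V → Bool => Finset.univ.filter fun v => x v = true) ?_ _ _ ?_
  · constructor
    · intro x y hxy
      funext v
      have h1 := congrArg (fun A : Finset V => v ∈ A) hxy
      simp only [Finset.mem_filter, Finset.mem_univ, true_and, eq_iff_iff] at h1
      rcases hx : x v with _ | _ <;> rcases hy : y v with _ | _ <;> simp_all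
    · intro A
      refine ⟨fun v => decide (v ∈ A), ?_⟩
      ext v
      simp
  · intro x
    have h1 : (cubeSlope G).down x = ((Finset.univ.filter fun v => x v = true : Finset V) : Set V) := by
      ext v
      rw [Finset.coe_filter]
      simp only [Finset.mem_univ, true_and, Set.mem_ofPred_eq]
      exact Iff.rfl
    rw [h1]

end Pool.Agent.X250.Sph
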