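import Pool.Agent.X250.Sph.OneDeg
import Pool.Agent.X250.Sph.MorseS
import Pool.Agent.X250.Sph.Small

/-!
# Slopes of the links
-/

set_option autoImplicit false
set_option linter.unusedSectionVars false

namespace Pool.Agent.X250.Sph

open Module Pool.Agent.W907.SG Pool.Agent.W907.SM Pool.Agent.TH652.Above Pool.Agent.Y132.SI

variable {V : Type} [Fintype V] [LinearOrder V] {G : SimpleGraph V}

/-- the links of the faces of a face whose link is in the class `AM n` -/
theorem lv_AM_lk {n i : ℕ} {S T : Finset V} (hST : S ⊆ T) (hT : G.IsClique (T : Set V))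
    (h : AM n (G.induce (lk G S))) (hi : n < 2 * i + (T.card - S.card)) : LV (G.induce (lk G T)) i := by
  classical
  have hsub : ((T \ S : Finset V) : Set V) ⊆ lk G S := by
    intro x hx s hs
    have hx' := Finset.mem_sdiff.1 (Finset.mem_coe.1 hx)
    exact hT hx'.1 (hST hs) fun e => hx'.2 (e.symm ▸ hs)
  have hcard : (cut (lk G S) (T \ S)).card = T.card - S.card := by
    have h2 := congrArg Finset.card (map_cut (A := lk G S) hsub)
    rw [Finset.card_map] at h2
    rw [h2, Finset.card_sdiff_of_subset hST]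
  have h1 := (P_of_AM h).2 (cut (lk G S) (T \ S)) (by
    intro a ha b hb hab
    have ha' := (mem_cut (A := lk G S)).1 (Finset.mem_coe.1 ha)
    have hb' := (mem_cut (A := lk G S)).1 (Finset.mem_coe.1 hb)
    exact hT (Finset.mem_sdiff.1 ha').1 (Finset.mem_sdiff.1 hb').1 fun e => hab (Subtype.ext e))
    {x | x.1 ∈ lk G T} (by
      intro x hx u hu
      have hu' := (mem_cut (A := lk G S)).1 hu
      exact (hx u.1 (Finset.mem_sdiff.1 hu').1).symm) i (by rw [hcard]; exact hi)
  rw [lv_sub] at h1
  refine lv_set ?_ h1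
  ext x
  simp only [Set.mem_image, Set.mem_ofPred_eq, Subtype.exists, exists_and_left,
    exists_prop, exists_eq_right_right]
  exact ⟨fun hx => ⟨hx, fun s hs => hx s (hST hs)⟩, fun hx => hx.1⟩

/-- the top degree -/
theorem HSph.top {k : ℕ} (hS : HSph k G) (hk : 1 ≤ k) : L2Van G k := by
  obtain ⟨n, rfl⟩ := Nat.exists_eq_add_of_le' hk
  exact Pool.Agent.TH652.Dual.l2_duality (n := n + 1) hS (i := n + 1) (j := 0) (by omega) (l2van_zero hS)

/-- the criteria for the links -/
theorem lv_crit {k : ℕ} {T : Finset V} (hT : G.IsClique (T : Set V))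
    (h : (∃ S : Finset V, S ⊆ T ∧ AM (2 * k - 1 + (T.card - S.card)) (G.induce (lk G S))) ∨
      (∀ S : Finset V, G.IsClique (S : Set V) → (S : Set V) ⊆ lk G T → S.card < k) ∨
      ∀ _ : Fintype ↥(lk G T), HSph k (G.induce (lk G T)) ∨ HasSlope (G.induce (lk G T)) k) (hk : 1 ≤ k) :
    LV (G.induce (lk G T)) k := by
  classical
  rcases h with ⟨S, hST, h⟩ | h | h
  · exact lv_AM_lk hST hT h (by omega)
  · exact lv_small h
  · rcases h inferInstance with h | h
    · exact LV_of (HSph.top h hk)
    · exact LV_of h.l2van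

end Pool.Agent.X250.Sph
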