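import Pool.Agent.X250.Sph.Links
import Pool.Agent.Y365.FS.Wt

/-!
# Monotonicity in the weights
-/

set_option autoImplicit false
set_option linter.unusedSectionVars false

namespace Pool.Agent.X250.Sph

open Pool.Agent.W907.SG Pool.Agent.W907.SM Pool.Agent.TH652.Above
open Pool.Agent.W497.FS (cl lkF lam fe mem_cl mem_lkF)
open Y365.FS (hp hp_insert Dh Dh_insert bN weighted_eq ordM)

section alg

variable {β : Type} [DecidableEq β]

theorem Dh_zero (c : Finset β → ℚ) {T : Finset β} {v : β} (hv : v ∉ T) (hl : ∀ u ∈ T, c {v, u} = 0) :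
    Dh c (insert v T) = 0 := by
  rw [Dh_insert c hv]
  refine Finset.sum_eq_zero fun U hU => ?_
  rw [Finset.mem_powerset] at hU
  rw [hp_insert c (fun h => hv (hU h)), Finset.prod_eq_one (fun u hu => by
    rw [hl u (hU hu), sub_zero]), mul_one, sub_self, mul_zero]

theorem Dh_pair (c : Finset β → ℚ) {T : Finset β} {u v : β} (hu : u ∉ T) (hv : v ∉ T) (hvu : v ≠ u)
    (hz1 : ∀ z ∈ T, c {v, z} = 0) (hz2 : ∀ z ∈ T, c {u, z} = 0) :
    Dh c (insert v (insert u T)) = -c {v, u} * Dh c T := by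
  have hvT' : v ∉ insert u T := fun h => (Finset.mem_insert.1 h).elim hvu hv
  rw [Dh_insert c hvT', Finset.sum_powerset_insert hu, ← Finset.sum_add_distrib, Dh, Finset.mul_sum]
  refine Finset.sum_congr rfl fun U hU => ?_
  rw [Finset.mem_powerset] at hU
  have h1 : u ∉ U := fun h => hu (hU h)
  have h2 : v ∉ U := fun h => hv (hU h)
  have h3 := Finset.card_le_card hU
  have h4 : v ∉ insert u U := fun h => by
    rcases Finset.mem_insert.1 h with h | h
    · exact hvu h
    · exact h2 h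
  rw [hp_insert c h4, hp_insert c h1, hp_insert c h2, Finset.prod_insert h1,
    Finset.prod_eq_one (fun z hz => by rw [hz1 z (hU hz), sub_zero]),
    Finset.prod_eq_one (fun z hz => by rw [hz2 z (hU hz), sub_zero]),
    Finset.card_insert_of_notMem hu, Finset.card_insert_of_notMem h1]
  have e2 : T.card + 1 - (U.card + 1) = T.card - U.card := by omega
  rw [e2]
  ring

theorem Dh_mono (c c' : Finset β → ℚ) (hc : ∀ e, 0 ≤ c e ∧ c e ≤ c' e) : ∀ (k : ℕ) (T : Finset β), T.card = k →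
    (∀ u ∈ T, ∀ v ∈ T, ∀ z ∈ T, u ≠ v → u ≠ z → v ≠ z → c' {u, v} = 0 ∨ c' {u, z} = 0) →
    (Odd T.card → Dh c T = 0) ∧
      ∀ j, T.card = 2 * j → 0 ≤ (-1) ^ j * Dh c T ∧ (-1) ^ j * Dh c T ≤ (-1) ^ j * Dh c' T := by
  have hzero : ∀ e, c' e = 0 → c e = 0 := fun e he => le_antisymm (he ▸ (hc e).2) (hc e).1
  intro k
  induction k using Nat.strong_induction_on with
  | _ k ih =>
    intro T hT hm
    rcases T.eq_empty_or_nonempty with rfl | ⟨v, hv⟩
    · refine ⟨fun h => by simp at h, fun j hj => ?_⟩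
      obtain rfl : j = 0 := by simpa using hj.symm
      have h0 : (∅ : Finset β).powersetCard 2 = ∅ := by
        rw [Finset.powersetCard_eq_empty]; simp
      simp [Dh, hp, h0]
    obtain ⟨T', hvT', rfl⟩ : ∃ T', v ∉ T' ∧ insert v T' = T :=
      ⟨T.erase v, Finset.notMem_erase v T, Finset.insert_erase hv⟩
    by_cases hl : ∀ u ∈ T', c' {v, u} = 0
    · rw [Dh_zero c hvT' (fun u hu => hzero _ (hl u hu)), Dh_zero c' hvT' hl]
      exact ⟨fun _ => rfl, fun j _ => by simp⟩
    · push Not at hl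
      obtain ⟨u, hu, hcu⟩ := hl
      obtain ⟨T'', huT'', rfl⟩ : ∃ T'', u ∉ T'' ∧ insert u T'' = T' :=
        ⟨T'.erase u, Finset.notMem_erase u T', Finset.insert_erase hu⟩
      have hvu : v ≠ u := fun h => hvT' (h ▸ Finset.mem_insert_self u T'')
      have hvT'' : v ∉ T'' := fun h => hvT' (Finset.mem_insert_of_mem h)
      have hz1 : ∀ z ∈ T'', c' {v, z} = 0 := by
        intro z hz
        have hzv : v ≠ z := fun h => hvT'' (h ▸ hz)
        have hzu : u ≠ z := fun h => huT'' (h ▸ hz)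
        rcases hm v (Finset.mem_insert_self _ _) u
          (Finset.mem_insert_of_mem (Finset.mem_insert_self _ _)) z
          (Finset.mem_insert_of_mem (Finset.mem_insert_of_mem hz)) hvu hzv hzu with h | h
        · exact absurd h hcu
        · exact h
      have hz2 : ∀ z ∈ T'', c' {u, z} = 0 := by
        intro z hz
        have hzv : v ≠ z := fun h => hvT'' (h ▸ hz)
        have hzu : u ≠ z := fun h => huT'' (h ▸ hz)
        rcases hm u (Finset.mem_insert_of_mem (Finset.mem_insert_self _ _)) v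
          (Finset.mem_insert_self _ _) z
          (Finset.mem_insert_of_mem (Finset.mem_insert_of_mem hz)) hvu.symm hzu hzv with h | h
        · rw [Finset.pair_comm] at h
          exact absurd h hcu
        · exact h
      have key := Dh_pair c huT'' hvT'' hvu (fun z hz => hzero _ (hz1 z hz)) (fun z hz => hzero _ (hz2 z hz))
      have key' := Dh_pair c' huT'' hvT'' hvu hz1 hz2
      have hc1 : (insert v (insert u T'')).card = T''.card + 2 := by
        rw [Finset.card_insert_of_notMem hvT', Finset.card_insert_of_notMem huT'']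
      obtain ⟨i1, i2⟩ := ih T''.card (by omega) T'' rfl (fun a ha b hb z hz => hm a
        (Finset.mem_insert_of_mem (Finset.mem_insert_of_mem ha)) b
        (Finset.mem_insert_of_mem (Finset.mem_insert_of_mem hb)) z
        (Finset.mem_insert_of_mem (Finset.mem_insert_of_mem hz)))
      rw [key, key', hc1]
      refine ⟨fun h => ?_, fun j hj => ?_⟩
      · rw [i1 (by rw [Nat.odd_iff] at h ⊢; omega), mul_zero]
      · obtain ⟨j, rfl⟩ : ∃ j', j = j' + 1 := ⟨j - 1, by omega⟩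
        obtain ⟨h1, h2⟩ := i2 j (by omega)
        have e1 : (-1 : ℚ) ^ (j + 1) * (-c {v, u} * Dh c T'') =
            c {v, u} * ((-1) ^ j * Dh c T'') := by rw [pow_succ]; ring
        have e2 : (-1 : ℚ) ^ (j + 1) * (-c' {v, u} * Dh c' T'') =
            c' {v, u} * ((-1) ^ j * Dh c' T'') := by rw [pow_succ]; ring
        rw [e1, e2]
        exact ⟨mul_nonneg (hc _).1 h1, mul_le_mul (hc _).2 h2 h1 ((hc _).1.trans (hc _).2)⟩

theorem Dh_two (c : Finset β → ℚ) {e : Finset β} (he : e.card = 2) : Dh c e = -c e := by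
  obtain ⟨u, v, huv, rfl⟩ := Finset.card_eq_two.1 he
  have h0 : (∅ : Finset β).powersetCard 2 = ∅ := by
    rw [Finset.powersetCard_eq_empty]; simp
  have h1 := Dh_pair c (T := ∅) (u := v) (v := u) (Finset.notMem_empty _) (Finset.notMem_empty _) huv
    (fun z hz => absurd hz (Finset.notMem_empty z)) (fun z hz => absurd hz (Finset.notMem_empty z))
  have h2 : Dh c ∅ = 1 := by simp [Dh, hp, h0]
  rw [h2, mul_one] at h1
  exact h1

/-- the numbers `N` -/
theorem bN_hp (c : Finset β → ℚ) (T : Finset β) :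
    bN (fun σ => ((1 / 2 : ℚ) ^ σ.card * hp c σ)⁻¹) T = (1 / 2) ^ T.card * Dh c T := by
  rw [bN, Dh, Finset.mul_sum]
  refine Finset.sum_congr rfl fun U hU => ?_
  rw [Finset.mem_powerset] at hU
  have h1 := Finset.card_le_card hU
  obtain ⟨k, hk⟩ := Nat.exists_eq_add_of_le h1
  rw [div_inv_eq_mul, hk, Nat.add_sub_cancel_left, pow_add]
  have h3 : (-1 / 2 : ℚ) = -1 * (1 / 2) := by norm_num
  rw [h3, mul_pow]
  ring

end alg

section fin

variable {V : Type} [Fintype V] [LinearOrder V] {G : SimpleGraph V}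

open scoped Classical in
/-- the faces of the flag complex of `G` -/
noncomputable def fcs (G : SimpleGraph V) : Finset (Finset V) :=
  Finset.univ.filter fun T : Finset V => G.IsClique (T : Set V)

/-- the quantity `ω` with the parameters `c e = 1 - 2 / m e` of the edges -/
noncomputable def om (G : SimpleGraph V) (c : Finset V → ℚ) : ℚ :=
  ∑ σ ∈ fcs G, (-1 / 2) ^ σ.card * ∏ e ∈ σ.powersetCard 2, (1 - c e)

theorem fcs_eq : fcs G = cl G Finset.univ := by
  ext T
  rw [mem_cl_univ, fcs]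
  simp only [Finset.mem_filter, Finset.mem_univ, true_and]

theorem mem_fcs {T : Finset V} : T ∈ fcs G ↔ G.IsClique (T : Set V) := by
  rw [fcs_eq, mem_cl_univ]

theorem om_eq (c : Finset V → ℚ) : om G c =
    ∑ T ∈ fcs G, (-1) ^ T.card * ((1 / 2) ^ T.card * Dh c T) * lam G (lkF G Finset.univ T) := by
  have h1 := weighted_eq (H := G) (fun σ => ((1 / 2 : ℚ) ^ σ.card * hp c σ)⁻¹) Finset.univ
  rw [om, fcs_eq]
  refine Eq.trans (Finset.sum_congr rfl fun σ _ => ?_) (h1.trans (Finset.sum_congr rfl fun T _ => ?_))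
  · rw [div_inv_eq_mul, ← mul_assoc, ← mul_pow]
    have h3 : (-1 / 2 : ℚ) = -1 * (1 / 2) := by norm_num
    rw [h3]
    rfl
  · rw [bN_hp]

open scoped Classical in
/-- the term of a face -/
theorem om_term {m : ℕ} (hS : HSph (2 * m) G) (hP : P (2 * m) G) {c : Finset V → ℚ} {T : Finset V}
    (hT : T ∈ fcs G) (h1 : Odd T.card → Dh c T = 0) (h2 : ∀ j, T.card = 2 * j → 0 ≤ (-1) ^ j * Dh c T) :
    (-1) ^ m * ((-1) ^ T.card * ((1 / 2) ^ T.card * Dh c T) * lam G (lkF G Finset.univ T)) =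
      (1 / 2) ^ T.card * |Dh c T| * |chiW (G.induce (lk G T))| := by
  have hT' : G.IsClique (T : Set V) := mem_fcs.1 hT
  have hcard := card_le_of_hSph hS T hT'
  rcases Nat.even_or_odd T.card with ⟨j, hj⟩ | ho
  · obtain ⟨l, hl⟩ : ∃ l, m = j + l := ⟨m - j, by omega⟩
    obtain ⟨k1, k2, k3⟩ := gap_lk hS hP T hT' l (by omega)
    rw [lam_lk]
    have h3 := h2 j (by omega)
    have h4 : (-1 : ℚ) ^ T.card = 1 := by rw [hj]; exact Even.neg_one_pow ⟨j, rfl⟩
    have h5 : |Dh c T| = (-1) ^ j * Dh c T := by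
      rw [← abs_of_nonneg h3, abs_mul, abs_pow, abs_neg, abs_one, one_pow, one_mul]
    have h6 : |chiW (G.induce (lk G T))| = (-1) ^ l * chiW (G.induce (lk G T)) := by
      rw [← abs_of_nonneg k1, abs_mul, abs_pow, abs_neg, abs_one, one_pow, one_mul]
    rw [h5, h6, h4, hl, pow_add]
    ring
  · rw [h1 ho]
    simp

open scoped Classical in
/-- the formula -/
theorem om_abs {m : ℕ} (hS : HSph (2 * m) G) (hP : P (2 * m) G) {c : Finset V → ℚ} (hc : ∀ e, 0 ≤ c e)
    (hd : ∀ T ∈ fcs G, ∀ u ∈ T, ∀ v ∈ T, ∀ z ∈ T, u ≠ v → u ≠ z → v ≠ z → c {u, v} = 0 ∨ c {u, z} = 0) :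
    (-1) ^ m * om G c = ∑ T ∈ fcs G, (1 / 2) ^ T.card * |Dh c T| * |chiW (G.induce (lk G T))| := by
  rw [om_eq, Finset.mul_sum]
  refine Finset.sum_congr rfl fun T hT => ?_
  obtain ⟨h1, h2⟩ := Dh_mono c c (fun e => ⟨hc e, le_rfl⟩) T.card T rfl (hd T hT)
  exact om_term hS hP hT h1 fun j hj => (h2 j hj).1

theorem abs_Dh_mono {c c' : Finset V → ℚ} (hc : ∀ e, 0 ≤ c e ∧ c e ≤ c' e)
    (hd : ∀ T ∈ fcs G, ∀ u ∈ T, ∀ v ∈ T, ∀ z ∈ T, u ≠ v → u ≠ z → v ≠ z → c' {u, v} = 0 ∨ c' {u, z} = 0)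
    {T : Finset V} (hT : T ∈ fcs G) : |Dh c T| ≤ |Dh c' T| ∧ (Dh c T ≠ Dh c' T → Even T.card ∧ |Dh c T| ≠ |Dh c' T|) := by
  obtain ⟨h1, h2⟩ := Dh_mono c c' hc T.card T rfl (hd T hT)
  obtain ⟨h3, h4⟩ := Dh_mono c' c' (fun e => ⟨(hc e).1.trans (hc e).2, le_rfl⟩) T.card T rfl (hd T hT)
  rcases Nat.even_or_odd T.card with ⟨j, hj⟩ | ho
  · obtain ⟨h5, h6⟩ := h2 j (by omega)
    obtain ⟨h7, -⟩ := h4 j (by omega)
    have e1 : |Dh c T| = (-1) ^ j * Dh c T := by
      rw [← abs_of_nonneg h5, abs_mul, abs_pow, abs_neg, abs_one, one_pow, one_mul]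
    have e2 : |Dh c' T| = (-1) ^ j * Dh c' T := by
      rw [← abs_of_nonneg h7, abs_mul, abs_pow, abs_neg, abs_one, one_pow, one_mul]
    rw [e1, e2]
    exact ⟨h6, fun h => ⟨⟨j, hj⟩, fun h8 => h (mul_left_cancel₀ (pow_ne_zero _ (by norm_num)) h8)⟩⟩
  · rw [h1 ho, h3 ho]
    exact ⟨le_rfl, fun h => absurd rfl h⟩

open scoped Classical in
/-- the comparison -/
theorem om_mono {m : ℕ} (hS : HSph (2 * m) G) (hP : P (2 * m) G) {c c' : Finset V → ℚ}
    (hc : ∀ e, 0 ≤ c e ∧ c e ≤ c' e)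
    (hd : ∀ T ∈ fcs G, ∀ u ∈ T, ∀ v ∈ T, ∀ z ∈ T, u ≠ v → u ≠ z → v ≠ z → c' {u, v} = 0 ∨ c' {u, z} = 0) :
    (-1) ^ m * om G c + ∑ e ∈ (fcs G).filter (fun e => e.card = 2), (c' e - c e) / 4 *
        |chiW (G.induce (lk G e))| ≤ (-1) ^ m * om G c' ∧
    (om G c = om G c' ↔ ∀ T ∈ fcs G, Dh c T ≠ Dh c' T → ∀ i, L2Van (G.induce (lk G T)) i) := by
  have hd' : ∀ T ∈ fcs G, ∀ u ∈ T, ∀ v ∈ T, ∀ z ∈ T, u ≠ v → u ≠ z → v ≠ z → c {u, v} = 0 ∨ c {u, z} = 0 := by
    intro T hT u hu v hv z hz h1 h2 h3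
    rcases hd T hT u hu v hv z hz h1 h2 h3 with h | h
    · exact Or.inl (le_antisymm (h ▸ (hc _).2) (hc _).1)
    · exact Or.inr (le_antisymm (h ▸ (hc _).2) (hc _).1)
  have e1 := om_abs hS hP (fun e => (hc e).1) hd'
  have e2 := om_abs hS hP (fun e => (hc e).1.trans (hc e).2) hd
  have hdiff : (-1) ^ m * om G c' - (-1) ^ m * om G c = ∑ T ∈ fcs G, (1 / 2) ^ T.card *
      (|Dh c' T| - |Dh c T|) * |chiW (G.induce (lk G T))| := by
    rw [e1, e2, ← Finset.sum_sub_distrib]
    exact Finset.sum_congr rfl fun T _ => by ring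
  have hnn : ∀ T ∈ fcs G, 0 ≤ (1 / 2) ^ T.card * (|Dh c' T| - |Dh c T|) * |chiW (G.induce (lk G T))| := by
    intro T hT
    have h1 := (abs_Dh_mono hc hd hT).1
    have h2 : 0 ≤ |Dh c' T| - |Dh c T| := by linarith
    positivity
  constructor
  · have h3 : ∑ e ∈ (fcs G).filter (fun e => e.card = 2), (c' e - c e) / 4 *
        |chiW (G.induce (lk G e))| ≤ ∑ T ∈ fcs G, (1 / 2) ^ T.card *
      (|Dh c' T| - |Dh c T|) * |chiW (G.induce (lk G T))| := by
      rw [Finset.sum_filter]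
      refine Finset.sum_le_sum fun T hT => ?_
      split_ifs with h
      · rw [h, Dh_two c h, Dh_two c' h, abs_neg, abs_neg, abs_of_nonneg (hc T).1,
          abs_of_nonneg ((hc T).1.trans (hc T).2)]
        apply le_of_eq
        ring
      · exact hnn T hT
    linarith
  · have h4 : om G c = om G c' ↔ ∑ T ∈ fcs G, (1 / 2) ^ T.card *
      (|Dh c' T| - |Dh c T|) * |chiW (G.induce (lk G T))| = 0 := by
      rw [← hdiff, ← mul_sub, mul_eq_zero, or_iff_right (pow_ne_zero _ (by norm_num)), sub_eq_zero]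
      exact eq_comm
    rw [h4, Finset.sum_eq_zero_iff_of_nonneg hnn]
    refine forall₂_congr fun T hT => ?_
    obtain ⟨h5, h6⟩ := abs_Dh_mono hc hd hT
    rw [mul_eq_zero, mul_eq_zero, or_iff_right (pow_ne_zero _ (by norm_num)), abs_eq_zero, sub_eq_zero]
    have hT' : G.IsClique (T : Set V) := mem_fcs.1 hT
    have hcard := card_le_of_hSph hS T hT'
    constructor
    · rintro (h | h) hne
      · exact absurd h.symm (h6 hne).2
      · obtain ⟨j, hj⟩ := (h6 hne).1
        exact (gap_lk hS hP T hT' (m - j) (by omega)).2.1.2 h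
    · intro h
      by_cases hne : Dh c T = Dh c' T
      · left
        rw [hne]
      · right
        obtain ⟨j, hj⟩ := (h6 hne).1
        exact (gap_lk hS hP T hT' (m - j) (by omega)).2.1.1 (h hne)

/-- the edges of weight `2` -/
def lightGraph (G : SimpleGraph V) (c : Finset V → ℚ) : SimpleGraph V where
  Adj u v := G.Adj u v ∧ c {u, v} = 0
  symm := ⟨fun u v h => ⟨h.1.symm, by rw [Finset.pair_comm]; exact h.2⟩⟩
  loopless := ⟨fun u h => G.irrefl h.1⟩

open scoped Classical in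
/-- the parameters one -/
theorem om_one (c : Finset V → ℚ) : om G (fun e => if c e = 0 then 0 else 1) = chiW (lightGraph G c) := by
  unfold om fcs chiW
  rw [Finset.sum_filter]
  refine Finset.sum_congr rfl fun T _ => ?_
  by_cases h1 : G.IsClique (T : Set V)
  · rw [if_pos h1]
    by_cases h2 : (lightGraph G c).IsClique (T : Set V)
    · rw [if_pos h2, Finset.prod_eq_one, mul_one]
      intro e he
      obtain ⟨he1, he2⟩ := Finset.mem_powersetCard.1 he
      obtain ⟨u, v, huv, rfl⟩ := Finset.card_eq_two.1 he2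
      have h3 := (h2 (Finset.mem_coe.2 (he1 (by simp))) (Finset.mem_coe.2 (he1 (by simp))) huv).2
      dsimp only
      rw [if_pos h3, sub_zero]
    · rw [if_neg h2]
      have h3 : ∃ u ∈ T, ∃ v ∈ T, u ≠ v ∧ c {u, v} ≠ 0 := by
        by_contra h4
        push Not at h4
        exact h2 fun u hu v hv huv => ⟨h1 hu hv huv, h4 u hu v hv huv⟩
      obtain ⟨u, hu, v, hv, huv, h4⟩ := h3
      rw [Finset.prod_eq_zero (i := {u, v}), mul_zero]
      · rw [Finset.mem_powersetCard]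
        refine ⟨fun x hx => ?_, Finset.card_pair huv⟩
        rcases Finset.mem_insert.1 hx with rfl | hx
        · exact hu
        · rw [Finset.mem_singleton] at hx
          rw [hx]
          exact hv
      · dsimp only
        rw [if_neg h4, sub_self]
  · rw [if_neg h1, if_neg fun h2 => h1 fun u hu v hv huv => (h2 hu hv huv).1]

/-- integral weights -/
theorem om_weights (w : Finset V → ℕ) (hw : ∀ e, 2 ≤ w e) : om G (fun e => 1 - 2 / (w e : ℚ)) =
    ∑ σ ∈ fcs G, (-1) ^ σ.card / (2 ^ σ.card * ∏ e ∈ σ.powersetCard 2, (w e : ℚ) / 2) := by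
  refine Finset.sum_congr rfl fun σ _ => ?_
  have h1 : ∏ e ∈ σ.powersetCard 2, (1 - (1 - 2 / (w e : ℚ))) = (∏ e ∈ σ.powersetCard 2, (w e : ℚ) / 2)⁻¹ := by
    rw [← Finset.prod_inv_distrib]
    refine Finset.prod_congr rfl fun e _ => ?_
    have : (w e : ℚ) ≠ 0 := by
      have := hw e
      exact_mod_cast (by omega : w e ≠ 0)
    field_simp
    ring
  rw [h1, div_pow, div_mul_eq_div_div, div_eq_mul_inv (_ / _) (∏ e ∈ σ.powersetCard 2, (w e : ℚ) / 2)]

end fin

end Pool.Agent.X250.Sph
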