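import Pool.Agent.X250.Sph.Bound2

/-!
# Morse inequalities for finite sets with an action of a right-angled Coxeter group
-/

set_option autoImplicit false
set_option linter.unusedSectionVars false

namespace Pool.Agent.X250.Sph

open Module Pool.Agent.W907.SG Pool.Agent.W907.SM Pool.Agent.W397.SG
open Pool.Agent.TH652.Dual (triv mem_KK_triv PR PR_not PR_insert' PR_anti pm_apply)

/-! ### linear algebra -/

section lin

variable {E E' : Type} [AddCommGroup E] [Module ℝ E] [FiniteDimensional ℝ E] [AddCommGroup E'] [Module ℝ E']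
  [FiniteDimensional ℝ E']

theorem fr_sup {A B K : Submodule ℝ E} (hA : K ≤ A) (hB : K ≤ B) {n : ℕ} (h : finrank ℝ B ≤ finrank ℝ K + n) :
    finrank ℝ ↥(A ⊔ B) ≤ finrank ℝ A + n := by
  have h1 := Submodule.finrank_sup_add_finrank_inf_eq A B
  have h2 : finrank ℝ K ≤ finrank ℝ ↥(A ⊓ B) := Submodule.finrank_mono (le_inf hA hB)
  omega

theorem fr_one (P : Submodule ℝ E) (t : E →ₗ[ℝ] E') {Z B : Submodule ℝ E'} (hB : B ≤ Z) (hZ : P.map t ≤ Z) :
    finrank ℝ P ≤ finrank ℝ ↥(P ⊓ B.comap t) + (finrank ℝ Z - finrank ℝ B) := by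
  have h1 := rank_null (B.mkQ.comp t) P
  have h2 : LinearMap.ker (B.mkQ.comp t) = B.comap t := by
    rw [LinearMap.ker_comp, Submodule.ker_mkQ]
  rw [h2] at h1
  have h3 : finrank ℝ ↥(P.map (B.mkQ.comp t)) ≤ finrank ℝ ↥(Z.map B.mkQ) := by
    rw [Submodule.map_comp]
    exact Submodule.finrank_mono (Submodule.map_mono hZ)
  have h4 := rank_null B.mkQ Z
  have h5 : Z ⊓ LinearMap.ker B.mkQ = B := by
    rw [Submodule.ker_mkQ]
    exact inf_eq_right.2 hB
  rw [h5] at h4
  omega

theorem fr_many {J : Type} (s : Finset J) (P : Submodule ℝ E) (t : J → E →ₗ[ℝ] E') (Z B : J → Submodule ℝ E')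
    (hB : ∀ j ∈ s, B j ≤ Z j) (hZ : ∀ j ∈ s, P.map (t j) ≤ Z j) :
    finrank ℝ P ≤ finrank ℝ ↥(P ⊓ s.inf fun j => (B j).comap (t j)) +
      ∑ j ∈ s, (finrank ℝ (Z j) - finrank ℝ (B j)) := by
  classical
  induction s using Finset.induction_on with
  | empty => rw [Finset.inf_empty, inf_top_eq, Finset.sum_empty, add_zero]
  | insert b s hb ih =>
    have h1 := ih (fun j hj => hB j (Finset.mem_insert_of_mem hj)) (fun j hj => hZ j (Finset.mem_insert_of_mem hj))
    have h2 := fr_one (P ⊓ s.inf fun j => (B j).comap (t j)) (t b) (hB b (Finset.mem_insert_self b s))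
      ((Submodule.map_mono inf_le_left).trans (hZ b (Finset.mem_insert_self b s)))
    have h3 : (P ⊓ s.inf fun j => (B j).comap (t j)) ⊓ (B b).comap (t b) =
        P ⊓ (insert b s).inf fun j => (B j).comap (t j) := by
      rw [Finset.inf_insert, inf_assoc, inf_comm (s.inf _)]
    rw [h3] at h2
    rw [Finset.sum_insert hb]
    omega

end lin

/-! ### slopes -/

/-- A set `X` with commuting involutions for the adjacent vertices of `G`, and with a direction for each vertex `v`
and each element `x`: `dn v x` says that the edge from `x` to `a v x` goes down.  The edges over adjacent vertices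
have independent directions (opposite edges of a square are parallel). -/
structure Slope {V : Type} (G : SimpleGraph V) (X : Type) where
  /-- the involutions -/
  a : V → X → X
  inv : ∀ v x, a v (a v x) = x
  comm : ∀ u v, G.Adj u v → ∀ x, a u (a v x) = a v (a u x)
  /-- the directions -/
  dn : V → X → Bool
  self : ∀ v x, dn v (a v x) = !(dn v x)
  other : ∀ u v, G.Adj u v → ∀ x, dn u (a v x) = dn u x

/-- the set of the vertices in whose direction one goes down from `x` -/
def Slope.down {V : Type} {G : SimpleGraph V} {X : Type} (s : Slope G X) (x : X) : Set V := {v | s.dn v x = true}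

section top

variable {V : Type} [Fintype V] [LinearOrder V] {G : SimpleGraph V} {X : Type} (s : Slope G X)

omit [Fintype V] [LinearOrder V] in
theorem Slope.mem_down {v : V} {x : X} : v ∈ s.down x ↔ s.dn v x = true := Iff.rfl

omit [Fintype V] [LinearOrder V] in
theorem Slope.down_self {v : V} {x : X} : v ∈ s.down (s.a v x) ↔ v ∉ s.down x := by
  rw [s.mem_down, s.mem_down, s.self]
  cases s.dn v x <;> simp

omit [Fintype V] [LinearOrder V] in
theorem Slope.down_other {u v : V} (h : G.Adj u v) {x : X} : u ∈ s.down (s.a v x) ↔ u ∈ s.down x := by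
  rw [s.mem_down, s.mem_down, s.other u v h]

omit [Fintype V] in
theorem Slope.down_insert {v : V} {x : X} {T : Finset V} (hc : G.IsClique ((insert v T : Finset V) : Set V))
    (hv : v ∉ s.down x) (hT : (T : Set V) ⊆ s.down x) : ((insert v T : Finset V) : Set V) ⊆ s.down (s.a v x) := by
  intro u hu
  by_cases h : u = v
  · subst h
    exact (s.down_self).2 hv
  · have h1 : G.Adj u v := hc hu (by simp) h
    rw [s.down_other h1]
    rw [Finset.mem_coe, Finset.mem_insert] at hu
    exact hT (hu.resolve_left h)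

open Classical in
/-- the coefficients at the highest corners -/
noncomputable def tv (x : X) : (Finset V → X → ℝ) →ₗ[ℝ] (Finset V → ℝ) where
  toFun c T := if (T : Set V) ⊆ s.down x then c T x else 0
  map_add' c d := by
    funext T
    show (if (T : Set V) ⊆ s.down x then (c + d) T x else 0) =
      (if (T : Set V) ⊆ s.down x then c T x else 0) + (if (T : Set V) ⊆ s.down x then d T x else 0)
    split_ifs
    · rfl
    · rw [add_zero]
  map_smul' r c := by
    funext T
    show (if (T : Set V) ⊆ s.down x then (r • c) T x else 0) =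
      r • (if (T : Set V) ⊆ s.down x then c T x else 0)
    split_ifs
    · rfl
    · rw [smul_zero]

omit [Fintype V] [LinearOrder V] in
theorem tv_pos {x : X} (c : Finset V → X → ℝ) {T : Finset V} (h : (T : Set V) ⊆ s.down x) :
    tv s x c T = c T x := if_pos h

omit [Fintype V] [LinearOrder V] in
theorem tv_neg {x : X} (c : Finset V → X → ℝ) {T : Finset V} (h : ¬ (T : Set V) ⊆ s.down x) :
    tv s x c T = 0 := if_neg h

theorem tv_mem {i : ℕ} {c : Finset V → X → ℝ} (hc : c ∈ KK G (pull ℝ s.a) Set.univ ∅ i) (x : X) :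
    tv s x c ∈ KK G (triv V) (s.down x) ∅ i := by
  rw [mem_KK_triv]
  intro T hT
  by_cases h : (T : Set V) ⊆ s.down x
  · rw [tv_pos s c h, (mem_KK.1 hc).1 T, Pi.zero_apply]
    rintro ⟨h1, _, h2⟩
    exact hT ⟨h1, h, h2⟩
  · exact tv_neg s c h

/-- the boundary at the highest corners -/
theorem tv_bd {i : ℕ} {c : Finset V → X → ℝ} (hc : c ∈ KK G (pull ℝ s.a) Set.univ ∅ i) (x : X)
    (h : ∀ v, v ∉ s.down x → tv s (s.a v x) c = 0) : tv s x (bd ℝ c) = bd ℝ (tv s x c) := by
  funext T
  by_cases hT : (T : Set V) ⊆ s.down x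
  · rw [tv_pos s _ hT, bd_apply, bd_apply, Finset.sum_apply]
    refine Finset.sum_congr rfl fun v _ => ?_
    rw [Pi.smul_apply]
    congr 1
    by_cases hv : v ∈ s.down x
    · rw [tv_pos s c]
      intro u hu
      rw [Finset.mem_coe, Finset.mem_insert] at hu
      rcases hu with rfl | hu
      · exact hv
      · exact hT hu
    · rw [tv_neg s c fun h1 => hv (h1 (by simp))]
      by_cases hcl : G.IsClique ((insert v T : Finset V) : Set V)
      · have h1 := congrFun (h v hv) (insert v T)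
        rw [tv_pos s c (s.down_insert hcl hv hT), Pi.zero_apply] at h1
        have h2 := congrFun ((mem_KK.1 hc).2 (insert v T) v (Or.inl (Finset.mem_insert_self v T))) x
        rw [pull_apply, h1, Pi.neg_apply] at h2
        linarith
      · rw [(mem_KK.1 hc).1 _ fun h1 => hcl h1.1, Pi.zero_apply]
  · rw [tv_neg s _ hT, bd_apply]
    refine (Finset.sum_eq_zero fun v _ => ?_).symm
    rw [tv_neg s c, smul_zero]
    intro h1
    exact hT fun u hu => h1 (by simp [Finset.mem_coe.1 hu])

/-- chains are determined by their coefficients at the highest corners -/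
theorem tv_inj {i : ℕ} {c : Finset V → X → ℝ} (hc : c ∈ KK G (pull ℝ s.a) Set.univ ∅ i)
    (h : ∀ x, tv s x c = 0) : c = 0 := by
  classical
  have key : ∀ (n : ℕ) (T : Finset V) (x : X), G.IsClique (T : Set V) →
      (T.filter fun t => t ∉ s.down x).card = n → c T x = 0 := by
    intro n
    induction n with
    | zero =>
      intro T x _ hn
      rw [Finset.card_eq_zero, Finset.filter_eq_empty_iff] at hn
      have h1 : (T : Set V) ⊆ s.down x := fun t ht => by
        by_contra h2
        exact hn ht h2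
      have h2 := congrFun (h x) T
      rwa [tv_pos s c h1] at h2
    | succ n ih =>
      intro T x hT hn
      obtain ⟨t, ht⟩ : (T.filter fun t => t ∉ s.down x).Nonempty := by
        rw [← Finset.card_pos]; omega
      obtain ⟨ht1, ht2⟩ := Finset.mem_filter.1 ht
      have h1 : (T.filter fun u => u ∉ s.down (s.a t x)) = (T.filter fun u => u ∉ s.down x).erase t := by
        ext u
        rw [Finset.mem_erase, Finset.mem_filter, Finset.mem_filter]
        constructor
        · rintro ⟨h2, h3⟩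
          have h4 : u ≠ t := by
            rintro rfl
            exact h3 ((s.down_self).2 ht2)
          exact ⟨h4, h2, fun h5 => h3 ((s.down_other (hT h2 ht1 h4)).2 h5)⟩
        · rintro ⟨h2, h3, h4⟩
          exact ⟨h3, fun h5 => h4 ((s.down_other (hT h3 ht1 h2)).1 h5)⟩
      have h2 := ih T (s.a t x) hT (by rw [h1, Finset.card_erase_of_mem ht, hn]; rfl)
      have h3 := congrFun ((mem_KK.1 hc).2 T t (Or.inl ht1)) x
      rw [pull_apply, h2, Pi.neg_apply] at h3
      linarith
  funext T x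
  by_cases hT : G.IsClique (T : Set V)
  · exact key _ T x hT rfl
  · rw [(mem_KK.1 hc).1 T fun h1 => hT h1.1]
    rfl

theorem PR_top (T : Finset V) : G.IsClique (T : Set V) → ∀ (g : X → ℝ),
    (∀ x, ¬ (T : Set V) ⊆ s.down x → g x = 0) → ∀ x, (T : Set V) ⊆ s.down x →
      2 ^ T.card * PR G s.a s.comm T g x = g x := by
  induction T using Finset.induction_on with
  | empty =>
    intro _ g _ x _
    have h1 : PR G s.a s.comm ∅ g = g := Pool.Agent.TH652.Dual.PR_of_anti s.comm (by simp) g (fun v hv => by simp at hv)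
    rw [h1, Finset.card_empty, pow_zero, one_mul]
  | insert v R hv ih =>
    intro hc g hg x hx
    have hR : G.IsClique (R : Set V) := hc.subset (by simp)
    have hg' : ∀ x, ¬ (R : Set V) ⊆ s.down x → g x = 0 := fun y hy => hg y fun h => hy fun u hu =>
      h (by simp [Finset.mem_coe.1 hu])
    have hvx : v ∈ s.down x := hx (by simp)
    have hRx : (R : Set V) ⊆ s.down x := fun u hu => hx (by simp [Finset.mem_coe.1 hu])
    have h1 := ih hR g hg' x hRx
    have h2 := ih hR g hg' (s.a v x) (by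
      intro u hu
      have huv : u ≠ v := by
        rintro rfl
        exact hv hu
      exact (s.down_other (hc (by simp [Finset.mem_coe.1 hu]) (by simp) huv)).2 (hRx hu))
    have h3 : g (s.a v x) = 0 := hg _ fun h => (s.down_self.1 (h (by simp))) hvx
    rw [h3] at h2
    rw [PR_insert' s.comm hv hc, Finset.card_insert_of_notMem hv, pm_apply, pow_succ]
    linarith

open Classical in
/-- chains with given coefficients at the highest corners -/
noncomputable def lft (y : X → Finset V → ℝ) : Finset V → X → ℝ := fun T =>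
  (2 : ℝ) ^ T.card • PR G s.a s.comm T (fun x => if (T : Set V) ⊆ s.down x then y x T else 0)

theorem lft_mem {j : ℕ} {y : X → Finset V → ℝ} (hy : ∀ x, y x ∈ KK G (triv V) (s.down x) ∅ j) :
    lft s y ∈ KK G (pull ℝ s.a) Set.univ ∅ j := by
  classical
  rw [mem_KK]
  refine ⟨fun T hT => ?_, fun T t ht => ?_⟩
  · unfold lft
    by_cases hc : G.IsClique (T : Set V)
    · have h1 : (fun x => if (T : Set V) ⊆ s.down x then y x T else 0) = 0 := by
        funext x
        split_ifs with h
        · rw [mem_KK_triv.1 (hy x) T, Pi.zero_apply]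
          rintro ⟨_, _, h3⟩
          exact hT ⟨hc, Set.subset_univ _, h3⟩
        · rfl
      rw [h1, map_zero, smul_zero]
    · rw [PR_not s.comm hc, LinearMap.zero_apply, smul_zero]
  · have ht' : t ∈ T := ht.resolve_right (fun h => h)
    unfold lft
    rw [map_smul, PR_anti s.comm s.inv ht', smul_neg]

theorem tv_lft {j : ℕ} {y : X → Finset V → ℝ} (hy : ∀ x, y x ∈ KK G (triv V) (s.down x) ∅ j) (x : X) :
    tv s x (lft s y) = y x := by
  classical
  funext T
  by_cases hx : (T : Set V) ⊆ s.down x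
  · rw [tv_pos s _ hx]
    unfold lft
    by_cases hc : G.IsClique (T : Set V)
    · have h1 := PR_top s T hc (fun x => if (T : Set V) ⊆ s.down x then y x T else 0)
        (fun x hx => if_neg hx) x hx
      rw [if_pos hx] at h1
      rw [Pi.smul_apply, smul_eq_mul]
      exact h1
    · rw [PR_not s.comm hc, LinearMap.zero_apply, smul_zero, Pi.zero_apply, mem_KK_triv.1 (hy x) T fun h => hc h.1]
  · rw [tv_neg s _ hx, mem_KK_triv.1 (hy x) T fun h => hx h.2.1]

end top

section morse

variable {V : Type} [Fintype V] [LinearOrder V] {G : SimpleGraph V} {X : Type} [Fintype X] (s : Slope G X)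

/-- the chains whose coefficients at the highest corners with the property `p` are zero -/
noncomputable def Vn (p : X → Prop) : Submodule ℝ (Finset V → X → ℝ) where
  carrier := {c | ∀ x, p x → tv s x c = 0}
  add_mem' := by
    intro c d hc hd x hx
    rw [map_add, hc x hx, hd x hx, add_zero]
  zero_mem' := fun x _ => map_zero _
  smul_mem' := by
    intro r c hc x hx
    rw [map_smul, hc x hx, smul_zero]

theorem Vn_mono {p q : X → Prop} (h : ∀ x, q x → p x) : Vn s p ≤ Vn s q := fun _ hc x hx => hc x (h x hx)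

variable (ht : X → ℕ) (hht : ∀ v x, v ∈ s.down x → ht x ≠ 0 → ht (s.a v x) + 1 = ht x)

include hht in
theorem ht_up {v : V} {x : X} (hv : v ∉ s.down x) (h : ht (s.a v x) ≠ 0) : ht x + 1 = ht (s.a v x) := by
  have h1 := hht v (s.a v x) (s.down_self.2 hv) h
  rwa [s.inv] at h1

include hht in
/-- pushing down -/
theorem push {i : ℕ} (l : ℕ) {z : Finset V → X → ℝ} (hz : z ∈ ZZ G (pull ℝ s.a) Set.univ ∅ i)
    (h0 : ∀ x, ht x = 0 ∨ l + 1 < ht x → tv s x z = 0)
    (hB : ∀ x, ht x = l + 1 → tv s x z ∈ BB G (triv V) (s.down x) ∅ i) :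
    z ∈ BB G (pull ℝ s.a) Set.univ ∅ i ⊔
      (ZZ G (pull ℝ s.a) Set.univ ∅ i ⊓ Vn s (fun x => (ht x = 0 ∨ l < ht x) ∧ ht x ≠ l)) := by
  classical
  have h1 : ∀ x, ∃ y ∈ KK G (triv V) (s.down x) ∅ (i + 1),
      (ht x = l + 1 → bd ℝ y = tv s x z) ∧ (ht x ≠ l + 1 → y = 0) := by
    intro x
    by_cases hx : ht x = l + 1
    · obtain ⟨y, hy, hy2⟩ := hB x hx
      exact ⟨y, hy, fun _ => hy2, fun h => absurd hx h⟩
    · exact ⟨0, Submodule.zero_mem _, fun h => absurd h hx, fun _ => rfl⟩
  choose y hy hy1 hy2 using h1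
  have hY := lft_mem s hy
  have hBY : bd ℝ (lft s y) ∈ BB G (pull ℝ s.a) Set.univ ∅ i := Submodule.mem_map_of_mem hY
  have h2 : z = bd ℝ (lft s y) + (z - bd ℝ (lft s y)) := by rw [add_sub_cancel]
  rw [h2]
  refine Submodule.add_mem_sup hBY ⟨Submodule.sub_mem _ hz (BB_le_ZZ _ _ _ _ _ hBY), ?_⟩
  rintro x ⟨hx, hxl⟩
  have h3 : tv s x (bd ℝ (lft s y)) = bd ℝ (y x) := by
    rw [tv_bd s hY x, tv_lft s hy]
    intro v hv
    rw [tv_lft s hy]
    refine hy2 _ fun h4 => hxl ?_
    have h5 := ht_up s ht hht hv (by omega)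
    omega
  rw [map_sub, h3]
  by_cases h4 : ht x = l + 1
  · rw [hy1 x h4, sub_self]
  · rw [hy2 x h4, map_zero, sub_zero]
    exact h0 x (by omega)

include hht in
/-- one level -/
theorem step (i l : ℕ) : finrank ℝ ↥(BB G (pull ℝ s.a) Set.univ ∅ i ⊔
      (ZZ G (pull ℝ s.a) Set.univ ∅ i ⊓ Vn s (fun x => ht x = 0 ∨ l + 1 < ht x))) ≤
    finrank ℝ ↥(BB G (pull ℝ s.a) Set.univ ∅ i ⊔
      (ZZ G (pull ℝ s.a) Set.univ ∅ i ⊓ Vn s (fun x => (ht x = 0 ∨ l < ht x) ∧ ht x ≠ l))) +
      ∑ x ∈ Finset.univ.filter (fun x => ht x = l + 1), beta G (triv V) (s.down x) ∅ i := by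
  classical
  obtain ⟨B, hBd⟩ : ∃ B, B = ZZ G (pull ℝ s.a) Set.univ ∅ i ⊓ Vn s (fun x => ht x = 0 ∨ l + 1 < ht x) := ⟨_, rfl⟩
  have h1 := fr_many (Finset.univ.filter (fun x => ht x = l + 1)) B (fun x => tv s x)
    (fun x => ZZ G (triv V) (s.down x) ∅ i) (fun x => BB G (triv V) (s.down x) ∅ i)
    (fun x _ => BB_le_ZZ _ _ _ _ _) (fun x hx => by
      have hx' := (Finset.mem_filter.1 hx).2
      rintro _ ⟨z, hz, rfl⟩
      rw [hBd] at hz
      obtain ⟨⟨hz1, hz2⟩, hz3⟩ := hz
      refine ⟨tv_mem s hz1 x, ?_⟩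
      show bd ℝ (tv s x z) = 0
      rw [← tv_bd s hz1 x, show bd ℝ z = 0 from hz2, map_zero]
      intro v hv
      refine hz3 _ ?_
      by_cases h : ht (s.a v x) = 0
      · exact Or.inl h
      · have h5 := ht_up s ht hht hv h
        exact Or.inr (by omega))
  have h2 : (B ⊓ (Finset.univ.filter (fun x => ht x = l + 1)).inf
      fun x => (BB G (triv V) (s.down x) ∅ i).comap (tv s x)) ≤
      BB G (pull ℝ s.a) Set.univ ∅ i ⊔
      (ZZ G (pull ℝ s.a) Set.univ ∅ i ⊓ Vn s (fun x => (ht x = 0 ∨ l < ht x) ∧ ht x ≠ l)) := by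
    rintro z ⟨hz, hz'⟩
    rw [SetLike.mem_coe, hBd] at hz
    obtain ⟨hz1, hz2⟩ := hz
    refine push s ht hht l hz1 hz2 fun x hx => ?_
    have h3 := (Finset.inf_le (f := fun x => (BB G (triv V) (s.down x) ∅ i).comap (tv s x))
      (Finset.mem_filter.2 ⟨Finset.mem_univ x, hx⟩)) hz'
    exact h3
  have h3 := fr_sup h2 inf_le_left h1
  rw [← hBd]
  refine le_trans (Submodule.finrank_mono ?_) h3
  exact sup_le_sup_right le_sup_left B

include hht in
theorem levels (i : ℕ) : ∀ l : ℕ, finrank ℝ ↥(BB G (pull ℝ s.a) Set.univ ∅ i ⊔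
      (ZZ G (pull ℝ s.a) Set.univ ∅ i ⊓ Vn s (fun x => ht x = 0 ∨ l < ht x))) ≤
    finrank ℝ ↥(BB G (pull ℝ s.a) Set.univ ∅ i ⊔
      (KK G (pull ℝ s.a) Set.univ ∅ i ⊓ Vn s (fun x => ht x ≠ 0))) +
      ∑ x ∈ Finset.univ.filter (fun x => 1 ≤ ht x ∧ ht x ≤ l), beta G (triv V) (s.down x) ∅ i := by
  classical
  intro l
  induction l with
  | zero =>
    refine le_trans (Submodule.finrank_mono ?_) (Nat.le_add_right _ _)
    exact sup_le_sup_left (inf_le_inf inf_le_left (Vn_mono s fun x hx => Or.inr (Nat.pos_of_ne_zero hx))) _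
  | succ l ih =>
    have h1 := step s ht hht i l
    have h2 : ∑ x ∈ Finset.univ.filter (fun x => 1 ≤ ht x ∧ ht x ≤ l + 1), beta G (triv V) (s.down x) ∅ i =
        ∑ x ∈ Finset.univ.filter (fun x => 1 ≤ ht x ∧ ht x ≤ l), beta G (triv V) (s.down x) ∅ i +
        ∑ x ∈ Finset.univ.filter (fun x => ht x = l + 1), beta G (triv V) (s.down x) ∅ i := by
      rw [← Finset.sum_union]
      · refine Finset.sum_congr ?_ fun _ _ => rfl
        ext x
        simp only [Finset.mem_filter, Finset.mem_univ, true_and, Finset.mem_union]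
        omega
      · rw [Finset.disjoint_left]
        intro x hx hx'
        have h3 := (Finset.mem_filter.1 hx).2
        have h4 := (Finset.mem_filter.1 hx').2
        omega
    rw [h2]
    have h3 : finrank ℝ ↥(BB G (pull ℝ s.a) Set.univ ∅ i ⊔
        (ZZ G (pull ℝ s.a) Set.univ ∅ i ⊓ Vn s (fun x => (ht x = 0 ∨ l < ht x) ∧ ht x ≠ l))) ≤
        finrank ℝ ↥(BB G (pull ℝ s.a) Set.univ ∅ i ⊔
        (KK G (pull ℝ s.a) Set.univ ∅ i ⊓ Vn s (fun x => ht x ≠ 0))) +
        ∑ x ∈ Finset.univ.filter (fun x => 1 ≤ ht x ∧ ht x ≤ l), beta G (triv V) (s.down x) ∅ i := by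
      rcases Nat.eq_zero_or_pos l with rfl | hl
      · refine le_trans (Submodule.finrank_mono ?_) (Nat.le_add_right _ _)
        exact sup_le_sup_left (inf_le_inf inf_le_left (Vn_mono s fun x hx =>
          ⟨Or.inr (Nat.pos_of_ne_zero hx), hx⟩)) _
      · refine le_trans (Submodule.finrank_mono ?_) ih
        exact sup_le_sup_left (inf_le_inf_left _ (Vn_mono s fun x hx => ⟨hx, by omega⟩)) _
    omega

/-- the coefficients at few corners -/
theorem few (P : Submodule ℝ (Finset V → X → ℝ)) : finrank ℝ P ≤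
    finrank ℝ ↥(P ⊓ Vn s (fun x => ht x = 0)) +
      (Finset.univ.filter (fun x => ht x = 0)).card * 2 ^ Fintype.card V := by
  classical
  have h1 := fr_many (Finset.univ.filter (fun x => ht x = 0)) P (fun x => tv s x)
    (fun _ => ⊤) (fun _ => ⊥) (fun _ _ => bot_le) (fun _ _ => le_top)
  have h2 : finrank ℝ (⊤ : Submodule ℝ (Finset V → ℝ)) = 2 ^ Fintype.card V := by
    rw [finrank_top, Module.finrank_fintype_fun_eq_card, Fintype.card_finset]
  rw [Finset.sum_const, smul_eq_mul, h2, finrank_bot, Nat.sub_zero] at h1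
  refine h1.trans (Nat.add_le_add_right (Submodule.finrank_mono ?_) _)
  refine inf_le_inf_left _ ?_
  intro c hc x hx
  exact (Finset.inf_le (f := fun x => (⊥ : Submodule ℝ (Finset V → ℝ)).comap (tv s x))
      (Finset.mem_filter.2 ⟨Finset.mem_univ x, hx⟩)) hc

include hht in
/-- the Morse inequality -/
theorem morse_ineq (i : ℕ) : beta G (pull ℝ s.a) Set.univ ∅ i ≤
    ∑ x ∈ Finset.univ.filter (fun x => ht x ≠ 0), beta G (triv V) (s.down x) ∅ i +
      2 * ((Finset.univ.filter (fun x => ht x = 0)).card * 2 ^ Fintype.card V) := by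
  classical
  obtain ⟨l, hl⟩ : ∃ l, ∀ x, ht x ≤ l := ⟨Finset.univ.sup ht, fun x => Finset.le_sup (Finset.mem_univ x)⟩
  have h1 := few s ht (ZZ G (pull ℝ s.a) Set.univ ∅ i)
  have h2 : finrank ℝ ↥(ZZ G (pull ℝ s.a) Set.univ ∅ i ⊓ Vn s (fun x => ht x = 0)) ≤
      finrank ℝ ↥(BB G (pull ℝ s.a) Set.univ ∅ i ⊔
      (ZZ G (pull ℝ s.a) Set.univ ∅ i ⊓ Vn s (fun x => ht x = 0 ∨ l < ht x))) := by
    refine Submodule.finrank_mono (le_trans ?_ le_sup_right)
    refine inf_le_inf_left _ (Vn_mono s fun x hx => ?_)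
    have := hl x
    omega
  have h3 := levels s ht hht i l
  have h4 : ∑ x ∈ Finset.univ.filter (fun x => 1 ≤ ht x ∧ ht x ≤ l), beta G (triv V) (s.down x) ∅ i =
      ∑ x ∈ Finset.univ.filter (fun x => ht x ≠ 0), beta G (triv V) (s.down x) ∅ i := by
    refine Finset.sum_congr ?_ fun _ _ => rfl
    ext x
    simp only [Finset.mem_filter, Finset.mem_univ, true_and]
    have := hl x
    omega
  rw [h4] at h3
  have h5 := Submodule.finrank_add_le_finrank_add_finrank (BB G (pull ℝ s.a) Set.univ ∅ i)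
    (KK G (pull ℝ s.a) Set.univ ∅ i ⊓ Vn s (fun x => ht x ≠ 0))
  have h6 := few s ht (KK G (pull ℝ s.a) Set.univ ∅ i ⊓ Vn s (fun x => ht x ≠ 0))
  have h7 : (KK G (pull ℝ s.a) Set.univ ∅ i ⊓ Vn s (fun x => ht x ≠ 0)) ⊓ Vn s (fun x => ht x = 0) = ⊥ := by
    rw [Submodule.eq_bot_iff]
    rintro c ⟨⟨hc1, hc2⟩, hc3⟩
    refine tv_inj s hc1 fun x => ?_
    by_cases hx : ht x = 0
    · exact hc3 x hx
    · exact hc2 x hx
  rw [h7, finrank_bot] at h6
  unfold beta
  unfold beta at h3
  omega

end morse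

end Pool.Agent.X250.Sph
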