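import Pool.Agent.X250.Sph.Morse

/-!
# Cyclic coverings and `ℓ²`-homology
-/

set_option autoImplicit false
set_option linter.unusedSectionVars false

namespace Pool.Agent.X250.Sph

open Module Pool.Agent.W907.SG Pool.Agent.W907.SM Pool.Agent.W397.SG
open Pool.Agent.TH652.Dual (triv)

/-! ### the action of the group from the involutions -/

section ev

variable {V : Type} {G : SimpleGraph V} {X : Type}

/-- the action of the group -/
theorem exists_ev (a : V → X → X) (inv : ∀ v x, a v (a v x) = x)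
    (comm : ∀ u v, G.Adj u v → ∀ x, a u (a v x) = a v (a u x)) :
    ∃ ev : X → W G → X, (∀ x, ev x 1 = x) ∧ (∀ x g h, ev x (g * h) = ev (ev x g) h) ∧
      ∀ x v, ev x ((cox G).simple v) = a v x := by
  obtain ⟨f, hf⟩ : ∃ f : V → Equiv.Perm X, ∀ v x, f v x = a v x :=
    ⟨fun v => ⟨a v, a v, inv v, inv v⟩, fun v x => rfl⟩
  have h1 : ∀ v, f v * f v = 1 := fun v => Equiv.ext fun x => by
    rw [Equiv.Perm.mul_apply, hf, hf, inv]
    rfl
  have h2 : ∀ u v, G.Adj u v → f u * f v = f v * f u := fun u v h => Equiv.ext fun x => by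
    rw [Equiv.Perm.mul_apply, Equiv.Perm.mul_apply, hf, hf, hf, hf, comm u v h]
  obtain ⟨φ, hφ⟩ : ∃ φ : W G →* Equiv.Perm X, ∀ v, φ ((cox G).simple v) = f v :=
    ⟨(cox G).toCoxeterSystem.lift ⟨f, Pool.Agent.W461.SGN.liftable G f h1 h2⟩,
      fun v => CoxeterSystem.lift_apply_simple _ _ v⟩
  refine ⟨fun x g => φ g⁻¹ x, fun x => ?_, fun x g h => ?_, fun x v => ?_⟩
  · show φ 1⁻¹ x = x
    rw [inv_one, map_one]
    rfl
  · show φ (g * h)⁻¹ x = φ h⁻¹ (φ g⁻¹ x)
    rw [mul_inv_rev, map_mul, Equiv.Perm.mul_apply]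
  · show φ ((cox G).simple v)⁻¹ x = a v x
    rw [map_inv, hφ, ← hf v x]
    have h3 : (f v)⁻¹ = f v := inv_eq_of_mul_eq_one_left (h1 v)
    rw [h3]

/-- equivariant maps -/
theorem ev_map {Y : Type} {a : V → X → X} {b : V → Y → Y} {ev : X → W G → X} {ev' : Y → W G → Y}
    (h1 : ∀ x, ev x 1 = x) (h2 : ∀ x g h, ev x (g * h) = ev (ev x g) h)
    (h3 : ∀ x v, ev x ((cox G).simple v) = a v x) (k1 : ∀ x, ev' x 1 = x)
    (k2 : ∀ x g h, ev' x (g * h) = ev' (ev' x g) h) (k3 : ∀ x v, ev' x ((cox G).simple v) = b v x)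
    (p : X → Y) (hp : ∀ v x, p (a v x) = b v (p x)) (g : W G) : ∀ x, p (ev x g) = ev' (p x) g := by
  have key : ∀ g : W G, (∀ x, p (ev x g) = ev' (p x) g) := by
    intro g
    refine (cox G).toCoxeterSystem.simple_induction_right (p := fun g => ∀ x, p (ev x g) = ev' (p x) g) g ?_ ?_
    · intro x
      rw [h1, k1]
    · intro w v ih x
      have h4 : (cox G).toCoxeterSystem.simple v = (cox G).simple v := rfl
      rw [h2, k2, h4, h3, k3, hp, ih]
  exact key g

end ev

/-! ### products and cyclic coverings -/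

section cyc

variable {V : Type} {G : SimpleGraph V} {X : Type}

/-- the product with a `W_G`-set -/
def Slope.prodLeft (s : Slope G X) {Y : Type} (b : V → Y → Y) (inv : ∀ v y, b v (b v y) = y)
    (comm : ∀ u v, G.Adj u v → ∀ y, b u (b v y) = b v (b u y)) : Slope G (Y × X) where
  a v p := (b v p.1, s.a v p.2)
  inv v p := Prod.ext (inv v p.1) (s.inv v p.2)
  comm u v h p := Prod.ext (comm u v h p.1) (s.comm u v h p.2)
  dn v p := s.dn v p.2
  self v p := s.self v p.2
  other u v h p := s.other u v h p.2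

/-- the cyclic coverings -/
def Slope.cyc (s : Slope G X) (k : ℕ) : Slope G (X × ZMod k) where
  a v p := (s.a v p.1, if s.dn v p.1 = true then p.2 - 1 else p.2 + 1)
  inv v p := by
    refine Prod.ext (s.inv v p.1) ?_
    show (if s.dn v (s.a v p.1) = true then (if s.dn v p.1 = true then p.2 - 1 else p.2 + 1) - 1 else
      (if s.dn v p.1 = true then p.2 - 1 else p.2 + 1) + 1) = p.2
    rw [s.self]
    cases s.dn v p.1 <;> simp
  comm u v h p := by
    refine Prod.ext (s.comm u v h p.1) ?_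
    show (if s.dn u (s.a v p.1) = true then (if s.dn v p.1 = true then p.2 - 1 else p.2 + 1) - 1 else
      (if s.dn v p.1 = true then p.2 - 1 else p.2 + 1) + 1) =
      (if s.dn v (s.a u p.1) = true then (if s.dn u p.1 = true then p.2 - 1 else p.2 + 1) - 1 else
      (if s.dn u p.1 = true then p.2 - 1 else p.2 + 1) + 1)
    rw [s.other u v h, s.other v u h.symm]
    cases s.dn v p.1 <;> cases s.dn u p.1 <;> simp
  dn v p := s.dn v p.1
  self v p := s.self v p.1
  other u v h p := s.other u v h p.1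

theorem val_sub_one {k : ℕ} [NeZero k] {h : ZMod k} (hh : h.val ≠ 0) : (h - 1).val + 1 = h.val := by
  obtain ⟨n, hn⟩ : ∃ n, h.val = n + 1 := ⟨h.val - 1, by omega⟩
  have h1 : h = ((n + 1 : ℕ) : ZMod k) := by rw [← hn, ZMod.natCast_zmod_val]
  have h2 : h - 1 = (n : ZMod k) := by
    rw [h1]
    push_cast
    ring
  have h3 : n < k := by
    have := ZMod.val_lt h
    omega
  rw [h2, ZMod.val_natCast_of_lt h3, hn]

variable [Fintype V] [LinearOrder V] [Fintype X]

/-- the Betti numbers of the cyclic coverings -/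
theorem cyc_bound (s : Slope G X) (k : ℕ) [NeZero k] (i : ℕ) :
    beta G (pull ℝ (s.cyc k).a) Set.univ ∅ i ≤ k * ∑ x, beta G (triv V) (s.down x) ∅ i +
      2 * (Fintype.card X * 2 ^ Fintype.card V) := by
  classical
  have h1 := morse_ineq (s.cyc k) (fun p => p.2.val) (fun v p hv hp => by
    show (if s.dn v p.1 = true then p.2 - 1 else p.2 + 1).val + 1 = p.2.val
    have hv' : s.dn v p.1 = true := hv
    rw [if_pos hv']
    exact val_sub_one hp) i
  refine h1.trans (Nat.add_le_add ?_ (Nat.mul_le_mul_left _ (Nat.mul_le_mul_right _ ?_)))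
  · refine (Finset.sum_le_sum_of_subset (Finset.filter_subset _ _)).trans ?_
    rw [Fintype.sum_prod_type, Finset.mul_sum]
    refine Finset.sum_le_sum fun x _ => ?_
    have h2 : ∀ h : ZMod k, beta G (triv V) ((s.cyc k).down (x, h)) ∅ i = beta G (triv V) (s.down x) ∅ i :=
      fun _ => rfl
    rw [Finset.sum_congr rfl fun h _ => h2 h, Finset.sum_const, smul_eq_mul, Finset.card_univ, ZMod.card]
  · rw [← Finset.card_univ]
    refine Finset.card_le_card_of_injOn (fun p => p.1) (fun _ _ => Finset.mem_coe.2 (Finset.mem_univ _)) ?_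
    intro p hp q hq hpq
    have hp' : p.2.val = 0 := (Finset.mem_filter.1 (Finset.mem_coe.1 hp)).2
    have hq' : q.2.val = 0 := (Finset.mem_filter.1 (Finset.mem_coe.1 hq)).2
    refine Prod.ext hpq ?_
    rw [ZMod.val_eq_zero] at hp' hq'
    rw [hp', hq']

/-- the average of a Betti number of the descending links -/
noncomputable def Slope.avg (s : Slope G X) (i : ℕ) : ℝ :=
  (∑ x, (beta G (triv V) (s.down x) ∅ i : ℝ)) / Fintype.card X

/-- finite `W_G`-sets with large injectivity radius, with signs, whose Betti numbers are at most the averages -/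
theorem Slope.far (s : Slope G X) [Nonempty X] (ε : ℝ) (hε : 0 < ε) (E : Finset (W G)) (hE : (1 : W G) ∉ E) :
    ∃ (Y : Type) (_ : Fintype Y) (_ : Nonempty Y) (a : V → Y → Y) (sgn : V → Y → Bool), Far G E Y a ∧
      (∀ v x, sgn v (a v x) = !(sgn v x)) ∧ (∀ u v, u ≠ v → ∀ x, sgn u (a v x) = sgn u x) ∧
      ∀ i, (beta G (pull ℝ a) Set.univ ∅ i : ℝ) ≤ (s.avg i + ε) * Fintype.card Y := by
  classical
  have : Fact (Nat.Prime 3) := ⟨Nat.prime_three⟩
  obtain ⟨Y, fY, nY, P, ev, e1, e2, e3, e4⟩ := nilp 3 V G E (by decide) hE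
  obtain ⟨k, hk⟩ := exists_nat_gt (2 * (2 : ℝ) ^ Fintype.card V / ε)
  have hk0 : (0 : ℝ) < k := lt_of_le_of_lt (by positivity) hk
  have hkn : NeZero k := ⟨by
    rintro rfl
    simp at hk0⟩
  obtain ⟨s', hs'⟩ : ∃ s', s' = s.prodLeft P.a P.inv P.comm := ⟨_, rfl⟩
  obtain ⟨ev', k1, k2, k3⟩ := exists_ev (s'.cyc k).a (s'.cyc k).inv (s'.cyc k).comm
  refine ⟨(Y × X) × ZMod k, inferInstance, inferInstance, (s'.cyc k).a, fun v p => P.sgn v p.1.1,
    ⟨(s'.cyc k).inv, (s'.cyc k).comm, ev', k1, k2, k3, fun g hg x hx => ?_⟩, ?_, ?_, fun i => ?_⟩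
  · have h1 := ev_map k1 k2 k3 e1 e2 e3 (fun p => p.1.1) (fun v x => by
      rw [hs']
      rfl) g x
    rw [hx] at h1
    exact e4 g hg _ h1.symm
  · intro v x
    rw [hs']
    exact P.sgn_self v x.1.1
  · intro u v h x
    rw [hs']
    exact P.sgn_other u v h x.1.1
  · have h1 := cyc_bound s' k i
    have h2 : ∑ x, beta G (triv V) (s'.down x) ∅ i = Fintype.card Y * ∑ x, beta G (triv V) (s.down x) ∅ i := by
      rw [Fintype.sum_prod_type]
      have h3 : ∀ y : Y, ∑ x, beta G (triv V) (s'.down (y, x)) ∅ i = ∑ x, beta G (triv V) (s.down x) ∅ i := by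
        intro y
        rw [hs']
        rfl
      rw [Finset.sum_congr rfl fun y _ => h3 y, Finset.sum_const, smul_eq_mul, Finset.card_univ]
    rw [h2, Fintype.card_prod] at h1
    have h3 : (beta G (pull ℝ (s'.cyc k).a) Set.univ ∅ i : ℝ) ≤
        k * (Fintype.card Y * ∑ x, (beta G (triv V) (s.down x) ∅ i : ℝ)) +
          2 * (Fintype.card Y * Fintype.card X * 2 ^ Fintype.card V) := by
      exact_mod_cast h1
    refine h3.trans ?_
    rw [Fintype.card_prod, Fintype.card_prod, ZMod.card]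
    push_cast
    have hX : (0 : ℝ) < Fintype.card X := by
      have := Fintype.card_pos (α := X)
      exact_mod_cast this
    have hY : (0 : ℝ) < Fintype.card Y := by
      have := Fintype.card_pos (α := Y)
      exact_mod_cast this
    unfold Slope.avg
    have h4 : 2 * (2 : ℝ) ^ Fintype.card V ≤ ε * k := by
      rw [div_lt_iff₀ hε] at hk
      linarith
    have h5 : ((∑ x, (beta G (triv V) (s.down x) ∅ i : ℝ)) / Fintype.card X + ε) *
        (Fintype.card Y * Fintype.card X * k) =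
        k * (Fintype.card Y * ∑ x, (beta G (triv V) (s.down x) ∅ i : ℝ)) +
          Fintype.card Y * Fintype.card X * (ε * k) := by
      field_simp
    rw [h5]
    have h6 : 2 * (Fintype.card Y * Fintype.card X * 2 ^ Fintype.card V) =
        (Fintype.card Y * Fintype.card X : ℝ) * (2 * 2 ^ Fintype.card V) := by ring
    rw [h6]
    have h7 := mul_le_mul_of_nonneg_left h4 (mul_pos hY hX).le
    linarith

/-- the criterion for the vanishing of the `ℓ²`-homology -/
theorem Slope.l2van (s : Slope G X) [Nonempty X] (i : ℕ) (h : ∀ x, beta G (triv V) (s.down x) ∅ i = 0) :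
    L2Van G i := by
  classical
  refine large V G i fun N E hE => ?_
  obtain ⟨Y, fY, nY, a, sgn, ⟨h1, h2, ev, e1, e2, e3, e4⟩, _, _, h5⟩ := s.far (1 / (N + 1)) (by positivity) E hE
  refine ⟨Y, fY, nY, a, ev, h1, h2, e1, e2, e3, e4, ?_⟩
  have h6 : s.avg i = 0 := by
    unfold Slope.avg
    rw [Finset.sum_eq_zero, zero_div]
    intro x _
    rw [h x, Nat.cast_zero]
  have h7 := h5 i
  rw [h6, zero_add] at h7
  have h8 : (0 : ℝ) ≤ (Fintype.card Y : ℝ) := Nat.cast_nonneg _
  have h9 : (N : ℝ) * (1 / (N + 1)) ≤ 1 := by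
    rw [mul_one_div, div_le_one (by positivity)]
    linarith
  have h10 : (N : ℝ) * (beta G (pull ℝ a) Set.univ ∅ i : ℝ) ≤ Fintype.card Y :=
    calc (N : ℝ) * (beta G (pull ℝ a) Set.univ ∅ i : ℝ) ≤ N * (1 / (N + 1) * Fintype.card Y) :=
          mul_le_mul_of_nonneg_left h7 (Nat.cast_nonneg _)
      _ = N * (1 / (N + 1)) * Fintype.card Y := by ring
      _ ≤ 1 * Fintype.card Y := mul_le_mul_of_nonneg_right h9 h8
      _ = Fintype.card Y := one_mul _
  exact_mod_cast h10

end cyc

end Pool.Agent.X250.Sph
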