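import Pool.Agent.X250.Sph.Parity
import Pool.Agent.X250.Sph.Cd

/-!
# Vanishing in the degrees of one parity for the links of the faces
-/

set_option autoImplicit false
set_option linter.unusedSectionVars false

namespace Pool.Agent.X250.Sph

open Module Pool.Agent.W907.SG Pool.Agent.W907.SM Pool.Agent.TH652.Above Pool.Agent.Y132.SI
open Pool.Agent.TH652.Dual (triv)

variable {V : Type} [Fintype V] [LinearOrder V] {G : SimpleGraph V}

/-- the Singer conjecture for the links of the larger faces -/
theorem FaceP.singer_large {j k : ℕ} (h : FaceP j k G) (hS : HSph (2 * j + k) G) {T : Finset V}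
    (hT : G.IsClique (T : Set V)) (hk : k ≤ T.card) {i : ℕ} (hi : 2 * i + T.card ≠ 2 * j + k) :
    LV (G.induce (lk G T)) i := by
  classical
  obtain ⟨e, he, hek⟩ := Finset.exists_subset_card_eq hk
  have hec : G.IsClique (e : Set V) := hT.subset (by exact_mod_cast he)
  have h6 : ((T \ e : Finset V) : Set V) ⊆ lk G e := by
    intro x hx y hy
    rw [Finset.mem_coe, Finset.mem_sdiff] at hx
    refine hT (Finset.mem_coe.2 hx.1) (Finset.mem_coe.2 (he hy)) ?_
    rintro rfl
    exact hx.2 hy
  have h7 : (cut (lk G e) (T \ e)).map (incl (lk G e)) = T \ e := map_cut _ h6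
  have h8 : e ∪ (cut (lk G e) (T \ e)).map (incl (lk G e)) = T := by
    rw [h7, Finset.union_sdiff_of_subset he]
  have h9 : (cut (lk G e) (T \ e)).card = T.card - k := by
    rw [← Finset.card_map (incl (lk G e)), h7, Finset.card_sdiff_of_subset he, hek]
  have h10 : (G.induce (lk G e)).IsClique ((cut (lk G e) (T \ e) : Finset _) : Set ↥(lk G e)) := by
    rw [clique_map, h7]
    exact hT.subset (by
      intro x hx
      rw [Finset.mem_coe, Finset.mem_sdiff] at hx
      exact hx.1)
  have hS' : HSph (2 * j) (G.induce (lk G e)) := hSph_congr (by omega) (hSph_lk hS e hec)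
  have h11 := LV_of (singer_lk hS' (h e hec hek) _ h10 i (by rw [h9]; omega))
  rw [lv_sub] at h11
  refine lv_set ?_ h11
  rw [lk_lk, h8]

/-- one parity for all links of faces with an even number of vertices -/
theorem FaceP.parity_lk {j k m : ℕ} (h : FaceP j k G) (hm : 2 * j + k = 2 * m) (hS : HSph (2 * m) G)
    {T : Finset V} (hT : G.IsClique (T : Set V)) [Fintype ↥(lk G T)] {l : ℕ} (hl : 2 * l + T.card = 2 * m)
    (hs : T.card < k → ∀ i, l < i → Odd (i + l) → i ≤ j + k - T.card → L2Van (G.induce (lk G T)) i)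
    (i : ℕ) (hi : Odd (i + l)) : L2Van (G.induce (lk G T)) i := by
  classical
  by_cases hk : k ≤ T.card
  · refine h.singer_large (hSph_congr hm.symm hS) hT hk ?_ _ _
    intro h1
    rw [Nat.odd_iff] at hi
    omega
  · obtain ⟨r, hr⟩ : ∃ r, k = T.card + (r + 1) := ⟨k - T.card - 1, by omega⟩
    have hP : FaceP j (r + 1) (G.induce (lk G T)) := FaceP.link (r := T.card) (k := r + 1) (hr ▸ h) hT rfl
    have hS' : HSph (2 * l) (G.induce (lk G T)) := hSph_congr (by omega) (hSph_lk hS T hT)
    exact hP.parity (by omega) hS' (fun i h1 h2 h3 => hs (by omega) i h1 h2 (by omega)) i hi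

end Pool.Agent.X250.Sph
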