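import Pool.Agent.X250.Sph.Small

/-!
# Vanishing in the degrees of one parity
-/

set_option autoImplicit false
set_option linter.unusedSectionVars false

namespace Pool.Agent.X250.Sph

open Module Pool.Agent.W907.SG Pool.Agent.W907.SM Pool.Agent.W397.SG Pool.Agent.W347.SGV
  Pool.Agent.W338.SG Pool.Agent.W461.SGN Pool.Agent.TH652.Above Pool.Agent.Y132.SI
open Pool.Agent.TH652.Dual (triv)

variable {V : Type} [Fintype V] [LinearOrder V] {G : SimpleGraph V}

/-- the other degrees -/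
theorem parity_evt {m : ℕ} (h : ∀ i, Odd (i + m) → L2Van G i) (ε : ℝ) (hε : 0 < ε) :
    Evt G (fun X _ a => ∀ i, Even (i + m) → (beta G (pull ℝ a) Set.univ ∅ i : ℝ) ≤
      ((-1 : ℝ) ^ m * (chiW G : ℝ) + ε) * Fintype.card X) := by
  classical
  obtain ⟨K, hK⟩ : ∃ K : ℕ, K = Fintype.card V + 1 := ⟨_, rfl⟩
  have hK0 : (0 : ℝ) < K := by rw [hK]; positivity
  have h2 := Evt.forall (G := G) ((Finset.range K).filter (fun i => Odd (i + m)))
    (fun i X _ a => (beta G (pull ℝ a) Set.univ ∅ i : ℝ) ≤ ε / K * Fintype.card X)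
    (fun i hi => evt_small ((lv_univ G i).2 (LV_of (h i (Finset.mem_filter.1 hi).2))) _ (by positivity))
  refine (h2.and (evt_sigma G)).mono fun X _ a hfar hh i0 hi0 => ?_
  obtain ⟨h4, _, h5⟩ := hh
  obtain ⟨b, hbd⟩ : ∃ b : ℕ → ℝ, b = fun i => (beta G (pull ℝ a) Set.univ ∅ i : ℝ) := ⟨_, rfl⟩
  have hb0 : ∀ i, 0 ≤ b i := by intro i; rw [hbd]; exact Nat.cast_nonneg _
  have hbi : ∀ i, (beta G (pull ℝ a) Set.univ ∅ i : ℝ) = b i := by intro i; rw [hbd]
  have heul := congrArg (fun q : ℚ => (q : ℝ)) (beta_sum' (two_ne_zero : (2 : ℝ) ≠ 0) G a hfar.1 hfar.2.1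
    (fun T t ht hc => h5 T t ht (by convert hc)))
  push_cast at heul
  simp only [hbi] at h4 heul ⊢
  rw [← hK] at heul
  obtain ⟨r, hr⟩ : ∃ r : ℝ, r = ε / K * Fintype.card X := ⟨_, rfl⟩
  have hr0 : 0 ≤ r := by rw [hr]; positivity
  have h6 : ∀ i ∈ Finset.range K, (if i = i0 then b i0 else 0) - r ≤
      (-1 : ℝ) ^ m * ((-1 : ℝ) ^ i * b i) := by
    intro i hi
    have e : (-1 : ℝ) ^ m * ((-1 : ℝ) ^ i * b i) = (-1 : ℝ) ^ (i + m) * b i := by
      rw [pow_add]; ring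
    rw [e]
    rcases Nat.even_or_odd (i + m) with h7 | h7
    · rw [h7.neg_one_pow, one_mul]
      by_cases h8 : i = i0
      · rw [if_pos h8, h8]
        linarith
      · rw [if_neg h8]
        linarith [hb0 i]
    · rw [h7.neg_one_pow]
      have h8 : i ≠ i0 := by
        rintro rfl
        exact (Nat.not_even_iff_odd.2 h7) hi0
      rw [if_neg h8]
      have h9 := h4 i (Finset.mem_filter.2 ⟨hi, h7⟩)
      rw [← hr] at h9
      linarith
  have h7 := Finset.sum_le_sum h6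
  rw [← Finset.mul_sum, heul, Finset.sum_sub_distrib, Finset.sum_const, Finset.card_range, nsmul_eq_mul,
    Finset.sum_ite_eq'] at h7
  have h8 : (if i0 ∈ Finset.range K then b i0 else 0) = b i0 := by
    split_ifs with h
    · rfl
    · rw [← hbi, beta_big G _ _ _ (by rw [Finset.mem_range] at h; omega), Nat.cast_zero]
  have h9 : (K : ℝ) * r = ε * Fintype.card X := by
    rw [hr]
    field_simp
  rw [h8, h9] at h7
  linarith

/-- the sign of the Euler characteristic -/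
theorem parity_sign {m : ℕ} (h : ∀ i, Odd (i + m) → L2Van G i) : 0 ≤ (-1 : ℚ) ^ m * chiW G := by
  by_contra hcon
  push Not at hcon
  obtain ⟨δ, hδ⟩ : ∃ δ : ℝ, δ = -((-1 : ℝ) ^ m * (chiW G : ℝ)) := ⟨_, rfl⟩
  have hδ0 : 0 < δ := by
    have h1 : (((-1 : ℚ) ^ m * chiW G : ℚ) : ℝ) < 0 := by exact_mod_cast hcon
    push_cast at h1
    rw [hδ]
    linarith
  obtain ⟨X, _, _, P, hX⟩ := (parity_evt h (δ / 2) (by positivity)).exists
  have hXp : (0 : ℝ) < Fintype.card X := by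
    have := Fintype.card_pos (α := X)
    exact_mod_cast this
  have h1 := hX m ⟨m, rfl⟩
  have h2 : (0 : ℝ) ≤ (beta G (pull ℝ P.a) Set.univ ∅ m : ℝ) := Nat.cast_nonneg _
  have h3 : (-1 : ℝ) ^ m * (chiW G : ℝ) + δ / 2 = -(δ / 2) := by rw [hδ]; ring
  rw [h3] at h1
  nlinarith

/-- all degrees -/
theorem parity_all {m : ℕ} (h : ∀ i, Odd (i + m) → L2Van G i) (ε : ℝ) (hε : 0 < ε) :
    Evt G (fun X _ a => ∀ i ∈ Finset.range (Fintype.card V + 1), (beta G (pull ℝ a) Set.univ ∅ i : ℝ) ≤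
      ((if Even (i + m) then (-1 : ℝ) ^ m * (chiW G : ℝ) else 0) + ε) * Fintype.card X) := by
  classical
  have h1 := parity_evt h ε hε
  have h2 := Evt.forall (G := G) ((Finset.range (Fintype.card V + 1)).filter (fun i => Odd (i + m)))
    (fun i X _ a => (beta G (pull ℝ a) Set.univ ∅ i : ℝ) ≤ ε * Fintype.card X)
    (fun i hi => evt_small ((lv_univ G i).2 (LV_of (h i (Finset.mem_filter.1 hi).2))) _ hε)
  refine (h1.and h2).mono fun X _ a _ hh i hi => ?_
  by_cases h3 : Even (i + m)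
  · rw [if_pos h3]
    exact hh.1 i h3
  · rw [if_neg h3, zero_add]
    exact hh.2 i (Finset.mem_filter.2 ⟨hi, Nat.not_even_iff_odd.1 h3⟩)

/-- the case of Euler characteristic zero -/
theorem parity_zero {m : ℕ} (h : ∀ i, Odd (i + m) → L2Van G i) (h0 : chiW G = 0) (i : ℕ) : L2Van G i := by
  by_cases hi : Even (i + m)
  · refine (lv_univ G i).1 (lv_of_evt fun ε hε => ?_) _ _
    refine (parity_evt h ε hε).mono fun X _ a _ hX => ?_
    have h1 := hX i hi
    rw [h0, Rat.cast_zero, mul_zero, zero_add] at h1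
    exact h1
  · exact h i (Nat.not_even_iff_odd.1 hi)

/-- the converse -/
theorem parity_iff {m : ℕ} (h : ∀ i, Odd (i + m) → L2Van G i) : (∀ i, L2Van G i) ↔ chiW G = 0 :=
  ⟨fun h1 => (l2eul V G m (fun i _ => h1 i)).1 h1, fun h0 i => parity_zero h h0 i⟩

/-- the growth -/
theorem parity_growth {m : ℕ} (h : ∀ i, Odd (i + m) → L2Van G i) (ε : ℝ) (hε : 0 < ε) :
    ∃ E : Finset (W G), (1 : W G) ∉ E ∧ ∀ H : Subgroup (W G), H.FiniteIndex →
      (∀ g ∈ E, ∀ x : W G, x * g * x⁻¹ ∉ H) → ∀ i : ℕ, (finrank ℝ (HInv G H i) : ℝ) ≤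
        ((if Even (i + m) then (-1 : ℝ) ^ m * (chiW G : ℝ) else 0) + ε) * H.index := by
  obtain ⟨E, h1, h2⟩ := (parity_all h ε hε).sub
  refine ⟨E, h1, fun H hf hE i => ?_⟩
  obtain ⟨fX, h3, h4⟩ := h2 H hf hE
  rw [h3] at h4
  rw [finrank_HInv]
  by_cases hi : i < Fintype.card V + 1
  · exact h4 i (Finset.mem_range.2 hi)
  · rw [beta_big G _ Set.univ ∅ (by omega), Nat.cast_zero]
    have h5 : (0 : ℝ) ≤ (-1 : ℝ) ^ m * (chiW G : ℝ) := by
      have := parity_sign h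
      exact_mod_cast this
    split_ifs <;> positivity

/-- homology spheres -/
theorem FaceP.parity {j k m : ℕ} (h : FaceP j (k + 1) G) (hm : 2 * j + (k + 1) = 2 * m) (hS : HSph (2 * m) G)
    (hs : ∀ i, m < i → Odd (i + m) → i ≤ j + (k + 1) → L2Van G i) (i : ℕ) (hi : Odd (i + m)) : L2Van G i := by
  have h1 : ∀ i, m < i → Odd (i + m) → L2Van G i := by
    intro i h2 h3
    by_cases h4 : i ≤ j + (k + 1)
    · exact hs i h2 h3 h4
    · exact (lv_univ G i).1 (FaceP.above h Set.univ (by omega)) _ _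
  rcases lt_trichotomy i m with h2 | h2 | h2
  · refine Pool.Agent.TH652.Dual.l2_duality (n := 2 * m) hS (i := i) (j := 2 * m - i) (by omega)
      (h1 _ (by omega) ?_)
    rw [Nat.odd_iff] at hi ⊢
    omega
  · rw [h2, Nat.odd_iff] at hi
    omega
  · exact h1 i h2 hi

end Pool.Agent.X250.Sph
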