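import Pool.Agent.X250.Sph.Bound2
import Pool.Agent.X250.Sph.OneDeg
import Pool.Agent.X250.Sph.Small

/-!
# Bounds for full subcomplexes
-/

set_option autoImplicit false
set_option linter.unusedSectionVars false

namespace Pool.Agent.X250.Sph

open Module Pool.Agent.W907.SG Pool.Agent.W907.SM Pool.Agent.TH652.Above Pool.Agent.Y132.SI

variable {V : Type} [Fintype V] [LinearOrder V] {G : SimpleGraph V}

open Classical in
/-- the faces with `k` vertices which are contained in `A` and not contained in `D` -/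
noncomputable def facesIn (G : SimpleGraph V) (k : ℕ) (A D : Set V) : Finset (Finset V) :=
  Finset.univ.filter fun T => G.IsClique (T : Set V) ∧ T.card = k ∧ (T : Set V) ⊆ A ∧ ¬ (T : Set V) ⊆ D

/-- the bound for the Betti numbers of the full subcomplexes -/
theorem FaceP.boundA {j k : ℕ} (h : FaceP j (k + 1) G) (hS : HSph (2 * j + (k + 1)) G) (ε : ℝ) (hε : 0 < ε) :
    Evt G (fun X _ a => ∀ D A : Set V, D ⊆ A → (beta G (pull ℝ a) A ∅ (j + (k + 1)) : ℝ) ≤
      beta G (pull ℝ a) D ∅ (j + (k + 1)) +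
        ((1 / 2) ^ (k + 1) * (∑ T ∈ facesIn G (k + 1) A D, (chiLk G j T : ℝ)) + ε) * Fintype.card X) := by
  classical
  obtain ⟨c, hc⟩ : ∃ c : ℕ, c = Fintype.card (Finset V) + 1 := ⟨_, rfl⟩
  have hc0 : (0 : ℝ) < c := by rw [hc]; positivity
  obtain ⟨ε1, hε1⟩ : ∃ ε1 : ℝ, ε1 = ε / (3 * c) := ⟨_, rfl⟩
  have hε1p : 0 < ε1 := by rw [hε1]; positivity
  -- all faces and all full subcomplexes of their links
  have h1 := Evt.forall (G := G) ((Finset.univ : Finset (Finset V × Finset V)).filter
      (fun p => G.IsClique (p.1 : Set V) ∧ p.1.card = k + 1 ∧ (p.2 : Set V) ⊆ lk G p.1))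
    (fun p X _ a => (beta G (pull ℝ a) (p.2 : Set V) (p.1 : Set V) j : ℝ) ≤
      beta G (pull ℝ a) (lk G p.1) (p.1 : Set V) j + ε1 * Fintype.card X)
    (fun p hp => by
      obtain ⟨-, h2, h3, h4⟩ := Finset.mem_filter.1 hp
      exact mono_T h2 (fun u hu C hC => h.lv_vert h2 h3 hu hC) _ _ h4 rfl ε1 hε1p)
  have h2 := Evt.forall (G := G) ((Finset.univ : Finset (Finset V)).filter
      (fun T : Finset V => G.IsClique (T : Set V) ∧ T.card = k + 1))
    (fun T X _ a => (beta G (pull ℝ a) (lk G T) (T : Set V) j : ℝ) ≤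
      ((1 / 2) ^ (k + 1) * (chiLk G j T : ℝ) + ε1) * Fintype.card X)
    (fun T hT => by
      obtain ⟨-, h2, h3⟩ := Finset.mem_filter.1 hT
      have h4 := top_T h2 (fun i hi => h.singer hS h2 h3 hi) ε1 hε1p
      refine h4.mono fun X _ a _ h5 => h5.trans (le_of_eq ?_)
      rw [h3]
      unfold chiLk
      push_cast
      rfl)
  refine (h1.and h2).mono fun X _ a _ hh D A hDA => ?_
  obtain ⟨h4, h5⟩ := hh
  have hX0 : (0 : ℝ) ≤ Fintype.card X := Nat.cast_nonneg _
  have hDf : (D.toFinset : Set V) = D := Set.coe_toFinset D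
  have hAf : (A.toFinset : Set V) = A := Set.coe_toFinset A
  have hun : A.toFinset ∪ D.toFinset = A.toFinset :=
    Finset.union_eq_left.2 (Set.toFinset_subset_toFinset.2 hDA)
  have h7 := iterB G (pull ℝ a) j k
    (fun T => ((1 / 2) ^ (k + 1) * (chiLk G j T : ℝ) + 2 * ε1) * Fintype.card X)
    (fun T hT hk C hC => by
      have h8 := h4 (T, C.toFinset) (Finset.mem_filter.2 ⟨Finset.mem_univ _, hT, hk, by
        simpa using hC⟩)
      have h9 := h5 T (Finset.mem_filter.2 ⟨Finset.mem_univ _, hT, hk⟩)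
      simp only [Set.coe_toFinset] at h8
      linarith) D.toFinset A.toFinset
  rw [hun, hDf, hAf] at h7
  have h8 : (A.toFinset.powersetCard (k + 1)).filter
      (fun T : Finset V => G.IsClique (T : Set V) ∧ ¬ T ⊆ D.toFinset) = facesIn G (k + 1) A D := by
    unfold facesIn
    ext T
    rw [Finset.mem_filter, Finset.mem_filter, Finset.mem_powersetCard]
    have e1 : T ⊆ D.toFinset ↔ (T : Set V) ⊆ D := by
      rw [← Finset.coe_subset, hDf]
    have e2 : T ⊆ A.toFinset ↔ (T : Set V) ⊆ A := by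
      rw [← Finset.coe_subset, hAf]
    rw [e1, e2]
    constructor
    · rintro ⟨⟨k0, k1⟩, k2, k3⟩
      exact ⟨Finset.mem_univ _, k2, k1, k0, k3⟩
    · rintro ⟨_, k2, k1, k0, k3⟩
      exact ⟨⟨k0, k1⟩, k2, k3⟩
  rw [h8, ← Finset.sum_mul, Finset.sum_add_distrib, ← Finset.mul_sum, Finset.sum_const, nsmul_eq_mul] at h7
  have h9 : ((facesIn G (k + 1) A D).card : ℝ) * (2 * ε1) ≤ ε := by
    have h10 : ((facesIn G (k + 1) A D).card : ℝ) ≤ c := by
      rw [hc]
      have := Finset.card_le_univ (facesIn G (k + 1) A D)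
      push_cast
      have h11 : ((facesIn G (k + 1) A D).card : ℝ) ≤ (Fintype.card (Finset V) : ℝ) := by exact_mod_cast this
      linarith
    calc ((facesIn G (k + 1) A D).card : ℝ) * (2 * ε1) ≤ c * (2 * ε1) :=
          mul_le_mul_of_nonneg_right h10 (by positivity)
      _ = 2 * ε / 3 := by
          rw [hε1]
          field_simp
      _ ≤ ε := by linarith
  have h10 : ((facesIn G (k + 1) A D).card : ℝ) * (2 * ε1) * Fintype.card X ≤ ε * Fintype.card X :=
    mul_le_mul_of_nonneg_right h9 hX0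
  nlinarith

theorem FaceP.chiLk_nonneg {j k : ℕ} (h : FaceP j (k + 1) G) (hS : HSph (2 * j + (k + 1)) G) {T : Finset V}
    (hT : G.IsClique (T : Set V)) (hk : T.card = k + 1) : 0 ≤ chiLk G j T := by
  classical
  have h4 : HSph (2 * j) (G.induce (lk G T)) := hSph_congr (by omega) (hSph_lk hS T hT)
  have h5 := (gap_of h4 fun i hi => h.singer hS hT hk hi _ _).1
  unfold chiLk
  exact h5

/-- the growth of the Betti numbers of the preimages of the full subcomplexes -/
theorem FaceP.growthA {j k : ℕ} (h : FaceP j (k + 1) G) (hS : HSph (2 * j + (k + 1)) G) (ε : ℝ) (hε : 0 < ε) :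
    ∃ E : Finset (W G), (1 : W G) ∉ E ∧ ∀ H : Subgroup (W G), H.FiniteIndex →
      (∀ g ∈ E, ∀ x : W G, x * g * x⁻¹ ∉ H) → ∀ A : Set V,
        (∀ i, j + (k + 1) < i → (finrank ℝ (HInvOn G A H i) : ℝ) ≤ ε * H.index) ∧
        ∀ D : Set V, D ⊆ A → (finrank ℝ (HInvOn G A H (j + (k + 1))) : ℝ) ≤
          finrank ℝ (HInvOn G D H (j + (k + 1))) +
            ((1 / 2) ^ (k + 1) * (∑ T ∈ facesIn G (k + 1) A D, (chiLk G j T : ℝ)) + ε) * H.index := by
  classical
  obtain ⟨E1, h1, h2⟩ := growth_all (G := G) (f := fun i => j + (k + 1) < i)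
    (fun A i hi => FaceP.above h A hi) ε hε
  obtain ⟨E2, h3, h4⟩ := (h.boundA hS ε hε).sub
  refine ⟨E1 ∪ E2, fun h5 => (Finset.mem_union.1 h5).elim h1 h3, fun H hfin hE A => ⟨fun i hi =>
    h2 H hfin (fun g hg => hE g (Finset.mem_union_left _ hg)) A i hi, fun D hDA => ?_⟩⟩
  obtain ⟨fX, h5, h6⟩ := h4 H hfin (fun g hg => hE g (Finset.mem_union_right _ hg))
  have h7 := h6 D A hDA
  rw [h5] at h7
  rw [finrank_HInvOn, finrank_HInvOn]
  exact h7

/-- the vanishing of the `ℓ²`-homology of the full subcomplexes of the links, inside `A` -/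
theorem lv_facesA {k : ℕ} (N A : Set V) (f : ℕ → ℕ → Prop) (hf : ∀ r i, f (r + 1) (i + 1) → f r i)
    (hf0 : ∀ r, ¬ f (r + 1) 0)
    (h : ∀ T : Finset V, G.IsClique (T : Set V) → T.card = k → (T : Set V) ⊆ A → ¬ (T : Set V) ⊆ N →
      ∀ C : Set V, C ⊆ lk G T ∩ A → ∀ i, f 0 i → LV (G.induce C) i) :
    ∀ (r : ℕ) (S : Finset V), G.IsClique (S : Set V) → S.card + r = k → (S : Set V) ⊆ A → ¬ (S : Set V) ⊆ N →
      ∀ C : Set V, C ⊆ lk G S ∩ A → ∀ i, f r i → LV (G.induce C) i := by
  classical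
  intro r
  induction r with
  | zero => exact fun S hS hk hA hN C hC i hi => h S hS (by omega) hA hN C hC i hi
  | succ r ih =>
    intro S hS hk hA hN C hC i hi
    have hi1 : 1 ≤ i := by
      rcases Nat.eq_zero_or_pos i with h0 | h0
      · exact absurd (h0 ▸ hi) (hf0 r)
      · exact h0
    have h1 := lv_grow (G := G) (i := i) C ∅ (lv_none i hi1) (fun v hv _ D hD j hj => by
      have hvS := (hC hv).1
      have hvS' : v ∉ S := fun h => G.irrefl (hvS v h)
      have hcl : G.IsClique ((insert v S : Finset V) : Set V) := by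
        rw [Finset.coe_insert, SimpleGraph.isClique_insert]
        exact ⟨hS, fun t ht _ => hvS t ht⟩
      refine ih (insert v S) hcl (by rw [Finset.card_insert_of_notMem hvS']; omega) ?_ ?_ D ?_ j ?_
      · rw [Finset.coe_insert]
        exact Set.insert_subset (hC hv).2 hA
      · intro h
        exact hN fun x hx => h (by simp [Finset.mem_coe.1 hx])
      · intro x hx
        have hx' := hD hx
        rw [Set.union_empty] at hx'
        refine ⟨fun t ht => ?_, (hC hx'.1).2⟩
        rcases Finset.mem_insert.1 ht with rfl | ht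
        · exact ((G.mem_neighborSet t x).1 hx'.2).symm
        · exact (hC hx'.1).1 t ht
      · exact hf r j (hj ▸ hi))
    exact lv_set (Set.union_empty C).symm h1

/-- vanishing -/
theorem FaceP.vanishA {j k : ℕ} (h : FaceP j (k + 1) G) (hS : HSph (2 * j + (k + 1)) G) {D A : Set V} (hDA : D ⊆ A)
    (hD : LV (G.induce D) (j + (k + 1)))
    (h0 : ∀ T ∈ facesIn G (k + 1) A D, chiLk G j T = 0 ∨ LV (G.induce (lk G T ∩ A)) j) :
    LV (G.induce A) (j + (k + 1)) := by
  classical
  have hT0 : ∀ T : Finset V, G.IsClique (T : Set V) → T.card = k + 1 → (T : Set V) ⊆ A → ¬ (T : Set V) ⊆ D →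
      ∀ C : Set V, C ⊆ lk G T ∩ A → LV (G.induce C) j := by
    intro T hT hk hTA hTD C hC
    rcases h0 T (Finset.mem_filter.2 ⟨Finset.mem_univ _, hT, hk, hTA, hTD⟩) with h2 | h2
    · have h3 : chiW (G.induce (lk G T)) = 0 := by
        unfold chiLk at h2
        rcases mul_eq_zero.1 h2 with h4 | h4
        · exact absurd h4 (pow_ne_zero _ (by norm_num))
        · exact h4
      have h4 : HSph (2 * j) (G.induce (lk G T)) := hSph_congr (by omega) (hSph_lk hS T hT)
      have h5 : LV (G.induce (lk G T)) j :=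
        LV_of ((gap_of h4 fun i hi => h.singer hS hT hk hi _ _).2.1.2 h3 j)
      refine lv_mono (hC.trans Set.inter_subset_left) h5 fun v hv B hB => h.lv_vert hT hk hv.1 ?_
      exact Set.inter_subset_inter_left _ hB
    · refine lv_mono hC h2 fun v hv B hB => h.lv_vert hT hk hv.1.1 ?_
      exact Set.inter_subset_inter_left _ (hB.trans Set.inter_subset_left)
  have key : LV (G.induce (A ∪ D)) (j + (k + 1)) := by
    refine lv_grow A D hD fun v hv hvD B hB i hi => ?_
    refine lv_facesA (k := k + 1) D A (fun r i => i = j + r) (fun r i hi => by omega) (fun r => by omega)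
      (fun T hT hk hTA hTN C hC i hi => ?_) k {v} (by simp) (by rw [Finset.card_singleton]; omega) ?_ ?_ B ?_ i
      (by omega)
    · have : i = j := by omega
      subst this
      exact hT0 T hT hk hTA hTN C hC
    · simpa using hv
    · simpa using hvD
    · intro x hx
      refine ⟨fun t ht => ?_, (hB hx).1.elim id fun h => hDA h⟩
      rw [Finset.mem_singleton] at ht
      subst ht
      exact ((G.mem_neighborSet t x).1 (hB hx).2).symm
  exact lv_set (Set.union_eq_left.2 hDA).symm key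

end Pool.Agent.X250.Sph
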